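import Pool.Agent.Lib_MP_af4de1_as.Defs
import Pool.Agent.Lib_MP_af4de1_u.Basic

/-!
# Elementary identities
-/

namespace SokalAS

open Complex SokalU

theorem S_mul (t k x : ℂ) : S t (k * x) = S t k - k + k * Sh (t * k) x := by
  unfold S Sh
  ring

theorem zp_mul {t : ℂ} {k η : ℝ} {x : ℂ} (h : Sad (t * k) η x) :
    zp t (k * x) = zp t k * cexp (η * I) := by
  have hx : x ≠ 0 := by
    rintro rfl
    simpa using h.1
  unfold zp
  rw [← h.2, exp_add, exp_log hx]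
  have : cexp (t * (k * x) - t / 2) = cexp (t * k - t / 2) * cexp (t * k * (x - 1)) := by
    rw [← exp_add]
    congr 1
    ring
  rw [this]
  ring

theorem V_inv {k : ℝ} {t : ℂ} (hk : 0 < k) (ht : 0 ≤ t.re) : (V k t)⁻¹ = k * vh (t * k) := by
  rw [← re_div hk ht, vh, div_eq_mul_inv, re_ofReal_mul]

theorem vh_eq {w : ℂ} : vh w = (1 + w.re) / ‖1 + w‖ ^ 2 := by
  unfold vh
  rw [inv_re, add_re, one_re, normSq_eq_norm_sq]

theorem one_add_norm_le {w : ℂ} (hw : 0 ≤ w.re) : (1 + ‖w‖) ^ 2 ≤ 2 * ‖1 + w‖ ^ 2 := by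
  have h1 : ‖1 + w‖ ^ 2 = 1 + 2 * w.re + ‖w‖ ^ 2 := by
    rw [← normSq_eq_norm_sq, ← normSq_eq_norm_sq, normSq_apply, normSq_apply]
    simp only [add_re, one_re, add_im, one_im]
    ring
  rw [h1]
  nlinarith [sq_nonneg (1 - ‖w‖)]

theorem one_add_ne {w : ℂ} (hw : 0 ≤ w.re) : 1 + w ≠ 0 := by
  intro h
  have := congrArg re h
  simp only [add_re, one_re, zero_re] at this
  linarith

theorem vh_pos {w : ℂ} (hw : 0 ≤ w.re) : 0 < vh w := by
  rw [vh_eq]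
  have := norm_pos_iff.2 (one_add_ne hw)
  positivity

/-- `vh w` has the size `(1 + Re w)/(1 + |w|)²`. -/
theorem vh_ge {w : ℂ} (hw : 0 ≤ w.re) : (1 + w.re) / (1 + ‖w‖) ^ 2 ≤ vh w := by
  rw [vh_eq]
  have h1 := norm_pos_iff.2 (one_add_ne hw)
  have h2 : ‖1 + w‖ ≤ 1 + ‖w‖ := (norm_add_le _ _).trans (by simp)
  gcongr

theorem vh_le {w : ℂ} (hw : 0 ≤ w.re) : vh w ≤ 2 * ((1 + w.re) / (1 + ‖w‖) ^ 2) := by
  rw [vh_eq]
  have h1 := norm_pos_iff.2 (one_add_ne hw)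
  have h2 := one_add_norm_le hw
  have h3 : 0 < (1 + ‖w‖) ^ 2 := by positivity
  rw [mul_div_assoc', div_le_div_iff₀ (by positivity) h3]
  nlinarith [mul_le_mul_of_nonneg_left h2 (show 0 ≤ 1 + w.re by linarith)]

theorem vh_le_one {w : ℂ} (hw : 0 ≤ w.re) : vh w ≤ 1 := by
  rw [vh_eq, div_le_one (pow_pos (norm_pos_iff.2 (one_add_ne hw)) 2)]
  have h1 : ‖1 + w‖ ^ 2 = (1 + w.re) ^ 2 + w.im ^ 2 := by
    rw [← normSq_eq_norm_sq, normSq_apply]
    simp only [add_re, one_re, add_im, one_im]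
    ring
  rw [h1]
  nlinarith [sq_nonneg w.im]

theorem mem_Qd {t : ℂ} {k : ℝ} (hk : 0 < k) (ht : 0 ≤ t.re) (hti : t.im ≤ 0) : t * k ∈ Qd := by
  constructor
  · simp only [mul_re, ofReal_re, ofReal_im, mul_zero, sub_zero]
    positivity
  · simp only [mul_im, ofReal_re, ofReal_im, mul_zero, zero_add]
    nlinarith

theorem Sad.ne_zero {w : ℂ} {η : ℝ} {x : ℂ} (h : Sad w η x) : x ≠ 0 := by
  rintro rfl
  simpa using h.1

end SokalAS
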