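import Pool.Agent.Lib_MP_af4de1_u.Defs

/-!
# Multiple zeros near roots of unity of order at least 3: definitions

Notation of `Lib_MP_af4de1_u/Defs.lean`: `E t z = F(z; e^{-t})`, `Re t ≥ 0`, `zp t κ = κ e^{tκ - t/2}` the point with saddle
point `κ`, `S t κ = κ + tκ²/2`, `J t κ = E t (zp t κ) e^{-S t κ}`.  Always `Im t ≤ 0`; `k > 0` is the centre, `w = t k` is in
the quadrant `Qd`.  The point `zp t k e^{iη}` has the saddle point `k x` with `log x + w (x - 1) = iη` (`Sad w η x`), and
`S t (k x) = S t k - k + k Sh w x`; `Re Sh w x = 1` at `η = 0` and decreases with `|η|`.  `Rg` is the range of angles in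
which everything is valid (`-1.17 > -(π/2 - 1/e) = -1.2029`, the branch point `κ = -1/t`; `1.54 < π/2`).
`(V k t)⁻¹ = k vh (t k)`.
-/

namespace SokalAS

open Complex SokalU

/-- The normalised exponent at the saddle point. -/
noncomputable def Sh (w x : ℂ) : ℂ := x + w * (x ^ 2 - 1) / 2

/-- `x` is the saddle point (divided by the centre) at the angle `η`. -/
def Sad (w : ℂ) (η : ℝ) (x : ℂ) : Prop := 0 < x.re ∧ log x + w * (x - 1) = η * I

/-- `Re 1/(1+w)`. -/
noncomputable def vh (w : ℂ) : ℝ := ((1 + w)⁻¹).re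

/-- The quadrant. -/
def Qd : Set ℂ := {w | 0 ≤ w.re ∧ w.im ≤ 0}

/-- The range of angles. -/
def Rg (η : ℝ) : Prop := -(117 / 100) ≤ η ∧ η ≤ 77 / 50

/-- The exponent on the imaginary axis `w = -i/B`: `Re ψ(a + i s)`. -/
noncomputable def ui (B η a s : ℝ) : ℝ := -(a * (1 + B * (s - η))) + Real.exp a * Real.cos s

end SokalAS
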