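import Pool.Agent.Lib_MP_af4de1_as.SadIm

/-!
# The exponent on the path, imaginary axis [AS-10]

`Rel2 B η' a ν`: data of the saddle at the reference angle `η'` (`a = log‖x‖`, `ν = arg x`).  `η` is the actual angle, equal
to `η'` or beyond it (`Adm`), up to `π + 1/10`.  `ρ = e^a cos ν (1 - a) = ui B η' a ν`, `dx = min 1 B / 10`, `A = |a| + dx`.
Use `1 - cos ν ≤ |ν| |sin ν|` (`|ν| ≤ π/2`), `e^x - 1 ≤ x + .6x²` (`0 ≤ x ≤ .1`), `e^{-x} ≤ 1 - x + x²/2`.

`center`: `ui B η a s - ui B η' a s = a B (η - η') ≤ 0`, and from `Rel` (`-(aB) = e^a sin ν`)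
 `ρ - ui B η' a s = e^a (cos ν - cos s - (s - ν) sin ν)`.  With `σ = s - ν`: `cos ν - cos s - σ sin ν = cos ν (1 - cos σ) -
 sin ν (σ - sin σ)`, and `cos_ineq`: this is `≥ (1/2) cos ν (1 - cos σ)` for `|s| ≤ π/2`, `|ν| < π/2` (true with `2/3`): let
 `ν ≥ 0` (else reflect).  If `σ ≤ 0` clear.  If `0 < σ ≤ π/2 - ν`: need `sin ν (σ - sin σ) ≤ (1/2) cos ν (1 - cos σ)`; since
 `tan ν ≤ tan(π/2 - σ) = cos σ/sin σ` it suffices `2 (σ - sin σ) cos σ ≤ sin σ (1 - cos σ)`, i.e. `2σ cos σ ≤ sin σ (1 + cos σ)`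
 (`0 < σ < π/2`; e.g. `σ cos σ ≤ sin σ` and `σ cos σ ≤ sin σ cos σ + ...`: derivative of `sin σ (1 + cos σ) - 2σ cos σ` is
 `cos 2σ - cos σ + 2σ sin σ ≥ 0`).

Case P (`η' ≥ 0`): `L = -a ∈ [0, .65]`, `L ≤ 2.1 B`, `BL = e^{-L} sin ν`, `p = e^{-L} cos ν = 1 - B(η' - ν) ≥ e^{-L} - BLν`,
 `ρ = p (1 + L)`, `η ≥ η'`.
 `far_right`: `ρ - ui = p + 2L - BL(η' - ν) + LB(s - η) + dx (1 + B(s - η)) - e^{L+dx} cos s
   ≥ e^{-L} + 2L - e^{L+dx} cos s + LB(s - η - η') + dx(1 + B(s-η))`.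
  For `s ≥ 2π`: `cos s ≤ 1`; `-2(sinh L - L) ≥ -.3405 L³ ≥ -.47 BL`, `s - η - η' ≥ 1.5`, `e^L - 1 ≤ 1.41 L`, so
   `≥ .89 BL + dx B (s - η) - .12 dx B ≥ dx B s/4` (`η ≤ π + .1`).
  For `3π/2 ≤ s ≤ 2π`: `σ = s - 2π`, `cos σ ≤ 1 - (4/π²) σ²`, `LBσ + (4/π²) e^L σ² ≥ -.617 LB (LB e^{-L}) ≥ -.617 LB`.
 `far_left` (`s = -y`): `ρ - ui = p - e^{-L-dx} cos y + LB(y + η - η' + ν) - dx(1 - B(y+η))
   ≥ e^{-L}(1 - e^{-dx}) - dx + (L + dx) B y ≥ -dx L - dx²/2 + (L+dx) B y ≥ dx B y/4`.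
Case M (`η' ≤ 0`): `ℓ = a ∈ [0, .98]`, `μ = -ν`, `y' = -η'`, `Bℓ = e^ℓ sin μ`, `p = e^ℓ cos μ = 1 + B(y' - μ) ≥ e^ℓ - Bℓμ`,
 `ρ = p (1 - ℓ)`, `y'' = -η ∈ [y', π + .1]`.
 `far_right`: `ρ - ui = p - e^{ℓ+dx} cos s + ℓB(s + y'' - y' + μ) + dx(1 + B(s + y''))
   ≥ -e^ℓ(e^dx - 1) + dx + (ℓ + dx) B s ≥ dx B s/4` (`e^ℓ - 1 ≤ 1.7 ℓ`).
 `far_left` (`s = -y`): `ρ - ui = p - 2ℓ - dx + Bℓ(y - y'' - y' + μ) + dx B (y - y'') - e^{-ℓ-dx} cos y
   ≥ (e^ℓ - e^{-ℓ} - 2ℓ) + e^{-ℓ}(1 - e^{-dx}) - dx + Bℓ(y - y'' - y') + dx B(y - y'')`, first term `≥ 0`,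
   `-dx + e^{-ℓ}(1 - e^{-dx}) ≥ -dx ℓ - dx²/2`, `y - y'' - y' ≥ .29`, and `y - y'' ≥ y - 3.2416`.
-/

namespace SokalAS

/-- `η` is the reference angle `η'` or beyond it. -/
def Adm (η' η : ℝ) : Prop := η = η' ∨ (0 ≤ η' ∧ η' ≤ η ∧ η ≤ Real.pi + 1 / 10) ∨
  (η' ≤ 0 ∧ η ≤ η' ∧ -(Real.pi + 1 / 10) ≤ η)

/-- The shift of the far lines. -/
noncomputable def dx (B : ℝ) : ℝ := min 1 B / 10

/-- The data of a saddle on the imaginary axis. -/
structure Rel2 (B η a ν : ℝ) : Prop extends Rel B η a ν where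
  hη : Rg η
  pos : 0 ≤ η → 0 ≤ ν ∧ ν ≤ η ∧ -(13 / 20) ≤ a ∧ a ≤ 0 ∧ -a ≤ 21 / 10 * B
  neg : η ≤ 0 → ν ≤ 0 ∧ 0 ≤ a ∧ a ≤ 49 / 50

theorem Sad.rel2 {B η : ℝ} {x : ℂ} (hB : 0 < B) (hη : Rg η) (h : Sad (-(1 / B : ℝ) * Complex.I) η x) :
    Rel2 B η (Real.log ‖x‖) (Complex.arg x) := by
  have h1 := h.rel_im hB hη
  exact ⟨h1.1, hη, h1.2.1, h1.2.2⟩

/-! ### Elementary inequalities -/

private lemma two_mul_cos_le {σ : ℝ} (h0 : 0 ≤ σ) (h1 : σ ≤ Real.pi / 2) :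
    2 * σ * Real.cos σ ≤ Real.sin σ * (1 + Real.cos σ) := by
  have hpi := Real.pi_pos
  obtain ⟨h, rfl⟩ : ∃ h, σ = 2 * h := ⟨σ / 2, by ring⟩
  have hh0 : 0 ≤ h := by linarith
  have hc : 0 < Real.cos h := Real.cos_pos_of_mem_Ioo ⟨by linarith, by linarith⟩
  have hs : 0 ≤ Real.sin h := Real.sin_nonneg_of_nonneg_of_le_pi hh0 (by linarith)
  have hcos : 0 ≤ Real.cos (2 * h) :=
    Real.cos_nonneg_of_neg_pi_div_two_le_of_le (by linarith) h1
  have hhc : h * Real.cos h ≤ Real.sin h := by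
    have h2 : h ≤ Real.tan h := Real.le_tan hh0 (by linarith)
    have h3 : Real.tan h * Real.cos h = Real.sin h := Real.tan_mul_cos hc.ne'
    have h4 := mul_le_mul_of_nonneg_right h2 hc.le
    linarith
  rw [Real.sin_two_mul]
  have hsq := Real.sin_sq_add_cos_sq h
  have hD : Real.cos (2 * h) = Real.cos h ^ 2 - Real.sin h ^ 2 := by
    rw [Real.cos_two_mul]
    linarith
  rw [hD] at hcos ⊢
  clear hD
  generalize Real.cos h = c at *
  generalize Real.sin h = s at *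
  have e1 : 1 + (c ^ 2 - s ^ 2) = 2 * c ^ 2 := by linarith
  rw [e1]
  have h5 : h * c * (c ^ 2 - s ^ 2) ≤ s * (c ^ 2 - s ^ 2) := mul_le_mul_of_nonneg_right hhc hcos
  have h6 : c ^ 2 - s ^ 2 ≤ c ^ 4 := by
    have : c ^ 4 - (c ^ 2 - s ^ 2) = s ^ 4 := by
      have h7 : c ^ 2 = 1 - s ^ 2 := by linarith
      have h8 : c ^ 4 = (c ^ 2) ^ 2 := by ring
      rw [h8, h7]
      ring
    have h9 : 0 ≤ s ^ 4 := by positivity
    linarith
  have h7 : s * (c ^ 2 - s ^ 2) ≤ s * c ^ 4 := mul_le_mul_of_nonneg_left h6 hs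
  have h8 : c * (h * (c ^ 2 - s ^ 2)) ≤ c * (s * c ^ 3) := by
    have : c * (s * c ^ 3) = s * c ^ 4 := by ring
    rw [this]
    linarith
  have h9 := le_of_mul_le_mul_left h8 hc
  have : 2 * s * c * (2 * c ^ 2) = 4 * (s * c ^ 3) := by ring
  rw [this]
  linarith

private lemma cos_ineq_aux {ν s : ℝ} (h0 : 0 ≤ ν) (hν : ν < Real.pi / 2) (hs : s ≤ Real.pi / 2)
    (hs' : -(Real.pi / 2) ≤ s) :
    1 / 2 * Real.cos ν * (1 - Real.cos (s - ν)) ≤
      Real.cos ν - Real.cos s - (s - ν) * Real.sin ν := by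
  have hpi := Real.pi_pos
  obtain ⟨σ, rfl⟩ : ∃ σ, s = ν + σ := ⟨s - ν, by ring⟩
  have e : ν + σ - ν = σ := by ring
  rw [e, Real.cos_add]
  have hc : 0 ≤ Real.cos ν := Real.cos_nonneg_of_neg_pi_div_two_le_of_le (by linarith) hν.le
  have hsn : 0 ≤ Real.sin ν := Real.sin_nonneg_of_nonneg_of_le_pi h0 (by linarith)
  have h1 : Real.cos σ ≤ 1 := Real.cos_le_one σ
  suffices h : Real.sin ν * (σ - Real.sin σ) ≤ 1 / 2 * Real.cos ν * (1 - Real.cos σ) by
    linarith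
  have h2 : 0 ≤ 1 / 2 * Real.cos ν * (1 - Real.cos σ) := by
    apply mul_nonneg (by linarith) (by linarith)
  rcases le_total σ 0 with h3 | h3
  · have h4 : σ - Real.sin σ ≤ 0 := by
      have := Real.sin_le (x := -σ) (by linarith)
      rw [Real.sin_neg] at this
      linarith
    have := mul_nonneg_of_nonpos_of_nonpos h4 (neg_nonpos.2 hsn)
    linarith
  · have hσ : σ ≤ Real.pi / 2 := by linarith
    have h4 : 0 ≤ σ - Real.sin σ := by
      have := Real.sin_le h3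
      linarith
    have h5 : Real.sin ν ≤ Real.cos σ := by
      rw [← Real.sin_pi_div_two_sub]
      exact Real.sin_le_sin_of_le_of_le_pi_div_two (by linarith) (by linarith) (by linarith)
    have h6 : Real.sin σ ≤ Real.cos ν := by
      rw [← Real.sin_pi_div_two_sub]
      exact Real.sin_le_sin_of_le_of_le_pi_div_two (by linarith) (by linarith) (by linarith)
    have h7 := two_mul_cos_le h3 hσ
    have h8 : Real.sin ν * (σ - Real.sin σ) ≤ Real.cos σ * (σ - Real.sin σ) :=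
      mul_le_mul_of_nonneg_right h5 h4
    have h9 : Real.sin σ * (1 - Real.cos σ) ≤ Real.cos ν * (1 - Real.cos σ) :=
      mul_le_mul_of_nonneg_right h6 (by linarith)
    nlinarith

theorem cos_ineq {ν s : ℝ} (hν : |ν| < Real.pi / 2) (hs : |s| ≤ Real.pi / 2) :
    1 / 2 * Real.cos ν * (1 - Real.cos (s - ν)) ≤
      Real.cos ν - Real.cos s - (s - ν) * Real.sin ν := by
  obtain ⟨h1, h2⟩ := abs_lt.1 hν
  obtain ⟨h3, h4⟩ := abs_le.1 hs
  rcases le_total 0 ν with h0 | h0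
  · exact cos_ineq_aux h0 h2 h4 h3
  · have := cos_ineq_aux (ν := -ν) (s := -s) (by linarith) (by linarith) (by linarith) (by linarith)
    have e : -s - -ν = -(s - ν) := by ring
    rw [e, Real.cos_neg, Real.cos_neg, Real.cos_neg, Real.sin_neg] at this
    linarith

theorem rho_pos {B η' a ν : ℝ} (h : Rel2 B η' a ν) :
    1 / 50 * (Real.exp a * Real.cos ν) ≤ Real.exp a * Real.cos ν * (1 - a) := by
  have hc : 0 < Real.cos ν := Real.cos_pos_of_mem_Ioo ⟨(abs_lt.1 h.hν).1, (abs_lt.1 h.hν).2⟩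
  have hp : 0 ≤ Real.exp a * Real.cos ν := mul_nonneg (Real.exp_pos a).le hc.le
  have ha : a ≤ 49 / 50 := by
    rcases le_total 0 η' with h0 | h0
    · linarith [(h.pos h0).2.2.2.1]
    · exact (h.neg h0).2.2
  nlinarith

/-- The two cases. -/
private lemma Adm.cases {B η' η a ν : ℝ} (h : Rel2 B η' a ν) (hA : Adm η' η) :
    (0 ≤ η' ∧ η' ≤ η ∧ η ≤ Real.pi + 1 / 10) ∨ (η' ≤ 0 ∧ η ≤ η' ∧ -(Real.pi + 1 / 10) ≤ η) := by
  have hpi := Real.pi_gt_three
  have h1 := h.hη.1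
  have h2 := h.hη.2
  rcases hA with rfl | hA | hA
  · rcases le_total 0 η with h0 | h0
    · exact Or.inl ⟨h0, le_rfl, by linarith⟩
    · exact Or.inr ⟨h0, le_rfl, by linarith⟩
  · exact Or.inl hA
  · exact Or.inr hA

theorem center {B η' η a ν s : ℝ} (h : Rel2 B η' a ν) (hA : Adm η' η) (hs : |s| ≤ Real.pi / 2) :
    ui B η a s ≤ Real.exp a * Real.cos ν * (1 - a) -
      1 / 2 * Real.exp a * Real.cos ν * (1 - Real.cos (s - ν)) := by
  have hB := h.hB
  have h1 : a * B * (η - η') ≤ 0 := by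
    rcases Adm.cases h hA with ⟨h2, h3, _⟩ | ⟨h2, h3, _⟩
    · have ha := (h.pos h2).2.2.2.1
      exact mul_nonpos_of_nonpos_of_nonneg (mul_nonpos_of_nonpos_of_nonneg ha hB.le) (by linarith)
    · have ha := (h.neg h2).2.1
      exact mul_nonpos_of_nonneg_of_nonpos (mul_nonneg ha hB.le) (by linarith)
  have h2 := mul_le_mul_of_nonneg_left (cos_ineq h.hν hs) (Real.exp_pos a).le
  have h3 := h.hs
  have h4 := h.hc
  have e1 : Real.exp a * Real.cos ν * (1 - a) - ui B η a s =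
      Real.exp a * (Real.cos ν - Real.cos s - (s - ν) * Real.sin ν) - a * B * (η - η') +
      (a * (1 + B * (ν - η') - Real.exp a * Real.cos ν) +
        (s - ν) * (B * a + Real.exp a * Real.sin ν)) := by
    unfold ui
    ring
  rw [h4, h3] at e1
  have e2 : Real.exp a * (1 / 2 * Real.cos ν * (1 - Real.cos (s - ν))) =
      1 / 2 * Real.exp a * Real.cos ν * (1 - Real.cos (s - ν)) := by ring
  rw [e2] at h2
  rw [h4]
  linarith

private lemma exp_small {x : ℝ} (h0 : 0 ≤ x) (h1 : x ≤ 1 / 10) :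
    Real.exp x ≤ 1 + x + 10 / 9 * x ^ 2 := by
  have h2 : Real.exp x * (1 - x) ≤ 1 := by
    have h3 := mul_le_mul_of_nonneg_left (Real.one_sub_le_exp_neg x) (Real.exp_pos x).le
    rwa [← Real.exp_add, add_neg_cancel, Real.exp_zero] at h3
  have h3 : 1 ≤ (1 + x + 10 / 9 * x ^ 2) * (1 - x) := by nlinarith [mul_nonneg h0 h0]
  have h4 : Real.exp x * (1 - x) ≤ (1 + x + 10 / 9 * x ^ 2) * (1 - x) := by linarith
  exact le_of_mul_le_mul_right h4 (by linarith)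

private lemma exp_neg_small {x : ℝ} (h0 : 0 ≤ x) : Real.exp (-x) ≤ 1 - x + x ^ 2 / 2 := by
  have h1 := Real.quadratic_le_exp_of_nonneg h0
  have h2 : Real.exp (-x) * Real.exp x = 1 := by
    rw [← Real.exp_add, neg_add_cancel, Real.exp_zero]
  have h3 : 1 ≤ (1 - x + x ^ 2 / 2) * (1 + x + x ^ 2 / 2) := by nlinarith [mul_nonneg h0 h0, sq_nonneg (x ^ 2)]
  have h4 : 0 ≤ 1 - x + x ^ 2 / 2 := by nlinarith [sq_nonneg (x - 1)]
  have h5 : (1 - x + x ^ 2 / 2) * (1 + x + x ^ 2 / 2) ≤ (1 - x + x ^ 2 / 2) * Real.exp x :=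
    mul_le_mul_of_nonneg_left h1 h4
  have h6 : Real.exp (-x) * Real.exp x ≤ (1 - x + x ^ 2 / 2) * Real.exp x := by linarith
  exact le_of_mul_le_mul_right h6 (Real.exp_pos x)

private lemma exp_taylor {x : ℝ} (h : |x| ≤ 1) :
    |Real.exp x - (1 + x + x ^ 2 / 2 + x ^ 3 / 6 + x ^ 4 / 24)| ≤ |x| ^ 5 / 100 := by
  have := Real.exp_bound h (n := 5) (by norm_num)
  norm_num [Finset.sum_range_succ, Nat.factorial] at this
  have e : |x| ^ 5 * (1 / 100) = |x| ^ 5 / 100 := by ring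
  rw [e] at this
  exact this

private lemma exp_sub_one_le {x : ℝ} (h0 : 0 ≤ x) (h1 : x ≤ 1) :
    Real.exp x ≤ 1 + x + x ^ 2 / 2 + x ^ 3 / 6 + x ^ 4 / 24 + x ^ 5 / 100 := by
  have h2 := exp_taylor (x := x) (by rw [abs_of_nonneg h0]; exact h1)
  rw [abs_of_nonneg h0] at h2
  linarith [(abs_le.1 h2).2]

private lemma sinh_le {L : ℝ} (h0 : 0 ≤ L) (h1 : L ≤ 13 / 20) :
    -(342 / 1000 * L ^ 3) ≤ Real.exp (-L) + 2 * L - Real.exp L := by
  have h2 := exp_sub_one_le h0 (by linarith)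
  have h3 := exp_taylor (x := -L) (by rw [abs_neg, abs_of_nonneg h0]; linarith)
  rw [abs_neg, abs_of_nonneg h0] at h3
  have h4 := (abs_le.1 h3).1
  have h5 : L ^ 2 ≤ 169 / 400 := by nlinarith
  have h6 : L ^ 5 ≤ 169 / 400 * L ^ 3 := by
    have h7 := mul_le_mul_of_nonneg_left h5 (pow_nonneg h0 3)
    have e : L ^ 3 * L ^ 2 = L ^ 5 := by ring
    rw [e] at h7
    linarith
  have e2 : (-L) ^ 2 = L ^ 2 := by ring
  have e3 : (-L) ^ 3 = -L ^ 3 := by ring
  have e4 : (-L) ^ 4 = L ^ 4 := by ring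
  rw [e2, e3, e4] at h4
  have h8 : 0 ≤ L ^ 3 := pow_nonneg h0 3
  linarith

private lemma exp_le_P {L : ℝ} (h0 : 0 ≤ L) (h1 : L ≤ 13 / 20) :
    Real.exp L ≤ 1 + 141 / 100 * L := by
  have h2 := exp_sub_one_le h0 (by linarith)
  have e2 : L ^ 2 ≤ 13 / 20 * L := by nlinarith
  have e3 : L ^ 3 ≤ (13 / 20) ^ 2 * L := by nlinarith [mul_nonneg h0 h0]
  have e4 : L ^ 4 ≤ (13 / 20) ^ 3 * L := by nlinarith [mul_nonneg h0 h0, pow_nonneg h0 3]
  have e5 : L ^ 5 ≤ (13 / 20) ^ 4 * L := by nlinarith [mul_nonneg h0 h0, pow_nonneg h0 3, pow_nonneg h0 4]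
  norm_num at e3 e4 e5
  linarith

private lemma exp_le_M {L : ℝ} (h0 : 0 ≤ L) (h1 : L ≤ 49 / 50) :
    Real.exp L ≤ 1 + 17 / 10 * L := by
  have h2 := exp_sub_one_le h0 (by linarith)
  have e2 : L ^ 2 ≤ 49 / 50 * L := by nlinarith
  have e3 : L ^ 3 ≤ (49 / 50) ^ 2 * L := by nlinarith [mul_nonneg h0 h0]
  have e4 : L ^ 4 ≤ (49 / 50) ^ 3 * L := by nlinarith [mul_nonneg h0 h0, pow_nonneg h0 3]
  have e5 : L ^ 5 ≤ (49 / 50) ^ 4 * L := by nlinarith [mul_nonneg h0 h0, pow_nonneg h0 3, pow_nonneg h0 4]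
  norm_num at e3 e4 e5
  linarith

private lemma one_sub_cos_le {ν : ℝ} (hν : |ν| < Real.pi / 2) :
    1 - Real.cos ν ≤ ν * Real.sin ν := by
  have hpi := Real.pi_pos
  have h1 := cos_ineq hν (s := 0) (by rw [abs_zero]; linarith)
  have hc : 0 < Real.cos ν := Real.cos_pos_of_mem_Ioo ⟨(abs_lt.1 hν).1, (abs_lt.1 hν).2⟩
  rw [zero_sub, Real.cos_neg, Real.cos_zero] at h1
  have h2 : 0 ≤ 1 / 2 * Real.cos ν * (1 - Real.cos ν) := by
    apply mul_nonneg (by linarith)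
    linarith [Real.cos_le_one ν]
  linarith

private lemma cos_far {s : ℝ} (h1 : 3 * Real.pi / 2 ≤ s) (h2 : s ≤ 2 * Real.pi) :
    Real.cos s ≤ 1 - 2 / 5 * (s - 2 * Real.pi) ^ 2 := by
  have hpi := Real.pi_pos
  have hpi4 := Real.pi_lt_d4
  obtain ⟨h, rfl⟩ : ∃ h, s = 2 * Real.pi - 2 * h := ⟨(2 * Real.pi - s) / 2, by ring⟩
  have hh : 0 ≤ h := by linarith
  have hh1 : h ≤ 7854 / 10000 := by linarith
  rw [Real.cos_two_pi_sub, Real.cos_two_mul']
  have h3 := Real.sin_ge_sub_cube hh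
  have h4 : 0 ≤ h - h ^ 3 / 6 := by nlinarith [mul_nonneg hh hh]
  have h5 : (h - h ^ 3 / 6) ^ 2 ≤ Real.sin h ^ 2 := pow_le_pow_left₀ h4 h3 2
  have h6 := Real.sin_sq_add_cos_sq h
  have e : 2 * Real.pi - 2 * h - 2 * Real.pi = -(2 * h) := by ring
  rw [e]
  have h7 : 4 / 5 * h ^ 2 ≤ (h - h ^ 3 / 6) ^ 2 := by
    have h8 : h ^ 2 ≤ 617 / 1000 := by nlinarith
    have h9 : 4 / 5 ≤ (1 - h ^ 2 / 6) ^ 2 := by nlinarith [sq_nonneg h]
    have h10 : (h - h ^ 3 / 6) ^ 2 = h ^ 2 * (1 - h ^ 2 / 6) ^ 2 := by ring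
    rw [h10]
    nlinarith [mul_le_mul_of_nonneg_left h9 (sq_nonneg h)]
  nlinarith

/-! ### The far lines -/

private lemma far_right_P {B η' η L ν s δ : ℝ} (hB : 0 < B) (hη' : η' ≤ 77 / 50) (hη : η ≤ Real.pi + 1 / 10)
    (hL0 : 0 ≤ L) (hL1 : L ≤ 13 / 20) (hLB : L ≤ 21 / 10 * B) (hν : |ν| < Real.pi / 2)
    (hs : Real.exp (-L) * Real.sin ν = B * L) (hc : Real.exp (-L) * Real.cos ν = 1 + B * (ν - η'))
    (hδ0 : 0 ≤ δ) (hδ1 : δ ≤ 1 / 10) (hδB : δ ≤ B / 10) (hs3 : 3 * Real.pi / 2 ≤ s) :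
    -((L + δ) * (1 + B * (s - η))) + Real.exp (L + δ) * Real.cos s ≤
      Real.exp (-L) * Real.cos ν * (1 + L) - δ * B * s / 4 := by
  have hpi := Real.pi_gt_d4
  obtain ⟨X, hX⟩ : ∃ X, X = B * L := ⟨_, rfl⟩
  obtain ⟨Y, hY⟩ : ∃ Y, Y = δ * B := ⟨_, rfl⟩
  have hX0 : 0 ≤ X := by rw [hX]; positivity
  have hY0 : 0 ≤ Y := by rw [hY]; positivity
  have hX1 : X ≤ 1 := by
    rw [hX, ← hs]
    have h1 : Real.exp (-L) ≤ 1 := Real.exp_le_one_iff.2 (by linarith)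
    have h2 := mul_le_mul_of_nonneg_left (Real.sin_le_one ν) (Real.exp_pos (-L)).le
    linarith
  have hp : Real.exp (-L) - X * ν ≤ Real.exp (-L) * Real.cos ν := by
    have h1 := mul_le_mul_of_nonneg_left (one_sub_cos_le hν) (Real.exp_pos (-L)).le
    have h2 : Real.exp (-L) * (ν * Real.sin ν) = X * ν := by
      rw [hX, ← hs]
      ring
    rw [h2] at h1
    linarith
  have hsh := sinh_le hL0 hL1
  have hE := exp_le_P hL0 hL1
  have hE1 : 1 ≤ Real.exp (L + δ) := Real.one_le_exp (by linarith)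
  have hL2 : L ^ 2 ≤ 21 / 10 * X := by
    rw [hX]
    nlinarith
  have hL3 : L ^ 3 ≤ 1365 / 1000 * X := by
    have : L ^ 3 ≤ 13 / 20 * L ^ 2 := by nlinarith [sq_nonneg L]
    linarith
  have hLδ : L * δ ≤ X / 10 := by
    rw [hX]
    nlinarith
  have hδδ : δ ^ 2 ≤ Y / 10 := by
    rw [hY]
    nlinarith
  have hexp : Real.exp (L + δ) ≤ Real.exp L + δ + 141 / 100 * (L * δ) + 214 / 100 * δ ^ 2 := by
    rw [Real.exp_add]
    have h1 := mul_le_mul_of_nonneg_left (exp_small hδ0 hδ1) (Real.exp_pos L).le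
    have h2 : Real.exp L * δ ≤ (1 + 141 / 100 * L) * δ := mul_le_mul_of_nonneg_right hE hδ0
    have h3 : Real.exp L * δ ^ 2 ≤ (1 + 141 / 100 * (13 / 20)) * δ ^ 2 :=
      mul_le_mul_of_nonneg_right (by linarith) (sq_nonneg δ)
    have h4 : 0 ≤ δ ^ 2 := sq_nonneg δ
    linarith
  have key : Y * s / 4 ≤ Real.exp (-L) + 2 * L + X * (s - η - η') + δ + Y * (s - η) -
      Real.exp (L + δ) * Real.cos s := by
    rcases le_total s (2 * Real.pi) with h2 | h2
    · have hcs := cos_far hs3 h2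
      obtain ⟨σ, hσ⟩ : ∃ σ, σ = s - 2 * Real.pi := ⟨_, rfl⟩
      rw [← hσ] at hcs
      have h3 : Real.exp (L + δ) * Real.cos s ≤ Real.exp (L + δ) - 2 / 5 * σ ^ 2 := by
        have h4 := mul_le_mul_of_nonneg_left hcs (Real.exp_pos (L + δ)).le
        have h5 : 2 / 5 * σ ^ 2 ≤ Real.exp (L + δ) * (2 / 5 * σ ^ 2) := by
          have := mul_le_mul_of_nonneg_right hE1 (show 0 ≤ 2 / 5 * σ ^ 2 by positivity)
          linarith
        linarith
      have h4 : -(5 / 8 * X) ≤ X * σ + 2 / 5 * σ ^ 2 := by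
        have h5 := sq_nonneg (σ + 5 / 4 * X)
        have h6 : X ^ 2 ≤ X := by nlinarith
        nlinarith
      have h5 : X * (s - η - η') = X * σ + X * (2 * Real.pi - η - η') := by
        rw [hσ]
        ring
      have h6 : X * (15 / 10) ≤ X * (2 * Real.pi - η - η') :=
        mul_le_mul_of_nonneg_left (by linarith) hX0
      have h7 : Y * (s / 4 + 22 / 100) ≤ Y * (s - η) :=
        mul_le_mul_of_nonneg_left (by linarith) hY0
      linarith
    · have h3 : Real.exp (L + δ) * Real.cos s ≤ Real.exp (L + δ) := by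
        have := mul_le_mul_of_nonneg_left (Real.cos_le_one s) (Real.exp_pos (L + δ)).le
        linarith
      have h6 : X * (15 / 10) ≤ X * (s - η - η') :=
        mul_le_mul_of_nonneg_left (by linarith) hX0
      have h7 : Y * (s / 4 + 22 / 100) ≤ Y * (s - η) :=
        mul_le_mul_of_nonneg_left (by linarith) hY0
      linarith
  have e1 : Real.exp (-L) * Real.cos ν * (1 + L) =
      Real.exp (-L) * Real.cos ν + L + X * (ν - η') := by
    have : Real.exp (-L) * Real.cos ν * (1 + L) = Real.exp (-L) * Real.cos ν + (1 + B * (ν - η')) * L := by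
      rw [← hc]
      ring
    rw [this, hX]
    ring
  have e2 : (L + δ) * (1 + B * (s - η)) = L + X * (s - η) + δ + Y * (s - η) := by
    rw [hX, hY]
    ring
  rw [e1, e2, ← hY]
  linarith

private lemma far_left_P {B η' η L ν y δ : ℝ} (hB : 0 < B) (h0 : 0 ≤ η') (hηη : η' ≤ η)
    (hL0 : 0 ≤ L) (hL1 : L ≤ 13 / 20) (hν : |ν| < Real.pi / 2)
    (hs : Real.exp (-L) * Real.sin ν = B * L) (hc : Real.exp (-L) * Real.cos ν = 1 + B * (ν - η'))
    (hδ0 : 0 ≤ δ) (hδB : δ ≤ B / 10) (hy : 3 * Real.pi / 2 ≤ y) :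
    (L + δ) * (1 - B * (y + η)) + Real.exp (-L - δ) * Real.cos y ≤
      Real.exp (-L) * Real.cos ν * (1 + L) - δ * B * y / 4 := by
  have hpi := Real.pi_gt_d4
  obtain ⟨X, hX⟩ : ∃ X, X = B * L := ⟨_, rfl⟩
  obtain ⟨Y, hY⟩ : ∃ Y, Y = δ * B := ⟨_, rfl⟩
  have hX0 : 0 ≤ X := by rw [hX]; positivity
  have hY0 : 0 ≤ Y := by rw [hY]; positivity
  have hp : Real.exp (-L) - X * ν ≤ Real.exp (-L) * Real.cos ν := by
    have h1 := mul_le_mul_of_nonneg_left (one_sub_cos_le hν) (Real.exp_pos (-L)).le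
    have h2 : Real.exp (-L) * (ν * Real.sin ν) = X * ν := by
      rw [hX, ← hs]
      ring
    rw [h2] at h1
    linarith
  have hLδ : L * δ ≤ X / 10 := by
    rw [hX]
    nlinarith
  have hδδ : δ ^ 2 ≤ Y / 10 := by
    rw [hY]
    nlinarith
  have hexp : Real.exp (-L - δ) ≤ Real.exp (-L) - δ + L * δ + δ ^ 2 / 2 := by
    have e : -L - δ = -L + -δ := by ring
    rw [e, Real.exp_add]
    have h1 := exp_neg_small hδ0
    have h2 := Real.one_sub_le_exp_neg L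
    have h3 := mul_le_mul_of_nonneg_left h1 (Real.exp_pos (-L)).le
    have h5 : Real.exp (-L) ≤ 1 := Real.exp_le_one_iff.2 (by linarith)
    have h6 : (1 - L) * δ ≤ Real.exp (-L) * δ := mul_le_mul_of_nonneg_right h2 hδ0
    have h7 : Real.exp (-L) * δ ^ 2 ≤ 1 * δ ^ 2 := mul_le_mul_of_nonneg_right h5 (sq_nonneg δ)
    linarith
  have hcy : Real.exp (-L - δ) * Real.cos y ≤ Real.exp (-L - δ) := by
    have := mul_le_mul_of_nonneg_left (Real.cos_le_one y) (Real.exp_pos (-L - δ)).le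
    linarith
  have e1 : Real.exp (-L) * Real.cos ν * (1 + L) =
      Real.exp (-L) * Real.cos ν + L + X * (ν - η') := by
    have : Real.exp (-L) * Real.cos ν * (1 + L) = Real.exp (-L) * Real.cos ν + (1 + B * (ν - η')) * L := by
      rw [← hc]
      ring
    rw [this, hX]
    ring
  have e2 : (L + δ) * (1 - B * (y + η)) = L - X * (y + η) + δ - Y * (y + η) := by
    rw [hX, hY]
    ring
  rw [e1, e2, ← hY]
  have h6 : X * (1 / 10) ≤ X * (y + η - η') := mul_le_mul_of_nonneg_left (by linarith) hX0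
  have h7 : Y * (y / 4 + 1 / 20) ≤ Y * (y + η) := mul_le_mul_of_nonneg_left (by linarith) hY0
  linarith

private lemma far_right_M {B z' z l m s δ : ℝ} (hB : 0 < B) (h0 : 0 ≤ z') (hzz : z' ≤ z)
    (hL0 : 0 ≤ l) (hL1 : l ≤ 49 / 50) (hm : |m| < Real.pi / 2)
    (hs : Real.exp l * Real.sin m = B * l) (hc : Real.exp l * Real.cos m = 1 + B * (z' - m))
    (hδ0 : 0 ≤ δ) (hδ1 : δ ≤ 1 / 10) (hδB : δ ≤ B / 10) (hs3 : 3 * Real.pi / 2 ≤ s) :
    -((l + δ) * (1 + B * (s + z))) + Real.exp (l + δ) * Real.cos s ≤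
      Real.exp l * Real.cos m * (1 - l) - δ * B * s / 4 := by
  have hpi := Real.pi_gt_d4
  obtain ⟨X, hX⟩ : ∃ X, X = B * l := ⟨_, rfl⟩
  obtain ⟨Y, hY⟩ : ∃ Y, Y = δ * B := ⟨_, rfl⟩
  have hX0 : 0 ≤ X := by rw [hX]; positivity
  have hY0 : 0 ≤ Y := by rw [hY]; positivity
  have hp : Real.exp l - X * m ≤ Real.exp l * Real.cos m := by
    have h1 := mul_le_mul_of_nonneg_left (one_sub_cos_le hm) (Real.exp_pos l).le
    have h2 : Real.exp l * (m * Real.sin m) = X * m := by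
      rw [hX, ← hs]
      ring
    rw [h2] at h1
    linarith
  have hE := exp_le_M hL0 hL1
  have hLδ : l * δ ≤ X / 10 := by
    rw [hX]
    nlinarith
  have hδδ : δ ^ 2 ≤ Y / 10 := by
    rw [hY]
    nlinarith
  have hexp : Real.exp (l + δ) ≤ Real.exp l + δ + 17 / 10 * (l * δ) + 3 * δ ^ 2 := by
    rw [Real.exp_add]
    have h1 := mul_le_mul_of_nonneg_left (exp_small hδ0 hδ1) (Real.exp_pos l).le
    have h2 : Real.exp l * δ ≤ (1 + 17 / 10 * l) * δ := mul_le_mul_of_nonneg_right hE hδ0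
    have h3 : Real.exp l * δ ^ 2 ≤ (1 + 17 / 10 * (49 / 50)) * δ ^ 2 :=
      mul_le_mul_of_nonneg_right (by linarith) (sq_nonneg δ)
    have h4 : 0 ≤ δ ^ 2 := sq_nonneg δ
    linarith
  have hcy : Real.exp (l + δ) * Real.cos s ≤ Real.exp (l + δ) := by
    have := mul_le_mul_of_nonneg_left (Real.cos_le_one s) (Real.exp_pos (l + δ)).le
    linarith
  have e1 : Real.exp l * Real.cos m * (1 - l) =
      Real.exp l * Real.cos m - l - X * (z' - m) := by
    have : Real.exp l * Real.cos m * (1 - l) = Real.exp l * Real.cos m - (1 + B * (z' - m)) * l := by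
      rw [← hc]
      ring
    rw [this, hX]
    ring
  have e2 : (l + δ) * (1 + B * (s + z)) = l + X * (s + z) + δ + Y * (s + z) := by
    rw [hX, hY]
    ring
  rw [e1, e2, ← hY]
  have h6 : X * (17 / 100) ≤ X * (s + z - z') := mul_le_mul_of_nonneg_left (by linarith) hX0
  have h7 : Y * (s / 4 + 3 / 10) ≤ Y * (s + z) := mul_le_mul_of_nonneg_left (by linarith) hY0
  linarith

private lemma far_left_M {B z' z l m y δ : ℝ} (hB : 0 < B) (hz' : z' ≤ 117 / 100)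
    (hz : z ≤ Real.pi + 1 / 10)
    (hL0 : 0 ≤ l) (hL1 : l ≤ 49 / 50) (hm : |m| < Real.pi / 2)
    (hs : Real.exp l * Real.sin m = B * l) (hc : Real.exp l * Real.cos m = 1 + B * (z' - m))
    (hδ0 : 0 ≤ δ) (hδB : δ ≤ B / 10) (hy : 3 * Real.pi / 2 ≤ y) :
    (l + δ) * (1 + B * (z - y)) + Real.exp (-l - δ) * Real.cos y ≤
      Real.exp l * Real.cos m * (1 - l) - δ * B * y / 4 := by
  have hpi := Real.pi_gt_d4
  obtain ⟨X, hX⟩ : ∃ X, X = B * l := ⟨_, rfl⟩
  obtain ⟨Y, hY⟩ : ∃ Y, Y = δ * B := ⟨_, rfl⟩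
  have hX0 : 0 ≤ X := by rw [hX]; positivity
  have hY0 : 0 ≤ Y := by rw [hY]; positivity
  have hp : Real.exp l - X * m ≤ Real.exp l * Real.cos m := by
    have h1 := mul_le_mul_of_nonneg_left (one_sub_cos_le hm) (Real.exp_pos l).le
    have h2 : Real.exp l * (m * Real.sin m) = X * m := by
      rw [hX, ← hs]
      ring
    rw [h2] at h1
    linarith
  have hLδ : l * δ ≤ X / 10 := by
    rw [hX]
    nlinarith
  have hδδ : δ ^ 2 ≤ Y / 10 := by
    rw [hY]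
    nlinarith
  have hsinh : 2 * l ≤ Real.exp l - Real.exp (-l) := by
    have h1 := Real.self_le_sinh_iff.2 hL0
    rw [Real.sinh_eq] at h1
    linarith
  have hexp : Real.exp (-l - δ) ≤ Real.exp (-l) - δ + l * δ + δ ^ 2 / 2 := by
    have e : -l - δ = -l + -δ := by ring
    rw [e, Real.exp_add]
    have h1 := exp_neg_small hδ0
    have h2 := Real.one_sub_le_exp_neg l
    have h3 := mul_le_mul_of_nonneg_left h1 (Real.exp_pos (-l)).le
    have h5 : Real.exp (-l) ≤ 1 := Real.exp_le_one_iff.2 (by linarith)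
    have h6 : (1 - l) * δ ≤ Real.exp (-l) * δ := mul_le_mul_of_nonneg_right h2 hδ0
    have h7 : Real.exp (-l) * δ ^ 2 ≤ 1 * δ ^ 2 := mul_le_mul_of_nonneg_right h5 (sq_nonneg δ)
    linarith
  have hcy : Real.exp (-l - δ) * Real.cos y ≤ Real.exp (-l - δ) := by
    have := mul_le_mul_of_nonneg_left (Real.cos_le_one y) (Real.exp_pos (-l - δ)).le
    linarith
  have e1 : Real.exp l * Real.cos m * (1 - l) =
      Real.exp l * Real.cos m - l - X * (z' - m) := by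
    have : Real.exp l * Real.cos m * (1 - l) = Real.exp l * Real.cos m - (1 + B * (z' - m)) * l := by
      rw [← hc]
      ring
    rw [this, hX]
    ring
  have e2 : (l + δ) * (1 + B * (z - y)) = l - X * (y - z) + δ - Y * (y - z) := by
    rw [hX, hY]
    ring
  rw [e1, e2, ← hY]
  have h6 : X * (29 / 100) ≤ X * (y - z - z') := mul_le_mul_of_nonneg_left (by linarith) hX0
  have h7 : Y * (y / 4 + 1 / 20) ≤ Y * (y - z) := mul_le_mul_of_nonneg_left (by linarith) hY0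
  linarith

private lemma dx_bounds {B : ℝ} (hB : 0 < B) : 0 < dx B ∧ dx B ≤ 1 / 10 ∧ dx B ≤ B / 10 := by
  unfold dx
  have h1 : 0 < min 1 B := lt_min one_pos hB
  have h2 := min_le_left 1 B
  have h3 := min_le_right 1 B
  exact ⟨by linarith, by linarith, by linarith⟩

theorem far_right {B η' η a ν s : ℝ} (h : Rel2 B η' a ν) (hA : Adm η' η)
    (hs : 3 * Real.pi / 2 ≤ s) :
    ui B η (|a| + dx B) s ≤ Real.exp a * Real.cos ν * (1 - a) - dx B * B * s / 4 := by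
  obtain ⟨d0, d1, d2⟩ := dx_bounds h.hB
  rcases Adm.cases h hA with ⟨h1, h2, h3⟩ | ⟨h1, h2, h3⟩
  · obtain ⟨p1, p2, p3, p4, p5⟩ := h.pos h1
    have := far_right_P (B := B) (η' := η') (η := η) (L := -a) (ν := ν) (s := s) (δ := dx B) h.hB h.hη.2 h3
      (by linarith) (by linarith) p5 h.hν (by rw [neg_neg, h.hs]; ring) (by rw [neg_neg, h.hc])
      d0.le d1 d2 hs
    rw [neg_neg] at this
    unfold ui
    rw [abs_of_nonpos p4]
    have e : 1 + -a = 1 - a := by ring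
    rw [e] at this
    exact this
  · obtain ⟨p1, p2, p3⟩ := h.neg h1
    have := far_right_M (B := B) (z' := -η') (z := -η) (l := a) (m := -ν) (s := s) (δ := dx B) h.hB
      (by linarith) (by linarith) p2 p3 (by rw [abs_neg]; exact h.hν)
      (by rw [Real.sin_neg, mul_neg, h.hs]; ring) (by rw [Real.cos_neg, h.hc]; ring)
      d0.le d1 d2 hs
    rw [Real.cos_neg] at this
    unfold ui
    rw [abs_of_nonneg p2]
    have e : s + -η = s - η := by ring
    rw [e] at this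
    exact this

theorem far_left {B η' η a ν s : ℝ} (h : Rel2 B η' a ν) (hA : Adm η' η)
    (hs : s ≤ -(3 * Real.pi / 2)) :
    ui B η (-(|a| + dx B)) s ≤ Real.exp a * Real.cos ν * (1 - a) - dx B * B * |s| / 4 := by
  obtain ⟨d0, d1, d2⟩ := dx_bounds h.hB
  have hpi := Real.pi_pos
  obtain ⟨y, rfl⟩ : ∃ y, s = -y := ⟨-s, by ring⟩
  have hy : 3 * Real.pi / 2 ≤ y := by linarith
  rw [abs_neg, abs_of_nonneg (show 0 ≤ y by linarith)]
  rcases Adm.cases h hA with ⟨h1, h2, h3⟩ | ⟨h1, h2, h3⟩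
  · obtain ⟨p1, p2, p3, p4, p5⟩ := h.pos h1
    have := far_left_P (B := B) (η' := η') (η := η) (L := -a) (ν := ν) (y := y) (δ := dx B) h.hB h1 h2
      (by linarith) (by linarith) h.hν (by rw [neg_neg, h.hs]; ring) (by rw [neg_neg, h.hc])
      d0.le d2 hy
    rw [neg_neg] at this
    unfold ui
    rw [abs_of_nonpos p4, Real.cos_neg]
    have e : 1 + -a = 1 - a := by ring
    rw [e] at this
    have e2 : -(-a + dx B) = a - dx B := by ring
    rw [e2]
    have e3 : -((a - dx B) * (1 + B * (-y - η))) = (-a + dx B) * (1 - B * (y + η)) := by ring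
    rw [e3]
    exact this
  · obtain ⟨p1, p2, p3⟩ := h.neg h1
    have := far_left_M (B := B) (z' := -η') (z := -η) (l := a) (m := -ν) (y := y) (δ := dx B) h.hB
      (by linarith [h.hη.1]) (by linarith) p2 p3 (by rw [abs_neg]; exact h.hν)
      (by rw [Real.sin_neg, mul_neg, h.hs]; ring) (by rw [Real.cos_neg, h.hc]; ring)
      d0.le d2 hy
    rw [Real.cos_neg] at this
    unfold ui
    rw [abs_of_nonneg p2, Real.cos_neg]
    have e2 : -(a + dx B) = -a - dx B := by ring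
    rw [e2]
    have e3 : -((-a - dx B) * (1 + B * (-y - η))) = (a + dx B) * (1 + B * (-η - y)) := by ring
    rw [e3]
    exact this

/-- The horizontal pieces at `s = ± π/2`: linear in `α`, between `0` and the value at `α = a`. -/
theorem hor_near {B η' η a ν s α : ℝ} (h : Rel2 B η' a ν) (hA : Adm η' η)
    (hs : |s| = Real.pi / 2) (hα : α ∈ Set.uIcc 0 a) :
    ui B η α s ≤ max 0 (Real.exp a * Real.cos ν * (1 - a) -
      1 / 2 * Real.exp a * Real.cos ν * (1 - Real.sin |ν|)) := by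
  have hpi := Real.pi_pos
  have hc := center h hA hs.le
  have hcν : 0 < Real.cos ν := Real.cos_pos_of_mem_Ioo ⟨(abs_lt.1 h.hν).1, (abs_lt.1 h.hν).2⟩
  have hcs : Real.cos s = 0 := by
    rcases (abs_eq (by linarith)).1 hs with h1 | h1
    · rw [h1, Real.cos_pi_div_two]
    · rw [h1, Real.cos_neg, Real.cos_pi_div_two]
  have habs : |Real.sin ν| = Real.sin |ν| := by
    rcases le_total 0 ν with h1 | h1
    · rw [abs_of_nonneg h1, abs_of_nonneg]
      exact Real.sin_nonneg_of_nonneg_of_le_pi h1 (by linarith [(abs_lt.1 h.hν).2])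
    · rw [abs_of_nonpos h1, Real.sin_neg, abs_of_nonpos]
      exact Real.sin_nonpos_of_nonpos_of_neg_pi_le h1 (by linarith [(abs_lt.1 h.hν).1])
  have hcos : Real.cos (s - ν) ≤ Real.sin |ν| := by
    rw [← habs]
    rcases (abs_eq (by linarith)).1 hs with h1 | h1
    · rw [h1, Real.cos_pi_div_two_sub]
      exact le_abs_self _
    · have e : -(Real.pi / 2) - ν = -(Real.pi / 2 - -ν) := by ring
      rw [h1, e, Real.cos_neg, Real.cos_pi_div_two_sub, Real.sin_neg]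
      exact neg_le_abs _
  have h1 : ui B η a s ≤ Real.exp a * Real.cos ν * (1 - a) -
      1 / 2 * Real.exp a * Real.cos ν * (1 - Real.sin |ν|) := by
    have h2 : 0 ≤ 1 / 2 * Real.exp a * Real.cos ν := by
      have := Real.exp_pos a
      positivity
    have h3 := mul_le_mul_of_nonneg_left (show 1 - Real.sin |ν| ≤ 1 - Real.cos (s - ν) by linarith) h2
    linarith
  have e1 : ui B η α s = -(α * (1 + B * (s - η))) := by
    unfold ui
    rw [hcs]
    ring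
  have e2 : ui B η a s = -(a * (1 + B * (s - η))) := by
    unfold ui
    rw [hcs]
    ring
  rw [e2] at h1
  rw [e1]
  obtain ⟨c, hcc⟩ : ∃ c, c = 1 + B * (s - η) := ⟨_, rfl⟩
  rw [← hcc] at h1 ⊢
  rcases le_total 0 a with h2 | h2
  · rw [Set.uIcc_of_le h2, Set.mem_Icc] at hα
    rcases le_total 0 c with h3 | h3
    · refine le_max_of_le_left ?_
      have := mul_nonneg hα.1 h3
      linarith
    · refine le_max_of_le_right (le_trans ?_ h1)
      have := mul_le_mul_of_nonpos_right hα.2 h3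
      linarith
  · rw [Set.uIcc_of_ge h2, Set.mem_Icc] at hα
    rcases le_total 0 c with h3 | h3
    · refine le_max_of_le_right (le_trans ?_ h1)
      have := mul_le_mul_of_nonneg_right hα.1 h3
      linarith
    · refine le_max_of_le_left ?_
      have := mul_nonneg_of_nonpos_of_nonpos hα.2 h3
      linarith

private lemma cos_three : Real.cos (3 * Real.pi / 2) = 0 := by
  have e : 3 * Real.pi / 2 = Real.pi / 2 + Real.pi := by ring
  rw [e, Real.cos_add_pi, Real.cos_pi_div_two, neg_zero]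

/-- The horizontal pieces at `s = ± 3π/2` (`cos s = 0`, `ui` linear in `α`). -/
theorem hor_far_right {B η' η a ν α : ℝ} (h : Rel2 B η' a ν) (hA : Adm η' η) (h0 : 0 ≤ α)
    (h1 : α ≤ |a| + dx B) : ui B η α (3 * Real.pi / 2) ≤ 0 := by
  have hpi := Real.pi_gt_three
  have hη : η ≤ Real.pi + 1 / 10 := by
    rcases Adm.cases h hA with ⟨_, _, h3⟩ | ⟨h3, h4, _⟩
    · exact h3
    · linarith
  unfold ui
  rw [cos_three, mul_zero, add_zero]
  have h2 : 0 ≤ B * (3 * Real.pi / 2 - η) := mul_nonneg h.hB.le (by linarith)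
  have h3 : 0 ≤ α * (1 + B * (3 * Real.pi / 2 - η)) := mul_nonneg h0 (by linarith)
  linarith

theorem hor_far_left {B η' η a ν α : ℝ} (h : Rel2 B η' a ν) (hA : Adm η' η) (h0 : 0 ≤ α)
    (h1 : α ≤ |a| + dx B) : ui B η (-α) (-(3 * Real.pi / 2)) ≤
      max 0 (Real.exp a * Real.cos ν * (1 - a) - dx B * B) := by
  have hpi := Real.pi_gt_d4
  obtain ⟨d0, d1, d2⟩ := dx_bounds h.hB
  have hfl := far_left h hA (s := -(3 * Real.pi / 2)) le_rfl
  rw [abs_neg, abs_of_nonneg (show 0 ≤ 3 * Real.pi / 2 by linarith)] at hfl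
  have hc : Real.cos (-(3 * Real.pi / 2)) = 0 := by rw [Real.cos_neg, cos_three]
  have e1 : ∀ β : ℝ, ui B η (-β) (-(3 * Real.pi / 2)) = β * (1 + B * (-(3 * Real.pi / 2) - η)) := by
    intro β
    unfold ui
    rw [hc]
    ring
  rw [e1] at hfl ⊢
  have hY : 0 < dx B * B := mul_pos d0 h.hB
  have hfl' : (|a| + dx B) * (1 + B * (-(3 * Real.pi / 2) - η)) ≤
      Real.exp a * Real.cos ν * (1 - a) - dx B * B := by
    have h2 : dx B * B * 4 ≤ dx B * B * (3 * Real.pi / 2) := mul_le_mul_of_nonneg_left (by linarith) hY.le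
    linarith
  rcases le_total 0 (1 + B * (-(3 * Real.pi / 2) - η)) with h3 | h3
  · refine le_max_of_le_right (le_trans ?_ hfl')
    exact mul_le_mul_of_nonneg_right h1 h3
  · refine le_max_of_le_left ?_
    exact mul_nonpos_of_nonneg_of_nonpos h0 h3

end SokalAS
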