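import Pool.Agent.Lib_MP_af4de1_as.SadX

/-!
# Saddle points for large `w` [AS-08]

Let `W = w⁻¹ = A + iB`, `A, B ≥ 0`, `|W|` small.  `vh w = Re(W/(1+W)) = (A + |W|²)/|1+W|² = (A + A² + B²)/|1 + W|²`, which gives
`vh_large`.  `x - 1 = iη/D` with `D = w + q`, `q = log x/(x-1)` (`= 1` if `x = 1`), `‖x - 1‖ ≤ C/(1+‖w‖)` (`Sad.dist` with
`x' = 1`), `‖q - 1‖ ≤ ‖x - 1‖` for `‖x-1‖ ≤ 1/2` (`Complex.norm_log_one_add_sub_self_le`), so `q → 1`.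
`Im x = η Re(1/D) = η (Re w + Re q)/|w + q|²`, and `vh w = (1 + Re w)/|1 + w|²`.
Third claim of `large`: with `y = x - 1`, `Sh w x - 1 = y - log(1+y) - y log(1+y)/2 + iη(1 + y/2)`, where the first three
terms are `O(|y|³)`, so `1 - Re Sh w x = η Im x/2 + O(|y|³)` and `|y|³ ≤ C η² vh w/(1+|w|)`.
-/

namespace SokalAS

open Complex

private theorem norm_one_add_sq (z : ℂ) : ‖1 + z‖ ^ 2 = 1 + 2 * z.re + z.re ^ 2 + z.im ^ 2 := by
  rw [← normSq_eq_norm_sq, normSq_apply]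
  simp only [add_re, one_re, add_im, one_im]
  ring

private theorem vh_inv {w : ℂ} (hw : w ≠ 0) (hw1 : 1 + w ≠ 0) :
    vh w * ‖1 + w⁻¹‖ ^ 2 = (w⁻¹).re + (w⁻¹).re ^ 2 + (w⁻¹).im ^ 2 := by
  have hW : 1 + w⁻¹ ≠ 0 := by
    intro h
    apply hw1
    have h1 : w * (1 + w⁻¹) = 1 + w := by
      rw [mul_add, mul_one, mul_inv_cancel₀ hw]
      ring
    rw [← h1, h, mul_zero]
  have h1 : (1 + w)⁻¹ = w⁻¹ * (1 + w⁻¹)⁻¹ := by
    rw [← mul_inv, mul_add, mul_one, mul_inv_cancel₀ hw, add_comm]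
  have h2 : vh w = (w⁻¹ * (1 + w⁻¹)⁻¹).re := by
    unfold vh
    rw [h1]
  rw [h2]
  generalize w⁻¹ = W at *
  have h3 : 0 < ‖1 + W‖ ^ 2 := by
    have := norm_pos_iff.2 hW
    positivity
  rw [mul_re, inv_re, inv_im, normSq_eq_norm_sq]
  simp only [add_re, one_re, add_im, one_im, zero_add]
  field_simp
  ring

theorem vh_large {ε : ℝ} (hε : 0 < ε) : ∃ R : ℝ, 0 < R ∧ ∀ w : ℂ, w ∈ Qd → R ≤ ‖w‖ →
    (1 - ε) * vh w ≤ (w⁻¹).re + (w⁻¹).im ^ 2 ∧ (w⁻¹).re + (w⁻¹).im ^ 2 ≤ (1 + ε) * vh w := by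
  refine ⟨1 + 3 / ε, by positivity, fun w hw hR => ?_⟩
  have h0 : 0 < ‖w‖ := lt_of_lt_of_le (by positivity) hR
  have hw0 : w ≠ 0 := norm_pos_iff.1 h0
  have hv := vh_pos hw.1
  have h1 := vh_inv hw0 (one_add_ne hw.1)
  have hA : 0 ≤ (w⁻¹).re := by
    rw [inv_re]
    exact div_nonneg hw.1 (normSq_nonneg w)
  have hs : ‖w⁻¹‖ ≤ ε / 3 := by
    rw [norm_inv, inv_le_comm₀ h0 (by positivity), inv_div]
    linarith
  have hs1 : ‖w⁻¹‖ ≤ 1 := by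
    rw [norm_inv]
    apply inv_le_one_of_one_le₀
    have : 0 < 3 / ε := by positivity
    linarith
  have hAs : (w⁻¹).re ≤ ‖w⁻¹‖ := re_le_norm _
  have h2 : ‖1 + w⁻¹‖ ^ 2 = 1 + 2 * (w⁻¹).re + (w⁻¹).re ^ 2 + (w⁻¹).im ^ 2 := norm_one_add_sq _
  have h3 : (w⁻¹).re ^ 2 + (w⁻¹).im ^ 2 = ‖w⁻¹‖ ^ 2 := by
    rw [← normSq_eq_norm_sq, normSq_apply]
    ring
  obtain ⟨A, hAe⟩ : ∃ A, A = (w⁻¹).re := ⟨_, rfl⟩
  obtain ⟨B, hBe⟩ : ∃ B, B = (w⁻¹).im := ⟨_, rfl⟩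
  obtain ⟨s, hse⟩ : ∃ s, s = ‖w⁻¹‖ := ⟨_, rfl⟩
  obtain ⟨v, hve⟩ : ∃ v, v = vh w := ⟨_, rfl⟩
  obtain ⟨N, hNe⟩ : ∃ N, N = ‖1 + w⁻¹‖ ^ 2 := ⟨_, rfl⟩
  rw [← hAe, ← hBe, ← hve, ← hNe] at h1
  rw [← hAe, ← hBe, ← hNe] at h2
  rw [← hAe, ← hBe, ← hse] at h3
  rw [← hAe] at hA
  rw [← hAe, ← hse] at hAs
  rw [← hse] at hs hs1
  rw [← hve] at hv
  rw [← hAe, ← hBe, ← hve]
  have hs0 : 0 ≤ s := by rw [hse]; exact norm_nonneg _
  have hN1 : 1 ≤ N := by rw [h2]; nlinarith [sq_nonneg B]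
  have hN2 : N ≤ 1 + ε := by rw [h2]; nlinarith
  constructor
  · -- lower bound
    have h4 : v ≤ (1 + A) * (A + B ^ 2) := by
      have h5 : v ≤ v * N := le_mul_of_one_le_right hv.le hN1
      nlinarith [mul_nonneg hA (sq_nonneg B)]
    have h6 : (1 - s) * v ≤ A + B ^ 2 := by
      have h7 : 0 ≤ A + B ^ 2 := by positivity
      have h8 : (1 - s) * v ≤ (1 - s) * ((1 + A) * (A + B ^ 2)) :=
        mul_le_mul_of_nonneg_left h4 (by linarith)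
      have h9 : (1 - s) * (1 + A) ≤ 1 := by nlinarith
      calc (1 - s) * v ≤ (1 - s) * ((1 + A) * (A + B ^ 2)) := h8
        _ = (1 - s) * (1 + A) * (A + B ^ 2) := by ring
        _ ≤ 1 * (A + B ^ 2) := mul_le_mul_of_nonneg_right h9 h7
        _ = A + B ^ 2 := one_mul _
    have h10 : (1 - ε) * v ≤ (1 - s) * v := mul_le_mul_of_nonneg_right (by linarith) hv.le
    linarith
  · have h4 : A + B ^ 2 ≤ v * N := by rw [h1]; nlinarith [sq_nonneg A]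
    have h5 : v * N ≤ v * (1 + ε) := mul_le_mul_of_nonneg_left hN2 hv.le
    linarith

/-- `q = log x/(x - 1)` is close to `1`. -/
private theorem q_close {x : ℂ} (hne : x ≠ 1) (hx : ‖x - 1‖ ≤ 1 / 2) :
    ‖log x / (x - 1) - 1‖ ≤ ‖x - 1‖ := by
  have hy : x - 1 ≠ 0 := sub_ne_zero.2 hne
  have hyp : 0 < ‖x - 1‖ := norm_pos_iff.2 hy
  have h1 := norm_log_one_add_sub_self_le (z := x - 1) (by linarith)
  rw [add_sub_cancel] at h1
  have h2 : log x / (x - 1) - 1 = (log x - (x - 1)) / (x - 1) := by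
    rw [sub_div, div_self hy]
  rw [h2, norm_div, div_le_iff₀ hyp]
  refine h1.trans ?_
  have h3 : (1 - ‖x - 1‖)⁻¹ ≤ 2 := by
    rw [inv_le_comm₀ (by linarith) (by norm_num)]
    linarith
  have h4 : ‖x - 1‖ ^ 2 * (1 - ‖x - 1‖)⁻¹ ≤ ‖x - 1‖ ^ 2 * 2 :=
    mul_le_mul_of_nonneg_left h3 (by positivity)
  linarith [sq (‖x - 1‖)]

/-- The cubic remainder. -/
private theorem cubic {y : ℂ} (hy : ‖y‖ ≤ 1 / 2) :
    ‖y - log (1 + y) - y * log (1 + y) / 2‖ ≤ 2 * ‖y‖ ^ 3 := by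
  have h1 := norm_log_sub_logTaylor_le 2 (z := y) (by linarith)
  have h2 : logTaylor (2 + 1) y = y - y ^ 2 / 2 := by
    rw [logTaylor_succ, logTaylor_succ, logTaylor_succ, logTaylor_zero]
    norm_num
    ring
  rw [h2] at h1
  have h3 : (1 - ‖y‖)⁻¹ ≤ 2 := by
    rw [inv_le_comm₀ (by linarith) (by norm_num)]
    linarith
  have hn := norm_nonneg y
  have h4 : ‖log (1 + y) - (y - y ^ 2 / 2)‖ ≤ 2 / 3 * ‖y‖ ^ 3 := by
    refine h1.trans ?_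
    have h5 : ‖y‖ ^ (2 + 1) * (1 - ‖y‖)⁻¹ ≤ ‖y‖ ^ (2 + 1) * 2 :=
      mul_le_mul_of_nonneg_left h3 (by positivity)
    norm_num at h5 ⊢
    linarith
  obtain ⟨e, he⟩ : ∃ e, e = log (1 + y) - (y - y ^ 2 / 2) := ⟨_, rfl⟩
  have h5 : y - log (1 + y) - y * log (1 + y) / 2 = y ^ 3 / 4 - e - y * e / 2 := by
    rw [he]
    ring
  rw [← he] at h4
  rw [h5]
  have h6 : ‖y ^ 3 / 4 - e - y * e / 2‖ ≤ ‖y‖ ^ 3 / 4 + ‖e‖ + ‖y‖ * ‖e‖ / 2 := by
    refine (norm_sub_le _ _).trans ?_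
    refine add_le_add ((norm_sub_le _ _).trans ?_) ?_
    · rw [norm_div, norm_pow]
      norm_num
    · rw [norm_div, norm_mul]
      norm_num
  have h7 : ‖y‖ * ‖e‖ ≤ 1 / 2 * ‖e‖ := mul_le_mul_of_nonneg_right hy (norm_nonneg e)
  have h8 : 0 ≤ ‖y‖ ^ 3 := by positivity
  linarith

/-- The imaginary part of the saddle point. -/
private theorem im_close {δ : ℝ} {w : ℂ} {η : ℝ} {x : ℂ} (hδ0 : 0 ≤ δ) (hδ : δ ≤ 1 / 8)
    (hw : w ∈ Qd) (h : Sad w η x) (hx : ‖x - 1‖ ≤ δ) :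
    (1 - 8 * δ) * |η| * vh w ≤ |x.im| ∧ |x.im| ≤ (1 + 8 * δ) * |η| * vh w := by
  rcases eq_or_ne x 1 with rfl | hne
  · have h1 : ((η : ℝ) : ℂ) * I = ((0 : ℝ) : ℂ) * I := by
      rw [← h.2]
      simp
    have h2 : η = 0 := by
      have := congrArg im h1
      simpa using this
    subst h2
    simp
  have hq1 : ‖log x / (x - 1) - 1‖ ≤ δ := (q_close hne (by linarith)).trans hx
  have hy : x - 1 ≠ 0 := sub_ne_zero.2 hne
  obtain ⟨q, hqe⟩ : ∃ q, q = log x / (x - 1) := ⟨_, rfl⟩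
  rw [← hqe] at hq1
  have hq2 : (x - 1) * (q + w) = (η : ℂ) * I := by
    rw [mul_add, hqe, mul_div_cancel₀ _ hy, ← h.2]
    ring
  have hw0 := hw.1
  have hM0 : 0 < ‖1 + w‖ := norm_pos_iff.2 (one_add_ne hw0)
  have hM1 : 1 ≤ ‖1 + w‖ := by
    refine le_trans ?_ (re_le_norm _)
    rw [add_re, one_re]
    linarith
  have hN1 : ‖q + w‖ ≤ (1 + δ) * ‖1 + w‖ := by
    have h3 : q + w = (1 + w) + (q - 1) := by ring
    rw [h3]
    refine (norm_add_le _ _).trans ?_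
    nlinarith
  have hN2 : (1 - δ) * ‖1 + w‖ ≤ ‖q + w‖ := by
    have h3 : 1 + w = (q + w) - (q - 1) := by ring
    have h4 : ‖1 + w‖ ≤ ‖q + w‖ + ‖q - 1‖ := by
      conv_lhs => rw [h3]
      exact norm_sub_le _ _
    nlinarith
  have hNp : 0 < ‖q + w‖ := lt_of_lt_of_le (by
    have : 0 < 1 - δ := by linarith
    positivity) hN2
  have hD0 : q + w ≠ 0 := norm_pos_iff.1 hNp
  have hqr : |q.re - 1| ≤ δ := by
    have h3 : q.re - 1 = (q - 1).re := by simp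
    rw [h3]
    exact (abs_re_le_norm _).trans hq1
  rw [abs_le] at hqr
  have hDlo : (1 - δ) * (1 + w.re) ≤ (q + w).re := by
    rw [add_re]
    nlinarith
  have hDhi : (q + w).re ≤ (1 + δ) * (1 + w.re) := by
    rw [add_re]
    nlinarith
  have hx1 : x = 1 + (η : ℂ) * I * (q + w)⁻¹ := by
    rw [← hq2, mul_assoc, mul_inv_cancel₀ hD0]
    ring
  have him : x.im = η * ((q + w).re / ‖q + w‖ ^ 2) := by
    have h6 : (η : ℂ) * I * (q + w)⁻¹ = I * ((η : ℂ) * (q + w)⁻¹) := by ring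
    rw [hx1, h6, add_im, one_im, zero_add, I_mul_im, re_ofReal_mul, inv_re, normSq_eq_norm_sq]
  have hDr : 0 < (q + w).re := by
    rw [add_re]
    linarith
  have habs : |x.im| = |η| * ((q + w).re / ‖q + w‖ ^ 2) := by
    rw [him, abs_mul, abs_of_pos (div_pos hDr (by positivity))]
  have hw1 : 0 < 1 + w.re := by linarith
  have hlo : (1 - 8 * δ) * vh w ≤ (q + w).re / ‖q + w‖ ^ 2 := by
    have hsq : ‖q + w‖ ^ 2 ≤ ((1 + δ) * ‖1 + w‖) ^ 2 := pow_le_pow_left₀ hNp.le hN1 2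
    calc (1 - 8 * δ) * vh w = (1 - 8 * δ) * (1 + w.re) / ‖1 + w‖ ^ 2 := by
          rw [vh_eq]
          ring
      _ ≤ (1 - δ) * (1 + w.re) / ((1 + δ) * ‖1 + w‖) ^ 2 := by
          rw [div_le_div_iff₀ (by positivity) (by positivity)]
          have h7 : (1 - 8 * δ) * (1 + δ) ^ 2 ≤ 1 - δ := by nlinarith [pow_nonneg hδ0 3, sq_nonneg δ]
          have h8 : 0 ≤ (1 + w.re) * ‖1 + w‖ ^ 2 := by positivity
          nlinarith [mul_le_mul_of_nonneg_right h7 h8]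
      _ ≤ (q + w).re / ‖q + w‖ ^ 2 := by
          have h9 : 0 ≤ (1 - δ) * (1 + w.re) := mul_nonneg (by linarith) hw1.le
          exact div_le_div₀ hDr.le hDlo (by positivity) hsq
  have hhi : (q + w).re / ‖q + w‖ ^ 2 ≤ (1 + 8 * δ) * vh w := by
    have hδ1 : 0 < 1 - δ := by linarith
    have hsq : ((1 - δ) * ‖1 + w‖) ^ 2 ≤ ‖q + w‖ ^ 2 := pow_le_pow_left₀ (by positivity) hN2 2
    calc (q + w).re / ‖q + w‖ ^ 2 ≤ (1 + δ) * (1 + w.re) / ((1 - δ) * ‖1 + w‖) ^ 2 :=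
          div_le_div₀ (by positivity) hDhi (by positivity) hsq
      _ ≤ (1 + 8 * δ) * (1 + w.re) / ‖1 + w‖ ^ 2 := by
          rw [div_le_div_iff₀ (by positivity) (by positivity)]
          have h7 : 1 + δ ≤ (1 + 8 * δ) * (1 - δ) ^ 2 := by nlinarith [pow_nonneg hδ0 3, sq_nonneg δ]
          have h8 : 0 ≤ (1 + w.re) * ‖1 + w‖ ^ 2 := by positivity
          nlinarith [mul_le_mul_of_nonneg_right h7 h8]
      _ = (1 + 8 * δ) * vh w := by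
          rw [vh_eq]
          ring
  rw [habs]
  constructor
  · calc (1 - 8 * δ) * |η| * vh w = |η| * ((1 - 8 * δ) * vh w) := by ring
      _ ≤ _ := mul_le_mul_of_nonneg_left hlo (abs_nonneg _)
  · calc |η| * ((q + w).re / ‖q + w‖ ^ 2) ≤ |η| * ((1 + 8 * δ) * vh w) :=
          mul_le_mul_of_nonneg_left hhi (abs_nonneg _)
      _ = (1 + 8 * δ) * |η| * vh w := by ring

/-- The exponent at the saddle point. -/
private theorem one_sub_re_Sh {w : ℂ} {η : ℝ} {x : ℂ} (h : Sad w η x) :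
    1 - (Sh w x).re = η * x.im / 2 - ((x - 1) - log x - (x - 1) * log x / 2).re := by
  have h1 : Sh w x - 1 = ((x - 1) - log x - (x - 1) * log x / 2) + (η : ℂ) * I * (1 + x) / 2 := by
    unfold Sh
    rw [← h.2]
    ring
  have h2 : ((η : ℂ) * I * (1 + x) / 2).re = -(η * x.im / 2) := by
    have h3 : (η : ℂ) * I * (1 + x) / 2 = ((η / 2 : ℝ) : ℂ) * (I * (1 + x)) := by
      push_cast
      ring
    rw [h3, re_ofReal_mul, I_mul_re, add_im, one_im]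
    ring
  have h4 := congrArg re h1
  rw [add_re, h2, sub_re, one_re] at h4
  linarith

private theorem large_aux {ε : ℝ} (hε : 0 < ε) (hε1 : ε ≤ 1) : ∃ R : ℝ, 0 < R ∧
    ∀ (w : ℂ) (η : ℝ) (x : ℂ), w ∈ Qd → R ≤ ‖w‖ → Rg η → Sad w η x → ‖x - 1‖ ≤ ε ∧
    (1 - ε) * |η| * vh w ≤ |x.im| ∧ |x.im| ≤ (1 + ε) * |η| * vh w ∧
    |1 - (Sh w x).re - η ^ 2 * vh w / 2| ≤ ε * η ^ 2 * vh w := by
  obtain ⟨c, C, hc, hC, hd⟩ := Sad.dist
  refine ⟨16 * C / ε + 8 * C ^ 3 / ε, by positivity, fun w η x hw hR hη h => ?_⟩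
  have hR0 : Rg 0 := by constructor <;> norm_num
  have h1 := (hd w η 0 x 1 hw hη hR0 h Sad.one).2
  rw [sub_zero] at h1
  have hηa : |η| ≤ 2 := by
    rw [abs_le]
    constructor <;> [linarith [hη.1]; linarith [hη.2]]
  have hw1 : 0 < 1 + ‖w‖ := by positivity
  have hC3 : 0 < 8 * C ^ 3 / ε := by positivity
  have hC1 : 0 < 16 * C / ε := by positivity
  have h2 : ‖x - 1‖ ≤ ε / 8 := by
    have h3 : 16 * C / ε * ‖x - 1‖ ≤ (1 + ‖w‖) * ‖x - 1‖ :=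
      mul_le_mul_of_nonneg_right (by linarith) (norm_nonneg _)
    have h4 : 16 * C / ε * ‖x - 1‖ ≤ C * 2 :=
      h3.trans (h1.trans (mul_le_mul_of_nonneg_left hηa hC.le))
    rw [div_mul_eq_mul_div, div_le_iff₀ hε] at h4
    have h5 : C * ‖x - 1‖ ≤ C * (ε / 8) := by linarith
    exact le_of_mul_le_mul_left h5 hC
  obtain ⟨h3, h4⟩ := im_close (δ := ε / 8) (by positivity) (by linarith) hw h h2
  have h8 : 8 * (ε / 8) = ε := by ring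
  rw [h8] at h3 h4
  have hv := vh_pos hw.1
  refine ⟨by linarith, h3, h4, ?_⟩
  have h5 := Sad.mul_im_nonneg hw.1 h
  have h6 : η * x.im = |η| * |x.im| := by rw [← abs_mul, abs_of_nonneg h5]
  have h7 : ‖(x - 1) - log x - (x - 1) * log x / 2‖ ≤ 2 * ‖x - 1‖ ^ 3 := by
    have := cubic (y := x - 1) (by linarith)
    rwa [add_sub_cancel] at this
  have h9 : 2 * ‖x - 1‖ ^ 3 ≤ ε / 2 * η ^ 2 * vh w := by
    have ha : ‖x - 1‖ ≤ C * |η| / (1 + ‖w‖) := by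
      rw [le_div_iff₀ hw1]
      linarith
    have hb : ‖x - 1‖ ^ 3 ≤ (C * |η| / (1 + ‖w‖)) ^ 3 := pow_le_pow_left₀ (norm_nonneg _) ha 3
    have hc' : 1 / (1 + ‖w‖) ^ 2 ≤ vh w := by
      refine le_trans ?_ (vh_ge hw.1)
      gcongr
      linarith [hw.1]
    have hd' : C ^ 3 * |η| / (1 + ‖w‖) ≤ ε / 4 := by
      rw [div_le_iff₀ hw1]
      have he : 8 * C ^ 3 / ε ≤ 1 + ‖w‖ := by linarith
      rw [div_le_iff₀ hε] at he
      have hf : C ^ 3 * |η| ≤ C ^ 3 * 2 := mul_le_mul_of_nonneg_left hηa (by positivity)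
      linarith
    calc 2 * ‖x - 1‖ ^ 3 ≤ 2 * (C * |η| / (1 + ‖w‖)) ^ 3 := by linarith
      _ = 2 * (C ^ 3 * |η| / (1 + ‖w‖)) * (|η| ^ 2 * (1 / (1 + ‖w‖) ^ 2)) := by
          field_simp
      _ ≤ 2 * (ε / 4) * (|η| ^ 2 * vh w) := by gcongr
      _ = ε / 2 * η ^ 2 * vh w := by
          rw [sq_abs]
          ring
  have h10 : |η * x.im / 2 - η ^ 2 * vh w / 2| ≤ ε / 2 * η ^ 2 * vh w := by
    rw [h6]
    have hη2 : η ^ 2 = |η| * |η| := by rw [← sq, sq_abs]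
    rw [hη2, abs_le]
    have hn := abs_nonneg η
    constructor
    · nlinarith [mul_le_mul_of_nonneg_left h3 hn]
    · nlinarith [mul_le_mul_of_nonneg_left h4 hn]
  have h11 : |((x - 1) - log x - (x - 1) * log x / 2).re| ≤ ε / 2 * η ^ 2 * vh w :=
    (abs_re_le_norm _).trans (h7.trans h9)
  rw [one_sub_re_Sh h]
  have h12 : η * x.im / 2 - ((x - 1) - log x - (x - 1) * log x / 2).re - η ^ 2 * vh w / 2 =
      (η * x.im / 2 - η ^ 2 * vh w / 2) - ((x - 1) - log x - (x - 1) * log x / 2).re := by ring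
  rw [h12]
  refine (abs_sub _ _).trans ?_
  linarith

theorem Sad.large {ε : ℝ} (hε : 0 < ε) : ∃ R : ℝ, 0 < R ∧ ∀ (w : ℂ) (η : ℝ) (x : ℂ), w ∈ Qd →
    R ≤ ‖w‖ → Rg η → Sad w η x → ‖x - 1‖ ≤ ε ∧
    (1 - ε) * |η| * vh w ≤ |x.im| ∧ |x.im| ≤ (1 + ε) * |η| * vh w ∧
    |1 - (Sh w x).re - η ^ 2 * vh w / 2| ≤ ε * η ^ 2 * vh w := by
  obtain ⟨R, hR, h⟩ := large_aux (ε := min ε 1) (lt_min hε one_pos) (min_le_right _ _)
  refine ⟨R, hR, fun w η x hw hwR hη hS => ?_⟩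
  obtain ⟨h1, h2, h3, h4⟩ := h w η x hw hwR hη hS
  have hm : min ε 1 ≤ ε := min_le_left _ _
  have hv := (vh_pos hw.1).le
  have ha := abs_nonneg η
  refine ⟨h1.trans hm, le_trans ?_ h2, h3.trans ?_, h4.trans ?_⟩
  · gcongr
  · gcongr
  · gcongr

end SokalAS
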