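import Pool.Agent.Lib_MP_af4de1_as.Basic
import Pool.Agent.Lib_MP_af4de1_u.Sym

/-!
# Maximum principle in a quarter annulus, and `E t z` as a function of both variables [AS-12]

`maxp`: `Complex.norm_le_of_forall_mem_frontier_norm_le` with `U = {w | 0 < w.re ∧ w.im < 0 ∧ r1 < ‖w‖ ∧ ‖w‖ < r2}` (open, bounded; its
closure is contained in `{w ∈ Qd | r1 ≤ ‖w‖ ≤ r2}` and a frontier point is in the closure and not in `U`, so one of the four
equalities holds).  A point `w ∈ Qd`, `r1 ≤ ‖w‖ ≤ r2` is either in `U` or on one of the four pieces (where the hypothesis applies).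
`differentiableOn_E`: `E t z = ∑ exp(-t n(n-1)/2) zⁿ/n!` (see `Ef_hasSum`/`Ef_zero` in `Lib_MP_af4de1_u/Gauss.lean`), locally
`‖ζ w‖ ≤ R`, terms are bounded by `Rⁿ/n!`: `differentiableOn_tsum_of_summable_norm` on a small ball.
`continuousOn_E'`: `continuousOn_E` of `Sym.lean`.
-/

namespace SokalAS

open Complex SokalU

theorem maxp {r1 r2 : ℝ} (hr : 0 < r1) {g : ℂ → ℂ}
    (hd : ∀ w : ℂ, 0 < w.re → w.im < 0 → r1 < ‖w‖ → ‖w‖ < r2 → DifferentiableAt ℂ g w)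
    (hc : ContinuousOn g {w | w ∈ Qd ∧ r1 ≤ ‖w‖ ∧ ‖w‖ ≤ r2}) {M : ℝ}
    (h : ∀ w : ℂ, w ∈ Qd → r1 ≤ ‖w‖ → ‖w‖ ≤ r2 → (‖w‖ = r1 ∨ ‖w‖ = r2 ∨ w.re = 0 ∨ w.im = 0) →
      ‖g w‖ ≤ M) :
    ∀ w : ℂ, w ∈ Qd → r1 ≤ ‖w‖ → ‖w‖ ≤ r2 → ‖g w‖ ≤ M := by
  intro w hw h1 h2
  by_cases hb : ‖w‖ = r1 ∨ ‖w‖ = r2 ∨ w.re = 0 ∨ w.im = 0
  · exact h w hw h1 h2 hb
  push Not at hb
  obtain ⟨hb1, hb2, hb3, hb4⟩ := hb
  set U : Set ℂ := {w | 0 < w.re ∧ w.im < 0 ∧ r1 < ‖w‖ ∧ ‖w‖ < r2} with hU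
  have hopen : IsOpen U := by
    refine (isOpen_lt continuous_const Complex.continuous_re).inter
      ((isOpen_lt Complex.continuous_im continuous_const).inter
        ((isOpen_lt continuous_const continuous_norm).inter
          (isOpen_lt continuous_norm continuous_const)))
  have hcl : closure U ⊆ {w | w ∈ Qd ∧ r1 ≤ ‖w‖ ∧ ‖w‖ ≤ r2} := by
    refine closure_minimal ?_ ?_
    · rintro z ⟨hz1, hz2, hz3, hz4⟩
      exact ⟨⟨hz1.le, hz2.le⟩, hz3.le, hz4.le⟩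
    · exact ((isClosed_le continuous_const Complex.continuous_re).inter
        (isClosed_le Complex.continuous_im continuous_const)).inter
          ((isClosed_le continuous_const continuous_norm).inter
            (isClosed_le continuous_norm continuous_const))
  have hbdd : Bornology.IsBounded U := by
    refine (Metric.isBounded_closedBall (x := (0 : ℂ)) (r := r2)).subset ?_
    rintro z ⟨-, -, -, hz4⟩
    rw [mem_closedBall_zero_iff]
    exact hz4.le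
  have hdc : DiffContOnCl ℂ g U :=
    ⟨fun z hz => (hd z hz.1 hz.2.1 hz.2.2.1 hz.2.2.2).differentiableWithinAt, hc.mono hcl⟩
  have hwU : w ∈ U := ⟨lt_of_le_of_ne hw.1 (Ne.symm hb3), lt_of_le_of_ne hw.2 hb4,
    lt_of_le_of_ne h1 (Ne.symm hb1), lt_of_le_of_ne h2 hb2⟩
  refine Complex.norm_le_of_forall_mem_frontier_norm_le hbdd hdc ?_ (subset_closure hwU)
  intro z hz
  have hz1 : z ∈ closure U := hz.1
  have hz2 : z ∉ U := by
    have := hz.2
    rwa [hopen.interior_eq] at this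
  obtain ⟨hq, hq1, hq2⟩ := hcl hz1
  refine h z hq hq1 hq2 ?_
  by_contra hcon
  push Not at hcon
  obtain ⟨hc1, hc2, hc3, hc4⟩ := hcon
  exact hz2 ⟨lt_of_le_of_ne hq.1 (Ne.symm hc3), lt_of_le_of_ne hq.2 hc4,
    lt_of_le_of_ne hq1 (Ne.symm hc1), lt_of_le_of_ne hq2 hc2⟩

theorem differentiableOn_E {U : Set ℂ} (hU : IsOpen U) {τ ζ : ℂ → ℂ} (hτ : DifferentiableOn ℂ τ U)
    (hζ : DifferentiableOn ℂ ζ U) (hpos : ∀ w ∈ U, 0 < (τ w).re) :
    DifferentiableOn ℂ (fun w => E (τ w) (ζ w)) U := by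
  intro x hx
  set R : ℝ := ‖ζ x‖ + 1 with hR
  have hW : IsOpen (U ∩ ζ ⁻¹' Metric.ball (0 : ℂ) R) :=
    hζ.continuousOn.isOpen_inter_preimage hU Metric.isOpen_ball
  have hxW : x ∈ U ∩ ζ ⁻¹' Metric.ball (0 : ℂ) R := by
    refine ⟨hx, ?_⟩
    rw [Set.mem_preimage, mem_ball_zero_iff, hR]
    linarith
  have key : DifferentiableOn ℂ (fun w => ∑' k : ℕ, cexp (-(τ w)) ^ (k * (k - 1) / 2) * ζ w ^ k /
      (Nat.factorial k : ℂ)) (U ∩ ζ ⁻¹' Metric.ball (0 : ℂ) R) := by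
    refine differentiableOn_tsum_of_summable_norm (u := fun k : ℕ => R ^ k / (Nat.factorial k : ℝ))
      (Real.summable_pow_div_factorial R) ?_ hW ?_
    · intro k
      have h1 := hτ.mono (Set.inter_subset_left (t := ζ ⁻¹' Metric.ball (0 : ℂ) R))
      have h2 := hζ.mono (Set.inter_subset_left (t := ζ ⁻¹' Metric.ball (0 : ℂ) R))
      exact ((h1.neg.cexp.pow _).mul (h2.pow _)).div_const _
    · rintro k w ⟨hw1, hw2⟩
      rw [Set.mem_preimage, mem_ball_zero_iff] at hw2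
      refine (SokalF.norm_term_le (norm_exp_neg_le (hpos w hw1).le) (ζ w) k).trans ?_
      have := hw2.le
      gcongr
  exact (key.differentiableAt (hW.mem_nhds hxW)).differentiableWithinAt

theorem continuousOn_E' {U : Set ℂ} {τ ζ : ℂ → ℂ} (hτ : ContinuousOn τ U)
    (hζ : ContinuousOn ζ U) (hpos : ∀ w ∈ U, 0 ≤ (τ w).re) :
    ContinuousOn (fun w => E (τ w) (ζ w)) U := by
  have h1 : ContinuousOn (fun w : ℂ => ((τ w, ζ w) : ℂ × ℂ)) U := hτ.prodMk hζ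
  have h2 : Set.MapsTo (fun w : ℂ => ((τ w, ζ w) : ℂ × ℂ)) U {p : ℂ × ℂ | 0 ≤ p.1.re} :=
    fun w hw => hpos w hw
  have h3 := ContinuousOn.comp (t := {p : ℂ × ℂ | 0 ≤ p.1.re}) continuousOn_E h1 h2
  exact h3

end SokalAS
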