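import Pool.Agent.Lib_MP_af4de1_as.SadX

/-!
# The saddle point as a function of `w` [AS-06]

`continuousOn_X`: `Sad.lip` with `η = η'` gives `‖X w η - X w' η‖ ≤ C ‖w - w'‖` on `Qd`.
`differentiableAt_X`: if `η = 0` then `X w 0 = 1` near `w`.  Otherwise `x0 = X w0 η ≠ 1` (`log 1 = 0 ≠ iη`), the function
`ω x = (iη - log x)/(x - 1)` satisfies `ω (X w η) = w` for `w ∈ Qd`, and `ω' (x0) = -(1/x0 + w0)/(x0 - 1) ≠ 0`; use
`HasDerivAt.of_local_left_inverse` with `g = X · η` (continuous at `w0`, which is interior to `Qd`).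
-/

namespace SokalAS

open Complex

theorem continuousOn_X {η : ℝ} (hη : Rg η) : ContinuousOn (fun w : ℂ => X w η) Qd := by
  obtain ⟨C, hC, hlip⟩ := Sad.lip
  rw [Metric.continuousOn_iff]
  intro b hb ε hε
  refine ⟨ε / C, div_pos hε hC, fun a ha hab => ?_⟩
  have h1 := hlip a b η η (X a η) (X b η) ha hb hη hη (X_spec ha hη) (X_spec hb hη)
  rw [sub_self, abs_zero, zero_add] at h1
  rw [dist_eq_norm] at hab ⊢
  calc ‖X a η - X b η‖ ≤ C * ‖a - b‖ := h1
    _ < C * (ε / C) := mul_lt_mul_of_pos_left hab hC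
    _ = ε := by field_simp

private theorem eventually_mem_Qd {w : ℂ} (hw : 0 < w.re) (hw' : w.im < 0) :
    ∀ᶠ y in nhds w, y ∈ Qd := by
  have h1 : ∀ᶠ y : ℂ in nhds w, 0 < y.re :=
    (isOpen_lt continuous_const Complex.continuous_re).eventually_mem hw
  have h2 : ∀ᶠ y : ℂ in nhds w, y.im < 0 :=
    (isOpen_lt Complex.continuous_im continuous_const).eventually_mem hw'
  filter_upwards [h1, h2] with y hy1 hy2
  exact ⟨hy1.le, hy2.le⟩

theorem differentiableAt_X {η : ℝ} (hη : Rg η) {w : ℂ} (hw : 0 < w.re) (hw' : w.im < 0) :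
    DifferentiableAt ℂ (fun w : ℂ => X w η) w := by
  have hev := eventually_mem_Qd hw hw'
  have hwQ : w ∈ Qd := hev.self_of_nhds
  by_cases h0 : η = 0
  · subst h0
    have hc : (fun w : ℂ => X w 0) =ᶠ[nhds w] fun _ => (1 : ℂ) := by
      filter_upwards [hev] with y hy
      exact X_zero hy
    exact (hc.differentiableAt_iff).2 (differentiableAt_const _)
  · have hne : ∀ y ∈ Qd, X y η - 1 ≠ 0 := by
      intro y hy h
      have hs := X_spec hy hη
      have h1 : X y η = 1 := sub_eq_zero.1 h
      have h2 := hs.2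
      rw [h1] at h2
      simp only [Complex.log_one, sub_self, mul_zero, add_zero] at h2
      rcases mul_eq_zero.1 h2.symm with h3 | h3
      · exact h0 (by exact_mod_cast h3)
      · exact Complex.I_ne_zero h3
    have hs := X_spec hwQ hη
    have hx0 : X w η ≠ 0 := by
      intro h
      have := hs.1
      rw [h] at this
      simp at this
    have hsl : X w η ∈ Complex.slitPlane := Or.inl hs.1
    have hd1 : HasDerivAt (fun x : ℂ => (η : ℂ) * I - Complex.log x) (-(X w η)⁻¹) (X w η) := by
      simpa using (Complex.hasDerivAt_log hsl).const_sub ((η : ℂ) * I)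
    have hd2 : HasDerivAt (fun x : ℂ => x - 1) 1 (X w η) := by
      simpa using (hasDerivAt_id (X w η)).sub_const 1
    have hd := hd1.div hd2 (hne w hwQ)
    have hf' : (-(X w η)⁻¹ * (X w η - 1) - ((η : ℂ) * I - Complex.log (X w η)) * 1) /
        (X w η - 1) ^ 2 ≠ 0 := by
      refine div_ne_zero ?_ (pow_ne_zero 2 (hne w hwQ))
      have h2 := hs.2
      have h3 : (η : ℂ) * I - Complex.log (X w η) = w * (X w η - 1) := by
        rw [← h2]; ring
      rw [h3, show -(X w η)⁻¹ * (X w η - 1) - w * (X w η - 1) * 1 =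
        -(((X w η)⁻¹ + w) * (X w η - 1)) by ring]
      refine neg_ne_zero.2 (mul_ne_zero ?_ (hne w hwQ))
      intro h
      have h4 : ((X w η)⁻¹ + w).re = 0 := by rw [h]; simp
      rw [Complex.add_re, Complex.inv_re] at h4
      have h5 : 0 < (X w η).re / Complex.normSq (X w η) :=
        div_pos hs.1 (Complex.normSq_pos.2 hx0)
      linarith
    have hcont : ContinuousAt (fun w : ℂ => X w η) w :=
      (continuousOn_X hη).continuousAt hev
    have hleft : ∀ᶠ y in nhds w,
        ((fun x : ℂ => (η : ℂ) * I - Complex.log x) / fun x : ℂ => x - 1) (X y η) = y := by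
      filter_upwards [hev] with y hy
      have h2 := (X_spec hy hη).2
      have h3 : (η : ℂ) * I - Complex.log (X y η) = y * (X y η - 1) := by
        rw [← h2]; ring
      simp only [Pi.div_apply]
      rw [h3]
      exact mul_div_cancel_right₀ y (hne y hy)
    exact (HasDerivAt.of_local_left_inverse hcont hd hf' hleft).differentiableAt

end SokalAS
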