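import Pool.Agent.Lib_MP_af4de1_as.SadLip

/-!
# Saddle points for small `w` [AS-07]

`x = exp(log x) = e^{iη} e^{-w (x-1)}`, `‖w (x-1)‖ ≤ ‖w‖ (C+1)` (`Sad.bounds`), so `‖x - e^{iη}‖ ≤ ‖e^{-w(x-1)} - 1‖ ≤ C' ‖w‖`
for `‖w‖ ≤ 1`; `Sh w x = x + w (x² - 1)/2`.
-/

namespace SokalAS

open Complex

theorem Sad.small : ∃ C : ℝ, 0 < C ∧ ∀ (w : ℂ) (η : ℝ) (x : ℂ), w ∈ Qd → ‖w‖ ≤ 1 → Rg η →
    Sad w η x → ‖x - cexp (η * I)‖ ≤ C * ‖w‖ ∧ |(Sh w x).re - Real.cos η| ≤ C * ‖w‖ := by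
  obtain ⟨c, C, hc, -, hC, hb⟩ := Sad.bounds
  have hE : 0 < Real.exp (C + 1) := Real.exp_pos _
  refine ⟨(C + 1) * Real.exp (C + 1) + (C ^ 2 + 1), by positivity, ?_⟩
  intro w η x hw hw1 hη hx
  obtain ⟨-, hxC⟩ := hb w η x hw hη hx
  have hw0 : 0 ≤ ‖w‖ := norm_nonneg w
  have hx0 : x ≠ 0 := by
    rintro rfl
    simpa using hx.1
  -- the increment
  have hy : ‖w * (x - 1)‖ ≤ ‖w‖ * (C + 1) := by
    rw [norm_mul]
    refine mul_le_mul_of_nonneg_left ?_ hw0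
    calc ‖x - 1‖ ≤ ‖x‖ + ‖(1 : ℂ)‖ := norm_sub_le _ _
      _ ≤ C + 1 := by rw [norm_one]; linarith
  have hy1 : ‖w * (x - 1)‖ ≤ C + 1 := by
    refine hy.trans ?_
    nlinarith
  have hxe : x = cexp (η * I) * cexp (-(w * (x - 1))) := by
    rw [← exp_add]
    have h1 : (η : ℂ) * I + -(w * (x - 1)) = log x := by
      rw [← hx.2]
      ring
    rw [h1, exp_log hx0]
  have hn : ‖cexp (η * I)‖ = 1 := norm_exp_ofReal_mul_I η
  have h1 : ‖x - cexp (η * I)‖ ≤ (C + 1) * Real.exp (C + 1) * ‖w‖ := by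
    have h2 : x - cexp (η * I) = cexp (η * I) * (cexp (-(w * (x - 1))) - 1) := by
      rw [mul_sub, ← hxe, mul_one]
    have h3 : ‖cexp (-(w * (x - 1))) - 1‖ ≤ ‖-(w * (x - 1))‖ * Real.exp ‖-(w * (x - 1))‖ := by
      have h4 := norm_exp_sub_sum_le_norm_mul_exp (-(w * (x - 1))) 1
      simpa using h4
    rw [h2, norm_mul, hn, one_mul]
    refine h3.trans ?_
    rw [norm_neg]
    calc ‖w * (x - 1)‖ * Real.exp ‖w * (x - 1)‖
        ≤ (‖w‖ * (C + 1)) * Real.exp (C + 1) :=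
          mul_le_mul hy (Real.exp_le_exp.mpr hy1) (Real.exp_pos _).le (by positivity)
      _ = (C + 1) * Real.exp (C + 1) * ‖w‖ := by ring
  have hC2 : 0 ≤ (C ^ 2 + 1) * ‖w‖ := by positivity
  have hE2 : 0 ≤ (C + 1) * Real.exp (C + 1) * ‖w‖ := by positivity
  refine ⟨by nlinarith, ?_⟩
  have h5 : (Sh w x).re - Real.cos η = ((x - cexp (η * I)) + w * (x ^ 2 - 1) / 2).re := by
    have h6 : (cexp (η * I)).re = Real.cos η := by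
      rw [exp_ofReal_mul_I_re]
    unfold Sh
    simp only [add_re, sub_re, h6]
    ring
  rw [h5]
  refine (abs_re_le_norm _).trans ((norm_add_le _ _).trans ?_)
  have h7 : ‖w * (x ^ 2 - 1) / 2‖ ≤ (C ^ 2 + 1) * ‖w‖ := by
    rw [norm_div, norm_mul]
    have h8 : ‖x ^ 2 - 1‖ ≤ C ^ 2 + 1 := by
      calc ‖x ^ 2 - 1‖ ≤ ‖x ^ 2‖ + ‖(1 : ℂ)‖ := norm_sub_le _ _
        _ ≤ C ^ 2 + 1 := by
          rw [norm_one, norm_pow]
          have := pow_le_pow_left₀ (norm_nonneg x) hxC 2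
          linarith
    have h9 : ‖(2 : ℂ)‖ = 2 := by norm_num
    rw [h9]
    have h10 : ‖w‖ * ‖x ^ 2 - 1‖ ≤ ‖w‖ * (C ^ 2 + 1) := mul_le_mul_of_nonneg_left h8 hw0
    have h11 : 0 ≤ ‖w‖ * ‖x ^ 2 - 1‖ := by positivity
    linarith
  nlinarith

end SokalAS
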