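import Pool.Agent.Lib_MP_af4de1_as.GeoIm
import Pool.Agent.Lib_MP_af4de1_as.SadW
import Pool.Agent.Lib_MP_af4de1_as.Small
import Pool.Agent.Lib_MP_af4de1_as.Large
import Pool.Agent.Lib_MP_af4de1_as.MaxP

/-!
# Comparison of two angles [AS-13]

Let `(η0, η1)` be `(.97, -1.13)` or `(-.61, 1.49)`, `|η0| < |η1|`.
Large `w` (`‖w‖ ≥ R`): `Sad.large` with small `ε`: `ρ(η0) - ρ(η1) ≥ vh w ((1-2ε) η1²/2 - (1+2ε) η0²/2) ≥ c vh w`.
Small `w` (`‖w‖ ≤ r`): `Sad.small`: `ρ(η0) - ρ(η1) ≥ cos η0 - cos η1 - 2C r ≥ c ≥ c vh w` (`vh_le_one`).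
`r ≤ ‖w‖ ≤ R`: `g w = exp(Sh w (X w η1) - Sh w (X w η0))` is differentiable inside and continuous (`SadW`).  On the part of the
boundary (`‖w‖ = r`, `‖w‖ = R`, `Re w = 0`, `Im w = 0`; compact, `g` continuous) `‖g‖ < 1` pointwise: the arcs by the two previous
cases, `Re w = 0` by `geo3_im`, `geo4_im` (`w = -(1/B) I`, `B = 1/‖w‖`), `Im w = 0`: there `X w (-η) = conj (X w η)`
(`Sad w (-η) (conj x)` for real `w`, `Sad.unique`), so `ρ(η1) = ρ(|η1|) < ρ(|η0|) = ρ(η0)` by `rho_mono_pos`.  So `‖g‖ ≤ M < 1` on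
the boundary (maximum on a compact set) and `maxp` gives `ρ(η1) - ρ(η0) ≤ log M < 0` on the quarter annulus.
-/

namespace SokalAS

open Complex

private theorem norm_g {w x1 x2 : ℂ} :
    ‖cexp (Sh w x2 - Sh w x1)‖ = Real.exp ((Sh w x2).re - (Sh w x1).re) := by
  rw [norm_exp, sub_re]

private theorem sad_conj {w : ℂ} {η : ℝ} {x : ℂ} (hw : w.im = 0) (h : Sad w η x) :
    Sad w (-η) (starRingEnd ℂ x) := by
  obtain ⟨h1, h2⟩ := h
  refine ⟨by simpa using h1, ?_⟩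
  have hw' : starRingEnd ℂ w = w := conj_eq_iff_im.2 hw
  have harg : arg x ≠ Real.pi := by
    intro h
    have h3 := arg_eq_pi_iff.1 h
    linarith [h3.1]
  have h3 := congrArg (starRingEnd ℂ) h2
  rw [map_add, map_mul, map_mul, map_sub, map_one, hw', conj_ofReal, conj_I,
    ← log_conj x harg] at h3
  rw [h3]
  push_cast
  ring

private theorem Sh_conj {w : ℂ} {x : ℂ} (hw : w.im = 0) :
    (Sh w (starRingEnd ℂ x)).re = (Sh w x).re := by
  have hw' : starRingEnd ℂ w = w := conj_eq_iff_im.2 hw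
  have h : Sh w (starRingEnd ℂ x) = starRingEnd ℂ (Sh w x) := by
    unfold Sh
    have h2 : starRingEnd ℂ (2 : ℂ) = 2 := map_ofNat _ 2
    rw [map_add, map_div₀, map_mul, map_sub, map_one, map_pow, hw', h2]
  rw [h, conj_re]

/-- On the real axis the two angles `η` and `-η` have the same height. -/
private theorem rho_real : ∀ (w : ℂ) (η0 η1 : ℝ) (x1 x2 : ℂ), w ∈ Qd → w.im = 0 → 0 ≤ η0 →
    η0 < η1 → η1 ≤ 77 / 50 → (Sad w η0 x1 ∨ Sad w (-η0) x1) → (Sad w η1 x2 ∨ Sad w (-η1) x2) →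
    (Sh w x2).re < (Sh w x1).re := by
  obtain ⟨c, hc, hm⟩ := rho_mono_pos
  intro w η0 η1 x1 x2 hw him h0 h01 h1 hx1 hx2
  have key : ∀ y1 y2 : ℂ, Sad w η0 y1 → Sad w η1 y2 → (Sh w y2).re < (Sh w y1).re := by
    intro y1 y2 hy1 hy2
    have h2 := hm w η0 η1 y1 y2 hw h0 h01.le h1 hy1 hy2
    have h3 : 0 < c * vh w * (η1 ^ 2 - η0 ^ 2) := by
      have h4 := vh_pos hw.1
      have h5 : 0 < η1 ^ 2 - η0 ^ 2 := by nlinarith
      positivity
    linarith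
  have e1 : ∃ y1, Sad w η0 y1 ∧ (Sh w y1).re = (Sh w x1).re := by
    rcases hx1 with h | h
    · exact ⟨x1, h, rfl⟩
    · refine ⟨starRingEnd ℂ x1, ?_, Sh_conj him⟩
      have := sad_conj him h
      rwa [neg_neg] at this
  have e2 : ∃ y2, Sad w η1 y2 ∧ (Sh w y2).re = (Sh w x2).re := by
    rcases hx2 with h | h
    · exact ⟨x2, h, rfl⟩
    · refine ⟨starRingEnd ℂ x2, ?_, Sh_conj him⟩
      have := sad_conj him h
      rwa [neg_neg] at this
  obtain ⟨y1, hy1, e1⟩ := e1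
  obtain ⟨y2, hy2, e2⟩ := e2
  rw [← e1, ← e2]
  exact key y1 y2 hy1 hy2

private theorem im_axis {w : ℂ} (hw : w ∈ Qd) (hre : w.re = 0) (hpos : 0 < ‖w‖) :
    0 < 1 / ‖w‖ ∧ w = -(1 / (1 / ‖w‖) : ℝ) * I := by
  refine ⟨by positivity, ?_⟩
  have h1 : ‖w‖ = -w.im := by
    have h2 : ‖w‖ ^ 2 = (-w.im) ^ 2 := by
      rw [← normSq_eq_norm_sq, normSq_apply, hre]
      ring
    have h3 : 0 ≤ -w.im := by linarith [hw.2]
    exact (pow_left_inj₀ (norm_nonneg w) h3 two_ne_zero).1 h2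
  rw [one_div_one_div, h1]
  apply Complex.ext
  · simp [hre]
  · simp

private theorem geo_gen {η0 η1 : ℝ} (hR0 : Rg η0) (hR1 : Rg η1) (hsq : η0 ^ 2 < η1 ^ 2)
    (hcos : Real.cos η1 < Real.cos η0)
    (him : ∀ (B : ℝ) (x1 x2 : ℂ), 0 < B → Sad (-(1 / B : ℝ) * I) η0 x1 →
      Sad (-(1 / B : ℝ) * I) η1 x2 →
      (Sh (-(1 / B : ℝ) * I) x2).re < (Sh (-(1 / B : ℝ) * I) x1).re)
    (hreal : ∀ (w x1 x2 : ℂ), w ∈ Qd → w.im = 0 → Sad w η0 x1 → Sad w η1 x2 →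
      (Sh w x2).re < (Sh w x1).re) :
    ∃ c : ℝ, 0 < c ∧ ∀ (w : ℂ) (x1 x2 : ℂ), w ∈ Qd → Sad w η0 x1 →
    Sad w η1 x2 → (Sh w x2).re + c * vh w ≤ (Sh w x1).re := by
  -- large
  have hs1 : 0 < η1 ^ 2 + η0 ^ 2 := by nlinarith [sq_nonneg η0]
  have hε : 0 < (η1 ^ 2 - η0 ^ 2) / (4 * (η1 ^ 2 + η0 ^ 2)) := by
    apply div_pos <;> linarith
  obtain ⟨R, hR, hlarge⟩ := Sad.large hε
  have hL : ∀ (w : ℂ) (x1 x2 : ℂ), w ∈ Qd → R ≤ ‖w‖ → Sad w η0 x1 → Sad w η1 x2 →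
      (Sh w x2).re + (η1 ^ 2 - η0 ^ 2) / 4 * vh w ≤ (Sh w x1).re := by
    intro w x1 x2 hw hRw h1 h2
    obtain ⟨-, -, -, e1⟩ := hlarge w η0 x1 hw hRw hR0 h1
    obtain ⟨-, -, -, e2⟩ := hlarge w η1 x2 hw hRw hR1 h2
    have e1 := (abs_le.1 e1).2
    have e2 := (abs_le.1 e2).1
    have hid : (η1 ^ 2 - η0 ^ 2) / (4 * (η1 ^ 2 + η0 ^ 2)) * η0 ^ 2 * vh w +
        (η1 ^ 2 - η0 ^ 2) / (4 * (η1 ^ 2 + η0 ^ 2)) * η1 ^ 2 * vh w =
        (η1 ^ 2 - η0 ^ 2) / 4 * vh w := by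
      field_simp
      ring
    linarith
  -- small
  obtain ⟨C, hC, hsmall⟩ := Sad.small
  obtain ⟨r, hrdef⟩ : ∃ r, r = min 1 ((Real.cos η0 - Real.cos η1) / (4 * C)) := ⟨_, rfl⟩
  have hr : 0 < r := by
    rw [hrdef]
    refine lt_min one_pos (div_pos (by linarith) (by positivity))
  have hr1 : r ≤ 1 := by rw [hrdef]; exact min_le_left _ _
  have hr2 : C * r ≤ (Real.cos η0 - Real.cos η1) / 4 := by
    have h1 : r ≤ (Real.cos η0 - Real.cos η1) / (4 * C) := by rw [hrdef]; exact min_le_right _ _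
    rw [le_div_iff₀ (by positivity)] at h1
    linarith
  have hS : ∀ (w : ℂ) (x1 x2 : ℂ), w ∈ Qd → ‖w‖ ≤ r → Sad w η0 x1 → Sad w η1 x2 →
      (Sh w x2).re + (Real.cos η0 - Real.cos η1) / 2 * vh w ≤ (Sh w x1).re := by
    intro w x1 x2 hw hrw h1 h2
    obtain ⟨-, e1⟩ := hsmall w η0 x1 hw (hrw.trans hr1) hR0 h1
    obtain ⟨-, e2⟩ := hsmall w η1 x2 hw (hrw.trans hr1) hR1 h2
    have e1 := (abs_le.1 e1).1
    have e2 := (abs_le.1 e2).2
    have h3 : C * ‖w‖ ≤ C * r := mul_le_mul_of_nonneg_left hrw hC.le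
    have h4 : (Real.cos η0 - Real.cos η1) / 2 * vh w ≤ (Real.cos η0 - Real.cos η1) / 2 * 1 :=
      mul_le_mul_of_nonneg_left (vh_le_one hw.1) (by linarith)
    linarith
  -- middle
  obtain ⟨R2, hR2⟩ : ∃ R2, R2 = max R r := ⟨_, rfl⟩
  have hR2R : R ≤ R2 := by rw [hR2]; exact le_max_left _ _
  have hR2r : r ≤ R2 := by rw [hR2]; exact le_max_right _ _
  obtain ⟨g, hg⟩ : ∃ g : ℂ → ℂ, g = fun w => cexp (Sh w (X w η1) - Sh w (X w η0)) := ⟨_, rfl⟩
  have hgn : ∀ w, ‖g w‖ = Real.exp ((Sh w (X w η1)).re - (Sh w (X w η0)).re) := by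
    intro w
    rw [hg]
    exact norm_g
  have hcSh : ∀ η : ℝ, Rg η → ContinuousOn (fun w : ℂ => Sh w (X w η)) Qd := by
    intro η hη
    have h1 := continuousOn_X hη
    unfold Sh
    exact h1.add ((continuousOn_id.mul ((h1.pow 2).sub continuousOn_const)).div_const 2)
  have hcg : ContinuousOn g Qd := by
    rw [hg]
    exact ((hcSh η1 hR1).sub (hcSh η0 hR0)).cexp
  have hdg : ∀ w : ℂ, 0 < w.re → w.im < 0 → DifferentiableAt ℂ g w := by
    intro w h1 h2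
    have hd : ∀ η : ℝ, Rg η → DifferentiableAt ℂ (fun w : ℂ => Sh w (X w η)) w := by
      intro η hη
      have h3 := differentiableAt_X hη h1 h2
      unfold Sh
      exact h3.add ((differentiableAt_id.mul ((h3.pow 2).sub (differentiableAt_const _))).div_const 2)
    rw [hg]
    exact ((hd η1 hR1).sub (hd η0 hR0)).cexp
  -- the boundary
  obtain ⟨K, hK⟩ : ∃ K : Set ℂ, K = {w | w ∈ Qd ∧ r ≤ ‖w‖ ∧ ‖w‖ ≤ R2 ∧
    (‖w‖ = r ∨ ‖w‖ = R2 ∨ w.re = 0 ∨ w.im = 0)} := ⟨_, rfl⟩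
  have hQc : IsClosed Qd :=
    (isClosed_le continuous_const continuous_re).inter (isClosed_le continuous_im continuous_const)
  have hKc : IsCompact K := by
    have h1 : IsClosed K := by
      rw [hK]
      refine hQc.inter ((isClosed_le continuous_const continuous_norm).inter
        ((isClosed_le continuous_norm continuous_const).inter ?_))
      exact (isClosed_eq continuous_norm continuous_const).union
        ((isClosed_eq continuous_norm continuous_const).union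
          ((isClosed_eq continuous_re continuous_const).union
            (isClosed_eq continuous_im continuous_const)))
    refine (isCompact_closedBall (0 : ℂ) R2).of_isClosed_subset h1 ?_
    intro w hw
    rw [hK] at hw
    rw [mem_closedBall_zero_iff]
    exact hw.2.2.1
  have hKne : K.Nonempty := by
    refine ⟨(r : ℂ), ?_⟩
    rw [hK]
    have h1 : ‖(r : ℂ)‖ = r := by rw [norm_real, Real.norm_of_nonneg hr.le]
    refine ⟨⟨by simpa using hr.le, by simp⟩, by rw [h1], by rw [h1]; exact hR2r, Or.inl h1⟩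
  have hKQ : K ⊆ Qd := by
    intro w hw
    rw [hK] at hw
    exact hw.1
  obtain ⟨w0, hw0, hmax⟩ := hKc.exists_isMaxOn hKne (hcg.mono hKQ).norm
  have hlt : ∀ w ∈ K, ‖g w‖ < 1 := by
    intro w hw
    rw [hK] at hw
    obtain ⟨hwQ, hw1, hw2, hw3⟩ := hw
    have hv := vh_pos hwQ.1
    have s0 := X_spec hwQ hR0
    have s1 := X_spec hwQ hR1
    have hgoal : (Sh w (X w η1)).re < (Sh w (X w η0)).re := by
      rcases hw3 with h | h | h | h
      · have h5 := hS w _ _ hwQ h.le s0 s1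
        have h6 : 0 < (Real.cos η0 - Real.cos η1) / 2 * vh w :=
          mul_pos (by linarith) hv
        linarith
      · have h5 := hL w _ _ hwQ (by rw [h]; exact hR2R) s0 s1
        have h6 : 0 < (η1 ^ 2 - η0 ^ 2) / 4 * vh w := mul_pos (by linarith) hv
        linarith
      · obtain ⟨hB, hwB⟩ := im_axis hwQ h (hr.trans_le hw1)
        generalize X w η0 = y0 at s0 ⊢
        generalize X w η1 = y1 at s1 ⊢
        generalize 1 / ‖w‖ = B at hB hwB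
        subst hwB
        exact him B y0 y1 hB s0 s1
      · exact hreal w _ _ hwQ h s0 s1
    rw [hgn]
    have h7 : (Sh w (X w η1)).re - (Sh w (X w η0)).re < 0 := by linarith
    calc Real.exp ((Sh w (X w η1)).re - (Sh w (X w η0)).re) < Real.exp 0 := Real.exp_lt_exp.2 h7
      _ = 1 := Real.exp_zero
  obtain ⟨M, hM⟩ : ∃ M, M = ‖g w0‖ := ⟨_, rfl⟩
  have hM1 : M < 1 := by rw [hM]; exact hlt w0 hw0
  have hM0 : 0 < M := by rw [hM, hgn]; exact Real.exp_pos _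
  have hmid : ∀ w : ℂ, w ∈ Qd → r ≤ ‖w‖ → ‖w‖ ≤ R2 → ‖g w‖ ≤ M := by
    refine maxp hr (fun w h1 h2 _ _ => hdg w h1 h2) (hcg.mono fun w hw => hw.1) ?_
    intro w hw h1 h2 h3
    have h4 : w ∈ K := by
      rw [hK]
      exact ⟨hw, h1, h2, h3⟩
    rw [hM]
    exact hmax h4
  have hMid : ∀ (w : ℂ) (x1 x2 : ℂ), w ∈ Qd → r ≤ ‖w‖ → ‖w‖ ≤ R2 → Sad w η0 x1 → Sad w η1 x2 →
      (Sh w x2).re + (-Real.log M) * vh w ≤ (Sh w x1).re := by
    intro w x1 x2 hw h1 h2 hx1 hx2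
    have h3 := hmid w hw h1 h2
    rw [hgn, ← hx1.unique hw.1 (X_spec hw hR0), ← hx2.unique hw.1 (X_spec hw hR1)] at h3
    have h4 : (Sh w x2).re - (Sh w x1).re ≤ Real.log M := (Real.le_log_iff_exp_le hM0).2 h3
    have h5 : -Real.log M * vh w ≤ -Real.log M * 1 := by
      refine mul_le_mul_of_nonneg_left (vh_le_one hw.1) ?_
      have := Real.log_neg hM0 hM1
      linarith
    linarith
  have hlM : 0 < -Real.log M := by
    have := Real.log_neg hM0 hM1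
    linarith
  refine ⟨min ((η1 ^ 2 - η0 ^ 2) / 4) (min ((Real.cos η0 - Real.cos η1) / 2) (-Real.log M)),
    lt_min (by linarith) (lt_min (by linarith) hlM), ?_⟩
  intro w x1 x2 hw h1 h2
  have hv := (vh_pos hw.1).le
  have m1 : min ((η1 ^ 2 - η0 ^ 2) / 4) (min ((Real.cos η0 - Real.cos η1) / 2) (-Real.log M)) *
      vh w ≤ (η1 ^ 2 - η0 ^ 2) / 4 * vh w := mul_le_mul_of_nonneg_right (min_le_left _ _) hv
  have m2 : min ((η1 ^ 2 - η0 ^ 2) / 4) (min ((Real.cos η0 - Real.cos η1) / 2) (-Real.log M)) *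
      vh w ≤ (Real.cos η0 - Real.cos η1) / 2 * vh w :=
    mul_le_mul_of_nonneg_right ((min_le_right _ _).trans (min_le_left _ _)) hv
  have m3 : min ((η1 ^ 2 - η0 ^ 2) / 4) (min ((Real.cos η0 - Real.cos η1) / 2) (-Real.log M)) *
      vh w ≤ -Real.log M * vh w :=
    mul_le_mul_of_nonneg_right ((min_le_right _ _).trans (min_le_right _ _)) hv
  rcases le_total ‖w‖ r with h3 | h3
  · linarith [hS w x1 x2 hw h3 h1 h2]
  · rcases le_total ‖w‖ R2 with h4 | h4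
    · linarith [hMid w x1 x2 hw h3 h4 h1 h2]
    · linarith [hL w x1 x2 hw (hR2R.trans h4) h1 h2]

theorem geo3 : ∃ c : ℝ, 0 < c ∧ ∀ (w : ℂ) (x1 x2 : ℂ), w ∈ Qd → Sad w (97 / 100) x1 →
    Sad w (-(113 / 100)) x2 → (Sh w x2).re + c * vh w ≤ (Sh w x1).re := by
  refine geo_gen (η0 := 97 / 100) (η1 := -(113 / 100)) ⟨by norm_num, by norm_num⟩
    ⟨by norm_num, by norm_num⟩ (by norm_num) ?_ (fun B x1 x2 hB h1 h2 => geo3_im hB h1 h2) ?_
  · rw [Real.cos_neg]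
    exact Real.cos_lt_cos_of_nonneg_of_le_pi (by norm_num) (by linarith [Real.pi_gt_three])
      (by norm_num)
  · intro w x1 x2 hw him h1 h2
    exact rho_real w (97 / 100) (113 / 100) x1 x2 hw him (by norm_num) (by norm_num) (by norm_num)
      (Or.inl h1) (Or.inr h2)

theorem geo4 : ∃ c : ℝ, 0 < c ∧ ∀ (w : ℂ) (x1 x2 : ℂ), w ∈ Qd → Sad w (-(61 / 100)) x1 →
    Sad w (149 / 100) x2 → (Sh w x2).re + c * vh w ≤ (Sh w x1).re := by
  refine geo_gen (η0 := -(61 / 100)) (η1 := 149 / 100) ⟨by norm_num, by norm_num⟩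
    ⟨by norm_num, by norm_num⟩ (by norm_num) ?_ (fun B x1 x2 hB h1 h2 => geo4_im hB h1 h2) ?_
  · rw [Real.cos_neg]
    exact Real.cos_lt_cos_of_nonneg_of_le_pi (by norm_num) (by linarith [Real.pi_gt_three])
      (by norm_num)
  · intro w x1 x2 hw him h1 h2
    exact rho_real w (61 / 100) (149 / 100) x1 x2 hw him (by norm_num) (by norm_num) (by norm_num)
      (Or.inr h1) (Or.inl h2)

end SokalAS
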