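import Pool.Agent.Lib_MP_af4de1_as.SadBounds

/-!
# Existence of the saddle point [AS-04]

Fix `w ∈ Qd`.  Case `0 ≤ η ≤ 77/50`: `s = {η ∈ [0, 77/50] | ∃ x, Sad w η x}` contains `0` (`Sad.one`), is closed (a sequence
`η_n → η`, `x_n` in the compact set `{c ≤ Re, ‖·‖ ≤ C}` by `Sad.bounds`; a limit point `x` has `Re x ≥ c > 0` and satisfies
the equation since `log` is continuous there), and for `η0 ∈ s ∩ [0, 77/50)` with saddle `x0` the function
`f x = log x + w (x - 1)` has the strict derivative `1/x0 + w ≠ 0` (`Re > 0`), so `f '' {0 < Re} ∈ 𝓝 (iη0)`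
(`HasStrictDerivAt.map_nhds_eq`) and all `η` near `η0` are in `s`.  Use `IsClosed.Icc_subset_of_forall_mem_nhdsWithin`.
Case `η ≤ 0`: the same with `η → -η` (for example apply the lemma to `s' = {y ∈ [0, 117/100] | ∃ x, Sad w (-y) x}`).
-/

namespace SokalAS

open Complex Filter Topology Set

private theorem sad_open {w : ℂ} (hw : w ∈ Qd) {η0 : ℝ} {x0 : ℂ} (h : Sad w η0 x0) :
    ∀ᶠ η in 𝓝 η0, ∃ x : ℂ, Sad w η x := by
  have hx0 : x0 ∈ slitPlane := Or.inl h.1
  have hd : HasStrictDerivAt (fun x : ℂ => log x + w * (x - 1)) (x0⁻¹ + w * 1) x0 := by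
    have h1 := hasStrictDerivAt_log hx0
    have h3 : HasStrictDerivAt (fun x : ℂ => x - 1) 1 x0 := (hasStrictDerivAt_id x0).sub_const 1
    have h2 : HasStrictDerivAt (fun x : ℂ => w * (x - 1)) (w * 1) x0 :=
      HasStrictDerivAt.const_mul w h3
    exact h1.add h2
  have hne : x0⁻¹ + w * 1 ≠ 0 := by
    intro h0
    have h1 := congrArg re h0
    rw [mul_one, add_re, zero_re, inv_re] at h1
    have h2 : 0 < x0.re / normSq x0 := div_pos h.1 (normSq_pos.2 h.ne_zero)
    linarith [hw.1]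
  have hmap := hd.map_nhds_eq hne
  have hU : {x : ℂ | 0 < x.re} ∈ 𝓝 x0 := (isOpen_lt continuous_const continuous_re).mem_nhds h.1
  have hI : (fun x : ℂ => log x + w * (x - 1)) '' {x : ℂ | 0 < x.re} ∈ 𝓝 ((η0 : ℂ) * I) := by
    have h1 := image_mem_map hU (m := fun x : ℂ => log x + w * (x - 1))
    rw [hmap] at h1
    rw [← h.2]
    exact h1
  have hc : Tendsto (fun η : ℝ => (η : ℂ) * I) (𝓝 η0) (𝓝 ((η0 : ℂ) * I)) :=
    (continuous_ofReal.mul continuous_const).tendsto η0
  filter_upwards [hc hI] with η hη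
  obtain ⟨x, hx, hx'⟩ := hη
  exact ⟨x, hx, hx'⟩

private theorem sad_interval {w : ℂ} (hw : w ∈ Qd) (e b : ℝ)
    (hb : ∀ y ∈ Icc (0 : ℝ) b, Rg (e * y)) : ∀ y ∈ Icc (0 : ℝ) b, ∃ x : ℂ, Sad w (e * y) x := by
  obtain ⟨c, C, hc, -, -, hcC⟩ := Sad.bounds
  have hce : Continuous fun y : ℝ => e * y := continuous_const.mul continuous_id
  have key : Icc (0 : ℝ) b ⊆ {y : ℝ | ∃ x : ℂ, Sad w (e * y) x} := by
    refine IsClosed.Icc_subset_of_forall_mem_nhdsWithin ?_ ?_ ?_
    · -- closed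
      refine IsSeqClosed.isClosed fun y y0 hy hlim => ?_
      have hIcc : y0 ∈ Icc (0 : ℝ) b :=
        isClosed_Icc.mem_of_tendsto hlim (Eventually.of_forall fun n => (hy n).2)
      refine ⟨?_, hIcc⟩
      choose x hx using fun n => (hy n).1
      let Kc : Set ℂ := {x : ℂ | c ≤ x.re} ∩ Metric.closedBall 0 C
      have hK : IsCompact Kc :=
        (isCompact_closedBall (0 : ℂ) C).inter_left (isClosed_le continuous_const continuous_re)
      have hxK : ∀ n, x n ∈ Kc := fun n => by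
        obtain ⟨h1, h2⟩ := hcC w (e * y n) (x n) hw (hb _ (hy n).2) (hx n)
        exact ⟨h1, by rw [mem_closedBall_zero_iff]; exact h2⟩
      obtain ⟨x0, hx0, φ, hφ, hφlim⟩ := hK.tendsto_subseq hxK
      have hre : 0 < x0.re := lt_of_lt_of_le hc hx0.1
      have hcont : ContinuousAt (fun x : ℂ => log x + w * (x - 1)) x0 :=
        (continuousAt_clog (Or.inl hre)).add
          (continuousAt_const.mul (continuousAt_id.sub continuousAt_const))
      have l1 := hcont.tendsto.comp hφlim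
      have hcy : Continuous fun y : ℝ => ((e * y : ℝ) : ℂ) * I :=
        (continuous_ofReal.comp hce).mul continuous_const
      have l2 : Tendsto (fun n => ((e * y (φ n) : ℝ) : ℂ) * I) atTop (𝓝 (((e * y0 : ℝ) : ℂ) * I)) :=
        (hcy.tendsto y0).comp (hlim.comp hφ.tendsto_atTop)
      have h3 : ((fun x : ℂ => log x + w * (x - 1)) ∘ x ∘ φ) =
          fun n => ((e * y (φ n) : ℝ) : ℂ) * I := by
        funext n
        exact (hx (φ n)).2
      rw [h3] at l1
      exact ⟨x0, hre, tendsto_nhds_unique l1 l2⟩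
    · refine ⟨1, ?_⟩
      rw [mul_zero]
      exact Sad.one
    · rintro y ⟨⟨x, hx⟩, -⟩
      have h1 := sad_open hw hx
      exact mem_nhdsWithin_of_mem_nhds ((hce.tendsto y).eventually h1)
  exact key

theorem Sad.exists {w : ℂ} (hw : w ∈ Qd) {η : ℝ} (hη : Rg η) : ∃ x : ℂ, Sad w η x := by
  rcases le_total 0 η with h | h
  · have h1 := sad_interval hw 1 (77 / 50) (fun y hy => by
      rw [one_mul]
      exact ⟨by linarith [hy.1], hy.2⟩) η ⟨h, hη.2⟩
    rw [one_mul] at h1
    exact h1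
  · have h1 := sad_interval hw (-1) (117 / 100) (fun y hy => by
      rw [neg_one_mul]
      exact ⟨by linarith [hy.2], by linarith [hy.1]⟩) (-η) ⟨by linarith, by linarith [hη.1]⟩
    rw [neg_one_mul, neg_neg] at h1
    exact h1

end SokalAS
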