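import Pool.Agent.Lib_MP_af4de1_as.SadLip
import Pool.Agent.Lib_MP_af4de1_as.SadExist

/-!
# The saddle point as a function of the angle [AS-05]

`hasDerivAt_X`: at `η0` (interior) with `x0 = X w η0`: `f x = log x + w (x - 1)` has a strict derivative `f' = 1/x0 + w ≠ 0` at
`x0`, let `g` be its local inverse (`HasStrictDerivAt.to_localInverse`, `HasStrictDerivAt.localInverse`): `g` is differentiable at
`iη0` with derivative `1/f'`, `f (g y) = y` near `iη0`, `Re (g y) > 0` near `iη0`; so `X w η = g (iη)` for `η` near `η0` by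
`Sad.unique`.  `I/(1/x0 + w) = I x0/(1 + w x0)`.
`rho_deriv`: `d/dη Sh w (X) = (1 + w X) X' = I X`, real part `-Im X`.
`rho_mono_pos` (and `_neg`): `η ↦ Re Sh w (X w η) + c vh w η²/2` is antitone on `[0, 77/50]` (`antitoneOn_of_deriv_nonpos`,
continuity at the end points from `Sad.lip`), because `Im X ≥ c η vh w` (`Sad.im_bounds`, `Sad.mul_im_nonneg`).
-/

namespace SokalAS

open Complex

open Classical in
/-- The saddle point. -/
noncomputable def X (w : ℂ) (η : ℝ) : ℂ := if h : ∃ x : ℂ, Sad w η x then h.choose else 1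

theorem X_spec {w : ℂ} (hw : w ∈ Qd) {η : ℝ} (hη : Rg η) : Sad w η (X w η) := by
  have h := Sad.exists hw hη
  unfold X
  rw [dif_pos h]
  exact h.choose_spec

theorem X_zero {w : ℂ} (hw : w ∈ Qd) : X w 0 = 1 :=
  (X_spec hw ⟨by norm_num, by norm_num⟩).eq_one hw.1

private theorem tendsto_X {w : ℂ} (hw : w ∈ Qd) {s : Set ℝ} {η : ℝ} (hη : Rg η)
    (hs : ∀ y ∈ s, Rg y) : ContinuousWithinAt (X w) s η := by
  obtain ⟨C, hC, hlip⟩ := Sad.lip
  rw [Metric.continuousWithinAt_iff]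
  intro ε hε
  refine ⟨ε / C, div_pos hε hC, fun {y} hy hab => ?_⟩
  have h1 := hlip w w y η (X w y) (X w η) hw hw (hs y hy) hη (X_spec hw (hs y hy)) (X_spec hw hη)
  rw [sub_self, norm_zero, add_zero] at h1
  rw [Real.dist_eq] at hab
  rw [dist_eq_norm]
  calc ‖X w y - X w η‖ ≤ C * |y - η| := h1
    _ < C * (ε / C) := mul_lt_mul_of_pos_left hab hC
    _ = ε := by field_simp

private theorem eventually_Rg {η : ℝ} (h1 : -(117 / 100) < η) (h2 : η < 77 / 50) :
    ∀ᶠ y in nhds η, Rg y := by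
  filter_upwards [Ioo_mem_nhds h1 h2] with y hy
  exact ⟨hy.1.le, hy.2.le⟩

private theorem continuousAt_X {w : ℂ} (hw : w ∈ Qd) {η : ℝ} (h1 : -(117 / 100) < η)
    (h2 : η < 77 / 50) : ContinuousAt (X w) η := by
  have h3 := tendsto_X hw (s := Set.Icc (-(117 / 100)) (77 / 50)) (η := η) ⟨h1.le, h2.le⟩
    (fun y hy => ⟨hy.1, hy.2⟩)
  exact h3.continuousAt (Icc_mem_nhds h1 h2)

private theorem inv_add_ne {w : ℂ} (hw : 0 ≤ w.re) {x : ℂ} (hx : 0 < x.re) : x⁻¹ + w ≠ 0 := by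
  intro h0
  have hx0 : x ≠ 0 := by
    rintro rfl
    simp at hx
  have h1 := congrArg re h0
  rw [add_re, zero_re, inv_re] at h1
  have h2 : 0 < x.re / normSq x := div_pos hx (normSq_pos.2 hx0)
  linarith

theorem hasDerivAt_X {w : ℂ} (hw : w ∈ Qd) {η : ℝ} (h1 : -(117 / 100) < η) (h2 : η < 77 / 50) :
    HasDerivAt (X w) (I * X w η / (1 + w * X w η)) η := by
  have hR : Rg η := ⟨h1.le, h2.le⟩
  have hs := X_spec hw hR
  have hd : HasStrictDerivAt (fun x : ℂ => log x + w * (x - 1)) ((X w η)⁻¹ + w) (X w η) := by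
    have h3 : HasStrictDerivAt (fun x : ℂ => x - 1) 1 (X w η) :=
      (hasStrictDerivAt_id (X w η)).sub_const 1
    have h4 : HasStrictDerivAt (fun x : ℂ => w * (x - 1)) (w * 1) (X w η) :=
      HasStrictDerivAt.const_mul w h3
    have h5 := (hasStrictDerivAt_log (Or.inl hs.1 : X w η ∈ slitPlane)).add h4
    rw [mul_one] at h5
    exact h5
  have hne := inv_add_ne hw.1 hs.1
  have hg := (hd.to_localInverse hne).hasDerivAt
  rw [show log (X w η) + w * (X w η - 1) = η * I from hs.2] at hg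
  have hline : HasDerivAt (fun y : ℝ => (y : ℂ) * I) I η := by
    have := (ofRealCLM.hasDerivAt (x := η)).mul_const I
    simpa using this
  have hcomp := HasDerivAt.comp η hg hline
  have hleft := (hd.hasStrictFDerivAt_equiv hne).eventually_left_inverse
  have hc := continuousAt_X hw h1 h2
  have hev : X w =ᶠ[nhds η] (hd.localInverse (fun x : ℂ => log x + w * (x - 1))
      ((X w η)⁻¹ + w) (X w η) hne) ∘ (fun y : ℝ => (y : ℂ) * I) := by
    filter_upwards [hc.eventually hleft, eventually_Rg h1 h2] with y hy hyR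
    have h6 := (X_spec hw hyR).2
    simp only [Function.comp]
    rw [← h6]
    exact hy.symm
  have h7 := hcomp.congr_of_eventuallyEq hev
  refine h7.congr_deriv ?_
  have hx0 := hs.ne_zero
  have hne2 : 1 + w * X w η ≠ 0 := by
    have h8 : 1 + w * X w η = X w η * ((X w η)⁻¹ + w) := by
      rw [mul_add, mul_inv_cancel₀ hx0, mul_comm w]
    rw [h8]
    exact mul_ne_zero hx0 hne
  have h8 : (X w η)⁻¹ + w = (1 + w * X w η) / X w η := by
    field_simp
  rw [h8]
  field_simp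

theorem rho_deriv {w : ℂ} (hw : w ∈ Qd) {η : ℝ} (h1 : -(117 / 100) < η) (h2 : η < 77 / 50) :
    HasDerivAt (fun η : ℝ => (Sh w (X w η)).re) (-(X w η).im) η := by
  have hd := hasDerivAt_X hw h1 h2
  have hs := X_spec hw (⟨h1.le, h2.le⟩ : Rg η)
  have hx0 := hs.ne_zero
  have hne2 : 1 + w * X w η ≠ 0 := by
    have h8 : 1 + w * X w η = X w η * ((X w η)⁻¹ + w) := by
      rw [mul_add, mul_inv_cancel₀ hx0, mul_comm w]
    rw [h8]
    exact mul_ne_zero hx0 (inv_add_ne hw.1 hs.1)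
  have hS : HasDerivAt (fun η : ℝ => Sh w (X w η)) (I * X w η) η := by
    have h3 := hd.add (((hd.pow 2).sub_const 1).const_mul w |>.div_const 2)
    have h4 : HasDerivAt (fun η : ℝ => Sh w (X w η)) _ η := h3
    refine h4.congr_deriv ?_
    have h6 : I * X w η / (1 + w * X w η) * (1 + w * X w η) = I * X w η :=
      div_mul_cancel₀ _ hne2
    generalize I * X w η / (1 + w * X w η) = u at h6 ⊢
    norm_num
    linear_combination h6
  have h5 := (reCLM.hasFDerivAt (x := Sh w (X w η))).comp_hasDerivAt η hS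
  refine (h5.congr_deriv ?_)
  simp

theorem continuousOn_rho {w : ℂ} (hw : w ∈ Qd) :
    ContinuousOn (fun η : ℝ => (Sh w (X w η)).re) (Set.Icc (-(117 / 100)) (77 / 50)) := by
  have h1 : ContinuousOn (X w) (Set.Icc (-(117 / 100)) (77 / 50)) := fun y hy =>
    tendsto_X hw ⟨hy.1, hy.2⟩ (fun z hz => ⟨hz.1, hz.2⟩)
  have h2 : Continuous (fun x : ℂ => (Sh w x).re) := by
    unfold Sh
    fun_prop
  exact h2.comp_continuousOn h1

private theorem hasDerivAt_aux {w : ℂ} (hw : w ∈ Qd) (e : ℝ) {η : ℝ} (h1 : -(117 / 100) < η)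
    (h2 : η < 77 / 50) :
    HasDerivAt (fun η : ℝ => (Sh w (X w η)).re + e * η ^ 2) (-(X w η).im + e * (2 * η)) η := by
  have h3 := (rho_deriv hw h1 h2).add ((hasDerivAt_pow 2 η).const_mul e)
  refine h3.congr_deriv ?_
  norm_num

private theorem continuousOn_aux {w : ℂ} (hw : w ∈ Qd) (e : ℝ) :
    ContinuousOn (fun η : ℝ => (Sh w (X w η)).re + e * η ^ 2)
      (Set.Icc (-(117 / 100)) (77 / 50)) :=
  (continuousOn_rho hw).add (by fun_prop)

theorem rho_mono_pos : ∃ c : ℝ, 0 < c ∧ ∀ (w : ℂ) (η1 η2 : ℝ) (x1 x2 : ℂ), w ∈ Qd → 0 ≤ η1 →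
    η1 ≤ η2 → η2 ≤ 77 / 50 → Sad w η1 x1 → Sad w η2 x2 →
    c * vh w * (η2 ^ 2 - η1 ^ 2) ≤ (Sh w x1).re - (Sh w x2).re := by
  obtain ⟨c, C, hc, hC, hb⟩ := Sad.im_bounds
  refine ⟨c / 2, by positivity, ?_⟩
  intro w η1 η2 x1 x2 hw h0 h12 h2 hx1 hx2
  have hR1 : Rg η1 := ⟨by linarith, by linarith⟩
  have hR2 : Rg η2 := ⟨by linarith, by linarith⟩
  have e1 : x1 = X w η1 := Sad.unique hw.1 hx1 (X_spec hw hR1)
  have e2 : x2 = X w η2 := Sad.unique hw.1 hx2 (X_spec hw hR2)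
  have hv := vh_pos hw.1
  have hanti : AntitoneOn (fun η : ℝ => (Sh w (X w η)).re + (c / 2 * vh w) * η ^ 2)
      (Set.Icc 0 (77 / 50)) := by
    refine antitoneOn_of_deriv_nonpos (convex_Icc _ _)
      ((continuousOn_aux hw _).mono (Set.Icc_subset_Icc (by norm_num) le_rfl)) ?_ ?_
    · intro y hy
      rw [interior_Icc] at hy
      exact (hasDerivAt_aux hw _ (by linarith [hy.1]) hy.2).differentiableAt.differentiableWithinAt
    · intro y hy
      rw [interior_Icc] at hy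
      have hRy : Rg y := ⟨by linarith [hy.1], hy.2.le⟩
      rw [(hasDerivAt_aux hw _ (by linarith [hy.1]) hy.2).deriv]
      have hs := X_spec hw hRy
      have h3 := (hb w y (X w y) hw hRy hs).1
      have h4 := hs.mul_im_nonneg hw.1
      have h5 : 0 ≤ (X w y).im := nonneg_of_mul_nonneg_right h4 hy.1
      rw [abs_of_pos hy.1, abs_of_nonneg h5] at h3
      linarith
  have h6 := hanti (⟨h0, h12.trans h2⟩ : η1 ∈ Set.Icc (0 : ℝ) (77 / 50)) ⟨h0.trans h12, h2⟩ h12
  simp only at h6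
  rw [e1, e2]
  linarith

theorem rho_mono_neg : ∃ c : ℝ, 0 < c ∧ ∀ (w : ℂ) (η1 η2 : ℝ) (x1 x2 : ℂ), w ∈ Qd → η1 ≤ 0 →
    η2 ≤ η1 → -(117 / 100) ≤ η2 → Sad w η1 x1 → Sad w η2 x2 →
    c * vh w * (η2 ^ 2 - η1 ^ 2) ≤ (Sh w x1).re - (Sh w x2).re := by
  obtain ⟨c, C, hc, hC, hb⟩ := Sad.im_bounds
  refine ⟨c / 2, by positivity, ?_⟩
  intro w η1 η2 x1 x2 hw h0 h12 h2 hx1 hx2
  have hR1 : Rg η1 := ⟨by linarith, by linarith⟩
  have hR2 : Rg η2 := ⟨by linarith, by linarith⟩
  have e1 : x1 = X w η1 := Sad.unique hw.1 hx1 (X_spec hw hR1)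
  have e2 : x2 = X w η2 := Sad.unique hw.1 hx2 (X_spec hw hR2)
  have hv := vh_pos hw.1
  have hmono : MonotoneOn (fun η : ℝ => (Sh w (X w η)).re + (c / 2 * vh w) * η ^ 2)
      (Set.Icc (-(117 / 100)) 0) := by
    refine monotoneOn_of_deriv_nonneg (convex_Icc _ _)
      ((continuousOn_aux hw _).mono (Set.Icc_subset_Icc le_rfl (by norm_num))) ?_ ?_
    · intro y hy
      rw [interior_Icc] at hy
      exact (hasDerivAt_aux hw _ hy.1 (by linarith [hy.2])).differentiableAt.differentiableWithinAt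
    · intro y hy
      rw [interior_Icc] at hy
      have hRy : Rg y := ⟨hy.1.le, by linarith [hy.2]⟩
      rw [(hasDerivAt_aux hw _ hy.1 (by linarith [hy.2])).deriv]
      have hs := X_spec hw hRy
      have h3 := (hb w y (X w y) hw hRy hs).1
      have h4 := hs.mul_im_nonneg hw.1
      have h5 : (X w y).im ≤ 0 := by
        by_contra hcon
        push Not at hcon
        have := mul_neg_of_neg_of_pos hy.2 hcon
        linarith
      rw [abs_of_neg hy.2, abs_of_nonpos h5] at h3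
      linarith
  have h6 := hmono (⟨h2, h12.trans h0⟩ : η2 ∈ Set.Icc (-(117 / 100) : ℝ) 0) ⟨h2.trans h12, h0⟩ h12
  simp only at h6
  rw [e1, e2]
  linarith

end SokalAS
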