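import Pool.Agent.Lib_MP_af4de1_as.FarIm
import Pool.Agent.Lib_MP_af4de1_as.SadX

/-!
# Comparison of two angles on the imaginary axis [AS-11]

`w = -i/B`, `u(a, s; η) = ui B η a s`.  For fixed `a` it is concave in `s ∈ [-π/2, π/2]`, so at a saddle `(a0, ν0)` of the angle
`η0`: `u(a0, s; η0) ≤ ρ(η0)` for `|s| ≤ π/2` (this is `center` with `η = η'`).  For fixed `s`, `|s| < π/2`, it is convex in `a`,
so at a saddle `(a1, ν1)` of `η1`: `ρ(η1) ≤ u(α, ν1; η1)` for all `α` (`min_a`: `e^α ≥ e^{a1}(1 + α - a1)` and `Rel.hc`).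

`geo3_im`: `η0 = .97`, saddle `(-L, ν0)`, `0 ≤ L ≤ .65`, `L > 0`; `η1 = -1.13`, saddle `(a1, -μ)`, `μ ∈ [0, π/2)`.
 `ρ(η1) ≤ u(L, -μ; -1.13)` and `u(-L, μ; .97) ≤ ρ(η0)`.  `u(-L, μ; .97) - u(L, -μ; -1.13)
   = L(1 + B(μ - .97)) + e^{-L} cos μ + L(1 + B(1.13 - μ)) - e^L cos μ = L (2 + .16 B) - 2 sinh L cos μ ≥ L(2 + .16B) - 2 sinh L`.
 `2 (sinh L - L) ≤ .3405 L³` on `[0, .65]`, so it suffices `.3405 L² < .16 B`, i.e. (with `B = sin ν0/(L e^L)`)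
 `L³ e^L < .469 sin ν0`.  From `L(e^L - cos ν0) = (.97 - ν0) sin ν0` (see `SadIm`), `ν = ν0`: `L² ≤ L(e^L - 1) ≤ (.97-ν) sin ν ≤
 (.97 - ν) ν ≤ .2353`, `L ≤ .4851`, and `L e^L ≤ (e^L - 1)(1 + L/2 + L²/12)`, so
 `L³ e^L/sin ν ≤ (.97 - ν) L (1 + L/2 + L²/12) ≤ ((.97-ν)³ ν)^{1/2} · 1.27 ≤ (27 · .97⁴/256)^{1/2} · 1.27 < .39`.
`geo4_im`: `η0 = -.61`, saddle `(ℓ, ν0)`, `ℓ > 0`; `η1 = 1.49`, saddle `(-L, ν)`, `0 < ν < π/2`, `0 < L`.
 `ρ(η1) ≤ u(-ℓ, ν; 1.49)`, `u(ℓ, -ν; -.61) ≤ ρ(η0)`, difference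
   `-ℓ(1 + B(.61 - ν)) + e^ℓ cos ν - ℓ(1 + B(ν - 1.49)) - e^{-ℓ} cos ν = ℓ(.88 B - 2) + 2 sinh ℓ cos ν ≥ ℓ (.88 B - 2(1 - cos ν))`.
 Need `.88 B > 2 (1 - cos ν)` with `B = sin ν/(L e^L)`, i.e. `L e^L (1 - cos ν) < .44 sin ν`.  `L e^L = (1.49 - ν) sin ν + L cos ν`
 and `L ≤ .61` (`L + L²/2 ≤ e^L - 1`, `L (e^L - 1) ≤ (1.49 - ν) sin ν ≤ .51`: `.61 (e^{.61} - 1) > .5125`), so it suffices
 `((1.49 - ν) sin ν + .61 cos ν)(1 - cos ν) < .44 sin ν` for `0 < ν < π/2` (smallest ratio `.44 sin ν/lhs` about `1.08` near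
 `ν = .88`).
-/

namespace SokalAS

open Complex

/-! ### Elementary inequalities -/

private lemma nonneg_of_deriv {f f' : ℝ → ℝ} (hd : ∀ x, HasDerivAt f (f' x) x) (h0 : f 0 = 0)
    (hf : ∀ x, 0 ≤ x → 0 ≤ f' x) {x : ℝ} (hx : 0 ≤ x) : 0 ≤ f x := by
  have hm : MonotoneOn f (Set.Ici 0) := by
    refine monotoneOn_of_deriv_nonneg (convex_Ici 0)
      (fun y _ => (hd y).continuousAt.continuousWithinAt)
      (fun y _ => (hd y).differentiableAt.differentiableWithinAt) ?_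
    intro y hy
    rw [interior_Ici] at hy
    rw [(hd y).deriv]
    exact hf y (le_of_lt hy)
  have := hm (Set.mem_Ici.2 le_rfl) (Set.mem_Ici.2 hx) hx
  rwa [h0] at this

private lemma cos_le4 {x : ℝ} (hx : 0 ≤ x) : Real.cos x ≤ 1 - x ^ 2 / 2 + x ^ 4 / 24 := by
  have := nonneg_of_deriv (f := fun x => 1 - x ^ 2 / 2 + x ^ 4 / 24 - Real.cos x)
    (f' := fun x => Real.sin x - (x - x ^ 3 / 6)) (fun y => by
      have h1 := ((((hasDerivAt_const y (1 : ℝ)).sub ((hasDerivAt_pow 2 y).div_const 2)).add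
        ((hasDerivAt_pow 4 y).div_const 24)).sub (Real.hasDerivAt_cos y))
      exact h1.congr_deriv (by push_cast; ring)) (by simp) (fun y hy => by
      have := Real.sin_ge_sub_cube hy
      linarith) hx
  linarith

private lemma sin_le5 {x : ℝ} (hx : 0 ≤ x) : Real.sin x ≤ x - x ^ 3 / 6 + x ^ 5 / 120 := by
  have := nonneg_of_deriv (f := fun x => x - x ^ 3 / 6 + x ^ 5 / 120 - Real.sin x)
    (f' := fun x => (1 - x ^ 2 / 2 + x ^ 4 / 24) - Real.cos x) (fun y => by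
      have h1 := ((((hasDerivAt_id y).sub ((hasDerivAt_pow 3 y).div_const 6)).add
        ((hasDerivAt_pow 5 y).div_const 120)).sub (Real.hasDerivAt_sin y))
      exact h1.congr_deriv (by push_cast; ring)) (by simp) (fun y hy => by
      have := cos_le4 hy
      linarith) hx
  linarith

private lemma exp_up {L : ℝ} (h0 : 0 ≤ L) (h1 : L ≤ 1) :
    Real.exp L ≤ 1 + L + L ^ 2 / 2 + L ^ 3 / 6 + L ^ 4 / 24 + L ^ 5 / 100 := by
  have := Real.exp_bound' h0 h1 (n := 5) (by norm_num)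
  norm_num [Finset.sum_range_succ, Nat.factorial] at this
  linarith

private lemma exp_lo {L : ℝ} (h0 : 0 ≤ L) :
    1 + L + L ^ 2 / 2 + L ^ 3 / 6 + L ^ 4 / 24 + L ^ 5 / 120 ≤ Real.exp L := by
  have := Real.sum_le_exp_of_nonneg h0 6
  norm_num [Finset.sum_range_succ, Nat.factorial] at this
  linarith

/-- `2 (sinh L - L) ≤ .35 L³` -/
private lemma sinh_up {L : ℝ} (h0 : 0 ≤ L) (h1 : L ≤ 49 / 100) :
    Real.exp L - Real.exp (-L) ≤ 2 * L + 35 / 100 * L ^ 3 := by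
  have hU := exp_up h0 (by linarith)
  obtain ⟨U, hUd⟩ : ∃ U, U = 1 + L + L ^ 2 / 2 + L ^ 3 / 6 + L ^ 4 / 24 + L ^ 5 / 100 := ⟨_, rfl⟩
  rw [← hUd] at hU
  have hE1 : 1 ≤ Real.exp L := Real.one_le_exp h0
  have hEE : Real.exp L * Real.exp (-L) = 1 := by
    rw [← Real.exp_add, add_neg_cancel, Real.exp_zero]
  have hE0 := Real.exp_pos L
  have e2 : L ^ 2 ≤ (49 / 100) ^ 2 := pow_le_pow_left₀ h0 h1 2
  have e3 : L ^ 3 ≤ (49 / 100) ^ 3 := pow_le_pow_left₀ h0 h1 3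
  have e4 : L ^ 4 ≤ (49 / 100) ^ 4 := pow_le_pow_left₀ h0 h1 4
  have e5 : L ^ 5 ≤ (49 / 100) ^ 5 := pow_le_pow_left₀ h0 h1 5
  have e6 : L ^ 6 ≤ (49 / 100) ^ 6 := pow_le_pow_left₀ h0 h1 6
  have e7 : L ^ 7 ≤ (49 / 100) ^ 7 := pow_le_pow_left₀ h0 h1 7
  norm_num at e2 e3 e4 e5 e6 e7
  have hf : U ^ 2 - (2 * L + 35 / 100 * L ^ 3) * U - 1 ≤ 0 := by
    have h3 : (2 * L + 35 / 100 * L ^ 3) * U + 1 - U ^ 2 = L ^ 3 * (1 / 60 + L / 60 - 7 / 600 * L ^ 2 - L ^ 3 / 90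
        - 67 / 7200 * L ^ 4 - 113 / 72000 * L ^ 5 - L ^ 6 / 1200 - L ^ 7 / 10000) := by
      rw [hUd]
      ring
    have h4 : 0 ≤ L ^ 3 * (1 / 60 + L / 60 - 7 / 600 * L ^ 2 - L ^ 3 / 90
        - 67 / 7200 * L ^ 4 - 113 / 72000 * L ^ 5 - L ^ 6 / 1200 - L ^ 7 / 10000) := by
      apply mul_nonneg (pow_nonneg h0 3)
      linarith
    linarith
  have hg : Real.exp L ^ 2 - (2 * L + 35 / 100 * L ^ 3) * Real.exp L - 1 ≤ 0 := by
    have h3 : 0 ≤ (U - Real.exp L) * (U + Real.exp L - (2 * L + 35 / 100 * L ^ 3)) := by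
      apply mul_nonneg (by linarith)
      linarith
    nlinarith
  have h3 : Real.exp L * (Real.exp L - Real.exp (-L)) ≤ Real.exp L * (2 * L + 35 / 100 * L ^ 3) := by
    have h4 : Real.exp L * (Real.exp L - Real.exp (-L)) = Real.exp L ^ 2 - 1 := by
      rw [mul_sub, hEE]
      ring
    rw [h4]
    linarith
  exact le_of_mul_le_mul_left h3 hE0

/-- `L e^L ≤ (e^L - 1)(1 + L/2 + L²/12)` -/
private lemma pade {L : ℝ} (h0 : 0 ≤ L) (h1 : L ≤ 1) :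
    L * Real.exp L ≤ (Real.exp L - 1) * (1 + L / 2 + L ^ 2 / 12) := by
  have hlo := exp_lo h0
  have h2 : 0 ≤ 1 - L / 2 + L ^ 2 / 12 := by nlinarith [sq_nonneg L]
  have h3 := mul_le_mul_of_nonneg_right hlo h2
  have h4 : (1 + L + L ^ 2 / 2 + L ^ 3 / 6 + L ^ 4 / 24 + L ^ 5 / 120) * (1 - L / 2 + L ^ 2 / 12) =
      (1 + L / 2 + L ^ 2 / 12) + L ^ 5 * (1 / 720 - L / 1440 + L ^ 2 / 1440) := by ring
  have h5 : 0 ≤ L ^ 5 * (1 / 720 - L / 1440 + L ^ 2 / 1440) := by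
    apply mul_nonneg (pow_nonneg h0 5)
    nlinarith [sq_nonneg L]
  nlinarith

private lemma poly_lt {h : ℝ} (h0 : 0 ≤ h) (h1 : h ≤ 3 / 4) :
    1 / 1000 ≤ 11 / 25 - 13 / 20 * h - 16 / 5 * h ^ 2 + 1351 / 250 * h ^ 3 + 298 / 125 * h ^ 4 -
      77 / 20 * h ^ 5 - 447 / 1000 * h ^ 6 + 3 / 5 * h ^ 7 := by
  rcases le_total h (1 / 2) with h2 | h2
  · have a0 : 0 ≤ 2 * h := by linarith
    have a1 : 0 ≤ 1 - 2 * h := by linarith
    have key : 11 / 25 - 13 / 20 * h - 16 / 5 * h ^ 2 + 1351 / 250 * h ^ 3 + 298 / 125 * h ^ 4 -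
      77 / 20 * h ^ 5 - 447 / 1000 * h ^ 6 + 3 / 5 * h ^ 7 - 1 / 1000 =
      (439 / 1000 * ((2 * h) ^ 0 * (1 - 2 * h) ^ 7) + 687 / 250 * ((2 * h) ^ 1 * (1 - 2 * h) ^ 6) + 6469 / 1000 * ((2 * h) ^ 2 * (1 - 2 * h) ^ 5) + 14331 / 2000 * ((2 * h) ^ 3 * (1 - 2 * h) ^ 4) + 929 / 250 * ((2 * h) ^ 4 * (1 - 2 * h) ^ 3) + 11579 / 16000 * ((2 * h) ^ 5 * (1 - 2 * h) ^ 2) + 1561 / 64000 * ((2 * h) ^ 6 * (1 - 2 * h) ^ 1) + 1017 / 64000 * ((2 * h) ^ 7 * (1 - 2 * h) ^ 0)) := by ring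
    have pos : 0 ≤ (439 / 1000 * ((2 * h) ^ 0 * (1 - 2 * h) ^ 7) + 687 / 250 * ((2 * h) ^ 1 * (1 - 2 * h) ^ 6) + 6469 / 1000 * ((2 * h) ^ 2 * (1 - 2 * h) ^ 5) + 14331 / 2000 * ((2 * h) ^ 3 * (1 - 2 * h) ^ 4) + 929 / 250 * ((2 * h) ^ 4 * (1 - 2 * h) ^ 3) + 11579 / 16000 * ((2 * h) ^ 5 * (1 - 2 * h) ^ 2) + 1561 / 64000 * ((2 * h) ^ 6 * (1 - 2 * h) ^ 1) + 1017 / 64000 * ((2 * h) ^ 7 * (1 - 2 * h) ^ 0)) := by positivity
    linarith
  · have a0 : 0 ≤ 4 * h - 2 := by linarith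
    have a1 : 0 ≤ 3 - 4 * h := by linarith
    have key : 11 / 25 - 13 / 20 * h - 16 / 5 * h ^ 2 + 1351 / 250 * h ^ 3 + 298 / 125 * h ^ 4 -
      77 / 20 * h ^ 5 - 447 / 1000 * h ^ 6 + 3 / 5 * h ^ 7 - 1 / 1000 =
      (1017 / 64000 * ((4 * h - 2) ^ 0 * (3 - 4 * h) ^ 7) + 4949 / 32000 * ((4 * h - 2) ^ 1 * (3 - 4 * h) ^ 6) + 210431 / 256000 * ((4 * h - 2) ^ 2 * (3 - 4 * h) ^ 5) + 603623 / 256000 * ((4 * h - 2) ^ 3 * (3 - 4 * h) ^ 4) + 3813399 / 1024000 * ((4 * h - 2) ^ 4 * (3 - 4 * h) ^ 3) + 833659 / 256000 * ((4 * h - 2) ^ 5 * (3 - 4 * h) ^ 2) + 6060561 / 4096000 * ((4 * h - 2) ^ 6 * (3 - 4 * h) ^ 1) + 1116307 / 4096000 * ((4 * h - 2) ^ 7 * (3 - 4 * h) ^ 0)) := by ring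
    have pos : 0 ≤ (1017 / 64000 * ((4 * h - 2) ^ 0 * (3 - 4 * h) ^ 7) + 4949 / 32000 * ((4 * h - 2) ^ 1 * (3 - 4 * h) ^ 6) + 210431 / 256000 * ((4 * h - 2) ^ 2 * (3 - 4 * h) ^ 5) + 603623 / 256000 * ((4 * h - 2) ^ 3 * (3 - 4 * h) ^ 4) + 3813399 / 1024000 * ((4 * h - 2) ^ 4 * (3 - 4 * h) ^ 3) + 833659 / 256000 * ((4 * h - 2) ^ 5 * (3 - 4 * h) ^ 2) + 6060561 / 4096000 * ((4 * h - 2) ^ 6 * (3 - 4 * h) ^ 1) + 1116307 / 4096000 * ((4 * h - 2) ^ 7 * (3 - 4 * h) ^ 0)) := by positivity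
    linarith

/-- the one-variable inequality of `geo4_im` -/
private lemma one_var {ν : ℝ} (h0 : 0 < ν) (h1 : ν ≤ 149 / 100) :
    ((149 / 100 - ν) * Real.sin ν + 65 / 100 * Real.cos ν) * (1 - Real.cos ν) <
      44 / 100 * Real.sin ν := by
  obtain ⟨h, hh⟩ : ∃ h, h = ν / 2 := ⟨_, rfl⟩
  have hν : ν = 2 * h := by linarith
  subst hν
  have hh0 : 0 < h := by linarith
  have hh1 : h ≤ 745 / 1000 := by linarith
  have hs5 := sin_le5 hh0.le
  have hs3 := Real.sin_ge_sub_cube hh0.le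
  have hc2 : 1 - h ^ 2 / 2 ≤ Real.cos h := Real.one_sub_sq_div_two_le_cos
  have hh2 : h ^ 2 ≤ 56 / 100 := by nlinarith
  have hh2' : 0 < h ^ 2 := by positivity
  have hh3' : 0 < h ^ 3 := by positivity
  -- bounds of `sin h`
  have s1 : Real.sin h ≤ h * (1 - 16 / 100 * h ^ 2) := by
    have : h ^ 3 * h ^ 2 ≤ h ^ 3 * (56 / 100) := mul_le_mul_of_nonneg_left hh2 hh3'.le
    nlinarith
  have s3 : h * (1 - h ^ 2 / 6) ≤ Real.sin h := by
    have : h * (1 - h ^ 2 / 6) = h - h ^ 3 / 6 := by ring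
    linarith
  have s0 : 0 < h * (1 - h ^ 2 / 6) := by
    apply mul_pos hh0
    linarith
  have sp : 0 < Real.sin h := lt_of_lt_of_le s0 s3
  have cp : 0 < Real.cos h := by linarith
  have s2 : Real.sin h ^ 2 ≤ h ^ 2 * (1 - 3 / 10 * h ^ 2) := by
    have h2 : Real.sin h ^ 2 ≤ (h * (1 - 16 / 100 * h ^ 2)) ^ 2 := pow_le_pow_left₀ sp.le s1 2
    have h3 : (h * (1 - 16 / 100 * h ^ 2)) ^ 2 = h ^ 2 * (1 - 32 / 100 * h ^ 2 + 256 / 10000 * (h ^ 2) ^ 2) := by ring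
    have h4 : h ^ 2 * (1 - 32 / 100 * h ^ 2 + 256 / 10000 * (h ^ 2) ^ 2) ≤ h ^ 2 * (1 - 3 / 10 * h ^ 2) := by
      apply mul_le_mul_of_nonneg_left _ hh2'.le
      nlinarith
    linarith
  have s33 : h ^ 3 * (1 - h ^ 2 / 2) ≤ Real.sin h ^ 3 := by
    have h2 : (h * (1 - h ^ 2 / 6)) ^ 3 ≤ Real.sin h ^ 3 := pow_le_pow_left₀ s0.le s3 3
    have h3 : (h * (1 - h ^ 2 / 6)) ^ 3 = h ^ 3 * (1 - h ^ 2 / 2 + (h ^ 2) ^ 2 / 12 - (h ^ 2) ^ 3 / 216) := by ring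
    have h4 : h ^ 3 * (1 - h ^ 2 / 2) ≤ h ^ 3 * (1 - h ^ 2 / 2 + (h ^ 2) ^ 2 / 12 - (h ^ 2) ^ 3 / 216) := by
      apply mul_le_mul_of_nonneg_left _ hh3'.le
      have h5 : 0 ≤ (h ^ 2) ^ 2 * (1 / 12 - h ^ 2 / 216) := by
        apply mul_nonneg (by positivity)
        linarith
      nlinarith
    linarith
  -- the factor of `cos h`
  have hl : 0 ≤ 149 / 100 - 2 * h := by linarith
  have A1 : 44 / 100 - 2 * (149 / 100 - 2 * h) * (h ^ 2 * (1 - 3 / 10 * h ^ 2)) ≤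
      44 / 100 - 2 * (149 / 100 - 2 * h) * Real.sin h ^ 2 := by
    have := mul_le_mul_of_nonneg_left s2 hl
    linarith
  have A0 : 0 ≤ 44 / 100 - 2 * (149 / 100 - 2 * h) * (h ^ 2 * (1 - 3 / 10 * h ^ 2)) := by
    have h2 : 2 * (149 / 100 - 2 * h) * (h ^ 2 * (1 - 3 / 10 * h ^ 2)) ≤ 2 * (149 / 100 - 2 * h) * h ^ 2 := by
      apply mul_le_mul_of_nonneg_left _ (by linarith)
      nlinarith
    have h3 : 2 * (149 / 100 - 2 * h) * h ^ 2 ≤ 44 / 100 := by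
      nlinarith [mul_nonneg hh0.le (sq_nonneg (h - 1 / 2)), sq_nonneg (h - 1 / 2)]
    linarith
  have A2 : (1 - h ^ 2 / 2) * (44 / 100 - 2 * (149 / 100 - 2 * h) * (h ^ 2 * (1 - 3 / 10 * h ^ 2))) ≤
      Real.cos h * (44 / 100 - 2 * (149 / 100 - 2 * h) * Real.sin h ^ 2) :=
    mul_le_mul hc2 A1 A0 cp.le
  have B1 : Real.sin h - 2 * Real.sin h ^ 3 ≤ h * (1 - 16 / 100 * h ^ 2) - 2 * (h ^ 3 * (1 - h ^ 2 / 2)) := by
    linarith
  have hp := poly_lt hh0.le (by linarith)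
  have hp' : 65 / 100 * (h * (1 - 16 / 100 * h ^ 2) - 2 * (h ^ 3 * (1 - h ^ 2 / 2))) <
      (1 - h ^ 2 / 2) * (44 / 100 - 2 * (149 / 100 - 2 * h) * (h ^ 2 * (1 - 3 / 10 * h ^ 2))) := by
    have : (1 - h ^ 2 / 2) * (44 / 100 - 2 * (149 / 100 - 2 * h) * (h ^ 2 * (1 - 3 / 10 * h ^ 2))) -
        65 / 100 * (h * (1 - 16 / 100 * h ^ 2) - 2 * (h ^ 3 * (1 - h ^ 2 / 2))) =
        11 / 25 - 13 / 20 * h - 16 / 5 * h ^ 2 + 1351 / 250 * h ^ 3 + 298 / 125 * h ^ 4 -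
      77 / 20 * h ^ 5 - 447 / 1000 * h ^ 6 + 3 / 5 * h ^ 7 := by ring
    linarith
  have G : 65 / 100 * (Real.sin h - 2 * Real.sin h ^ 3) <
      Real.cos h * (44 / 100 - 2 * (149 / 100 - 2 * h) * Real.sin h ^ 2) := by
    linarith
  have e1 : Real.sin (2 * h) = 2 * Real.sin h * Real.cos h := Real.sin_two_mul h
  have e2 : Real.cos (2 * h) = 1 - 2 * Real.sin h ^ 2 := by
    rw [Real.cos_two_mul, Real.cos_sq']
    ring
  rw [e1, e2]
  have h2 : 44 / 100 * (2 * Real.sin h * Real.cos h) -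
      ((149 / 100 - 2 * h) * (2 * Real.sin h * Real.cos h) + 65 / 100 * (1 - 2 * Real.sin h ^ 2)) *
        (1 - (1 - 2 * Real.sin h ^ 2)) =
      2 * Real.sin h * (Real.cos h * (44 / 100 - 2 * (149 / 100 - 2 * h) * Real.sin h ^ 2) -
        65 / 100 * (Real.sin h - 2 * Real.sin h ^ 3)) := by ring
  have h3 : 0 < 2 * Real.sin h * (Real.cos h * (44 / 100 - 2 * (149 / 100 - 2 * h) * Real.sin h ^ 2) -
        65 / 100 * (Real.sin h - 2 * Real.sin h ^ 3)) := by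
    apply mul_pos (by linarith)
    linarith
  linarith

/-! ### The relations at the saddles -/

/-- `L (e^L - cos ν) = (η - ν) sin ν` -/
private lemma key_rel {B η L ν : ℝ} (h : Rel B η (-L) ν) :
    L * (Real.exp L - Real.cos ν) = (η - ν) * Real.sin ν := by
  obtain ⟨hB, hν2, hs, hc⟩ := h
  have hEE : Real.exp (-L) * Real.exp L = 1 := by
    rw [← Real.exp_add, neg_add_cancel, Real.exp_zero]
  have h2 : B * (L * (Real.exp (-L) * (Real.exp L - Real.cos ν))) =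
      B * (Real.exp (-L) * ((η - ν) * Real.sin ν)) := by
    have h3 : Real.exp (-L) * (Real.exp L - Real.cos ν) = B * (η - ν) := by
      rw [mul_sub, hEE, hc]
      ring
    rw [h3]
    have h4 : Real.exp (-L) * ((η - ν) * Real.sin ν) = (η - ν) * (Real.exp (-L) * Real.sin ν) := by ring
    rw [h4, hs]
    ring
  have h5 := mul_left_cancel₀ hB.ne' h2
  have h6 : Real.exp (-L) * (L * (Real.exp L - Real.cos ν)) = Real.exp (-L) * ((η - ν) * Real.sin ν) := by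
    rw [← h5]
    ring
  exact mul_left_cancel₀ (Real.exp_pos (-L)).ne' h6

/-- convexity in `a` -/
private lemma min_a {B η a ν : ℝ} (h : Rel B η a ν) (α : ℝ) :
    Real.exp a * Real.cos ν * (1 - a) ≤ ui B η α ν := by
  have hcos : 0 < Real.cos ν := Real.cos_pos_of_mem_Ioo (abs_lt.1 h.hν)
  have h1 : 1 + B * (ν - η) = Real.exp a * Real.cos ν := h.hc.symm
  unfold ui
  rw [h1]
  have h2 : Real.exp a * (1 + (α - a)) ≤ Real.exp α := by
    have h4 := Real.add_one_le_exp (α - a)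
    have h3 : Real.exp α = Real.exp a * Real.exp (α - a) := by
      rw [← Real.exp_add]
      ring_nf
    rw [h3]
    exact mul_le_mul_of_nonneg_left (by linarith) (Real.exp_pos a).le
  have h3 := mul_le_mul_of_nonneg_right h2 hcos.le
  linarith

/-- concavity in `s` -/
private lemma max_s {B η a ν s : ℝ} (h : Rel2 B η a ν) (hs : |s| ≤ Real.pi / 2) :
    ui B η a s ≤ Real.exp a * Real.cos ν * (1 - a) := by
  have h1 := center h (Or.inl rfl) hs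
  have hcos : 0 < Real.cos ν := Real.cos_pos_of_mem_Ioo (abs_lt.1 h.hν)
  have h2 : 0 ≤ 1 / 2 * Real.exp a * Real.cos ν * (1 - Real.cos (s - ν)) := by
    have h3 := Real.cos_le_one (s - ν)
    have h4 := Real.exp_pos a
    exact mul_nonneg (by positivity) (by linarith)
  linarith

private lemma sh_eq {B η : ℝ} {x : ℂ} (hB : 0 < B) (h : Sad (-(1 / B : ℝ) * I) η x) :
    (Sh (-(1 / B : ℝ) * I) x).re =
      Real.exp (Real.log ‖x‖) * Real.cos (arg x) * (1 - Real.log ‖x‖) := by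
  obtain ⟨e1, e2, e3, e4, e5, e6⟩ := rel hB h
  rw [e5, e4, ← e2]

/-- `log‖x‖ ≠ 0` at a saddle with `η ≠ 0` -/
private lemma a_ne {B η a ν : ℝ} (h : Rel B η a ν) (hη : η ≠ 0) : a ≠ 0 := by
  intro ha
  obtain ⟨hB, hν2, hs, hc⟩ := h
  subst ha
  have hp := Real.pi_pos
  have h1 : Real.sin ν = 0 := by
    have := hs
    rw [Real.exp_zero] at this
    linarith
  have h2 := abs_lt.1 hν2
  have h3 : ν = 0 := (Real.sin_eq_zero_iff_of_lt_of_lt (by linarith) (by linarith)).1 h1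
  subst h3
  rw [Real.exp_zero, Real.cos_zero] at hc
  have h4 : B * (0 - η) = 0 := by linarith
  rcases mul_eq_zero.1 h4 with h5 | h5
  · linarith
  · apply hη
    linarith

private lemma geo3_aux {B a0 ν0 a1 ν1 : ℝ} (r1 : Rel2 B (97 / 100) a0 ν0)
    (r2 : Rel2 B (-(113 / 100)) a1 ν1) :
    Real.exp a1 * Real.cos ν1 * (1 - a1) < Real.exp a0 * Real.cos ν0 * (1 - a0) := by
  have hB : 0 < B := r1.hB
  obtain ⟨p1, p2, p3, p4, p5⟩ := r1.pos (by norm_num)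
  obtain ⟨n1, n2, n3⟩ := r2.neg (by norm_num)
  have hne := a_ne r1.toRel (by norm_num)
  obtain ⟨L, hL⟩ : ∃ L, L = -a0 := ⟨_, rfl⟩
  have ha0 : a0 = -L := by linarith
  subst ha0
  obtain ⟨m, hm⟩ : ∃ m, m = -ν1 := ⟨_, rfl⟩
  have hν1 : ν1 = -m := by linarith
  subst hν1
  have hL0 : 0 < L := lt_of_le_of_ne (by linarith) (fun h => hne (by rw [← h, neg_zero]))
  have hm2 := abs_lt.1 r2.hν
  have hm0 : 0 ≤ m := by linarith
  have hA := min_a r2.toRel L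
  have hBd := max_s r1 (s := m) (abs_le.2 ⟨by linarith, by linarith⟩)
  refine lt_of_le_of_lt hA (lt_of_lt_of_le ?_ hBd)
  have hcm1 := Real.cos_le_one m
  have hcm0 : 0 ≤ Real.cos m := Real.cos_nonneg_of_neg_pi_div_two_le_of_le (by linarith) (by linarith)
  unfold ui
  rw [Real.cos_neg]
  -- the relations
  have key := key_rel r1.toRel
  have hs := r1.hs
  have hsin0 : 0 < Real.sin ν0 := by
    have h1 : 0 < Real.exp (-L) * Real.sin ν0 := by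
      rw [hs]
      have := mul_pos hB hL0
      linarith
    exact (mul_pos_iff_of_pos_left (Real.exp_pos (-L))).1 h1
  have hsin1 : Real.sin ν0 ≤ ν0 := Real.sin_le p1
  have hcos1 := Real.cos_le_one ν0
  have hE1 := Real.add_one_le_exp L
  have c1 : L * (Real.exp L - 1) ≤ (97 / 100 - ν0) * Real.sin ν0 := by
    rw [← key]
    exact mul_le_mul_of_nonneg_left (by linarith) hL0.le
  have c2 : L ^ 2 ≤ (97 / 100 - ν0) * ν0 := by
    have h1 : L ^ 2 ≤ L * (Real.exp L - 1) := by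
      rw [pow_two]
      exact mul_le_mul_of_nonneg_left (by linarith) hL0.le
    have h2 : (97 / 100 - ν0) * Real.sin ν0 ≤ (97 / 100 - ν0) * ν0 :=
      mul_le_mul_of_nonneg_left hsin1 (by linarith)
    linarith
  have c3 : L ≤ 49 / 100 := by
    have h1 : L ^ 2 ≤ (49 / 100) ^ 2 := by nlinarith [sq_nonneg (ν0 - 97 / 200)]
    exact le_of_sq_le_sq h1 (by norm_num)
  obtain ⟨u, hu⟩ : ∃ u, u = L * (97 / 100 - ν0) := ⟨_, rfl⟩
  have hu0 : 0 ≤ u := by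
    rw [hu]
    exact mul_nonneg hL0.le (by linarith)
  have c4 : u ≤ 31 / 100 := by
    have h1 : u ^ 2 ≤ (31 / 100) ^ 2 := by
      rw [hu]
      obtain ⟨x, hx⟩ : ∃ x, x = 97 / 100 - ν0 := ⟨_, rfl⟩
      have hν0 : ν0 = 97 / 100 - x := by linarith
      subst hν0
      have hx0 : 0 ≤ x := by linarith
      have h2 : (L * (97 / 100 - (97 / 100 - x))) ^ 2 = x ^ 2 * L ^ 2 := by ring
      rw [h2]
      have h3 : x ^ 2 * L ^ 2 ≤ x ^ 2 * (x * (97 / 100 - x)) := by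
        apply mul_le_mul_of_nonneg_left _ (sq_nonneg x)
        linarith
      have h4 : 0 ≤ (x - 7275 / 10000) ^ 2 * (x ^ 2 + 485 / 1000 * x + 17642 / 100000) := by positivity
      nlinarith
    exact le_of_sq_le_sq h1 (by norm_num)
  have c5 : L ^ 3 * Real.exp L ≤ u * Real.sin ν0 * (127 / 100) := by
    have h1 := pade hL0.le (by linarith)
    have h2 : L ^ 2 * (L * Real.exp L) ≤ L ^ 2 * ((Real.exp L - 1) * (1 + L / 2 + L ^ 2 / 12)) :=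
      mul_le_mul_of_nonneg_left h1 (sq_nonneg L)
    have hw : 1 + L / 2 + L ^ 2 / 12 ≤ 127 / 100 := by nlinarith
    have hw0 : 0 ≤ 1 + L / 2 + L ^ 2 / 12 := by positivity
    have h3 : L * (L * (Real.exp L - 1)) ≤ L * ((97 / 100 - ν0) * Real.sin ν0) :=
      mul_le_mul_of_nonneg_left c1 hL0.le
    have h4 : L * (L * (Real.exp L - 1)) * (1 + L / 2 + L ^ 2 / 12) ≤
        L * ((97 / 100 - ν0) * Real.sin ν0) * (127 / 100) := by
      apply mul_le_mul h3 hw hw0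
      exact mul_nonneg hL0.le (mul_nonneg (by linarith) hsin0.le)
    rw [hu]
    calc L ^ 3 * Real.exp L = L ^ 2 * (L * Real.exp L) := by ring
      _ ≤ L ^ 2 * ((Real.exp L - 1) * (1 + L / 2 + L ^ 2 / 12)) := h2
      _ = L * (L * (Real.exp L - 1)) * (1 + L / 2 + L ^ 2 / 12) := by ring
      _ ≤ L * ((97 / 100 - ν0) * Real.sin ν0) * (127 / 100) := h4
      _ = L * (97 / 100 - ν0) * Real.sin ν0 * (127 / 100) := by ring
  have c6 : 35 / 100 * L ^ 3 < 16 / 100 * (B * L) := by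
    have hEE : Real.exp (-L) * Real.exp L = 1 := by
      rw [← Real.exp_add, neg_add_cancel, Real.exp_zero]
    have h1 : B * L * Real.exp L = Real.sin ν0 := by
      have : B * L = Real.exp (-L) * Real.sin ν0 := by linarith
      rw [this]
      calc Real.exp (-L) * Real.sin ν0 * Real.exp L = Real.exp (-L) * Real.exp L * Real.sin ν0 := by ring
        _ = Real.sin ν0 := by rw [hEE, one_mul]
    have h2 : 35 / 100 * L ^ 3 * Real.exp L < 16 / 100 * (B * L) * Real.exp L := by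
      have h3 : u * Real.sin ν0 ≤ 31 / 100 * Real.sin ν0 := mul_le_mul_of_nonneg_right c4 hsin0.le
      have h4 : 16 / 100 * (B * L) * Real.exp L = 16 / 100 * Real.sin ν0 := by rw [← h1]; ring
      rw [h4]
      linarith
    exact lt_of_mul_lt_mul_right h2 (Real.exp_pos L).le
  have c7 := sinh_up hL0.le c3
  have c8 : 0 ≤ Real.exp L - Real.exp (-L) := by
    have := Real.exp_le_exp.2 (show -L ≤ L by linarith)
    linarith
  have c9 : (Real.exp L - Real.exp (-L)) * Real.cos m ≤ Real.exp L - Real.exp (-L) := by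
    have := mul_le_mul_of_nonneg_left hcm1 c8
    linarith
  nlinarith

private lemma geo4_aux {B a0 ν0 a1 ν1 : ℝ} (r1 : Rel2 B (-(61 / 100)) a0 ν0)
    (r2 : Rel2 B (149 / 100) a1 ν1) :
    Real.exp a1 * Real.cos ν1 * (1 - a1) < Real.exp a0 * Real.cos ν0 * (1 - a0) := by
  have hB : 0 < B := r1.hB
  obtain ⟨n1, n2, n3⟩ := r1.neg (by norm_num)
  obtain ⟨p1, p2, p3, p4, p5⟩ := r2.pos (by norm_num)
  have hne0 := a_ne r1.toRel (by norm_num)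
  have hne := a_ne r2.toRel (by norm_num)
  obtain ⟨L, hL⟩ : ∃ L, L = -a1 := ⟨_, rfl⟩
  have ha1 : a1 = -L := by linarith
  subst ha1
  have hL0 : 0 < L := lt_of_le_of_ne (by linarith) (fun h => hne (by rw [← h, neg_zero]))
  have hl0 : 0 < a0 := lt_of_le_of_ne n2 (Ne.symm hne0)
  have hν2 := abs_lt.1 r2.hν
  have hA := min_a r2.toRel (-a0)
  have hBd := max_s r1 (s := -ν1) (abs_le.2 ⟨by linarith, by linarith⟩)
  refine lt_of_le_of_lt hA (lt_of_lt_of_le ?_ hBd)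
  unfold ui
  rw [Real.cos_neg]
  have key := key_rel r2.toRel
  have hs := r2.hs
  have hsin0 : 0 < Real.sin ν1 := by
    have h1 : 0 < Real.exp (-L) * Real.sin ν1 := by
      rw [hs]
      have := mul_pos hB hL0
      linarith
    exact (mul_pos_iff_of_pos_left (Real.exp_pos (-L))).1 h1
  have hν0 : 0 < ν1 := by
    rcases lt_or_eq_of_le p1 with h | h
    · exact h
    · rw [← h, Real.sin_zero] at hsin0
      exact absurd hsin0 (lt_irrefl 0)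
  have hcos0 : 0 < Real.cos ν1 := Real.cos_pos_of_mem_Ioo hν2
  have hcos1 := Real.cos_le_one ν1
  have hov := one_var hν0 p2
  have hEE : Real.exp (-L) * Real.exp L = 1 := by
    rw [← Real.exp_add, neg_add_cancel, Real.exp_zero]
  have h1 : B * L * Real.exp L = Real.sin ν1 := by
    have : B * L = Real.exp (-L) * Real.sin ν1 := by linarith
    rw [this]
    calc Real.exp (-L) * Real.sin ν1 * Real.exp L = Real.exp (-L) * Real.exp L * Real.sin ν1 := by ring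
      _ = Real.sin ν1 := by rw [hEE, one_mul]
  -- `2 (1 - cos ν) < .88 B`
  have c1 : 2 * (1 - Real.cos ν1) < 88 / 100 * B := by
    have h2 : L * Real.exp L ≤ (149 / 100 - ν1) * Real.sin ν1 + 65 / 100 * Real.cos ν1 := by
      have h3 : L * Real.cos ν1 ≤ 65 / 100 * Real.cos ν1 := mul_le_mul_of_nonneg_right (by linarith) hcos0.le
      linarith
    have h3 : L * Real.exp L * (1 - Real.cos ν1) < 44 / 100 * Real.sin ν1 :=
      lt_of_le_of_lt (mul_le_mul_of_nonneg_right h2 (by linarith)) hov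
    have h4 : (2 * (1 - Real.cos ν1)) * (L * Real.exp L) < (88 / 100 * B) * (L * Real.exp L) := by
      have h5 : (88 / 100 * B) * (L * Real.exp L) = 88 / 100 * Real.sin ν1 := by rw [← h1]; ring
      rw [h5]
      linarith
    exact lt_of_mul_lt_mul_right h4 (mul_pos hL0 (Real.exp_pos L)).le
  -- `sinh ℓ ≥ ℓ`
  have c2 : 2 * a0 ≤ Real.exp a0 - Real.exp (-a0) := by
    have h2 : a0 ≤ Real.sinh a0 := Real.self_le_sinh_iff.2 hl0.le
    rw [Real.sinh_eq] at h2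
    linarith
  have c3 : 2 * a0 * Real.cos ν1 ≤ (Real.exp a0 - Real.exp (-a0)) * Real.cos ν1 :=
    mul_le_mul_of_nonneg_right c2 hcos0.le
  have c4 : a0 * (2 * (1 - Real.cos ν1)) < a0 * (88 / 100 * B) := mul_lt_mul_of_pos_left c1 hl0
  nlinarith

theorem geo3_im {B : ℝ} {x1 x2 : ℂ} (hB : 0 < B) (h1 : Sad (-(1 / B : ℝ) * I) (97 / 100) x1)
    (h2 : Sad (-(1 / B : ℝ) * I) (-(113 / 100)) x2) :
    (Sh (-(1 / B : ℝ) * I) x2).re < (Sh (-(1 / B : ℝ) * I) x1).re := by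
  have r1 := h1.rel2 hB ⟨by norm_num, by norm_num⟩
  have r2 := h2.rel2 hB ⟨by norm_num, by norm_num⟩
  rw [sh_eq hB h1, sh_eq hB h2]
  exact geo3_aux r1 r2

theorem geo4_im {B : ℝ} {x1 x2 : ℂ} (hB : 0 < B) (h1 : Sad (-(1 / B : ℝ) * I) (-(61 / 100)) x1)
    (h2 : Sad (-(1 / B : ℝ) * I) (149 / 100) x2) :
    (Sh (-(1 / B : ℝ) * I) x2).re < (Sh (-(1 / B : ℝ) * I) x1).re := by
  have r1 := h1.rel2 hB ⟨by norm_num, by norm_num⟩
  have r2 := h2.rel2 hB ⟨by norm_num, by norm_num⟩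
  rw [sh_eq hB h1, sh_eq hB h2]
  exact geo4_aux r1 r2

end SokalAS
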