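import Mathlib

/-!
# The logarithm is strictly monotone on the right half plane [AS-01]

`log_mono`: mean value theorem for `φ(τ) = Re (conj(x - x') log(x' + τ (x - x')))` on `[0,1]`: the point `x' + τ (x - x')`
has positive real part (convexity), `φ'(τ) = Re (conj(x - x') (x - x')/(x' + τ(x - x'))) = ‖x - x'‖² Re (1/(x' + τ(x - x')))`.
(`exists_deriv_eq_slope` / `exists_hasDerivAt_eq_slope`; for `x = x'` take `τ = 0`.)
`log_mono'`: `Re 1/y = Re y/‖y‖² ≥ c/C²` for `y` on the segment (`Re y ≥ c`, `‖y‖ ≤ C`).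
`log_lip`: `Convex.norm_image_sub_le_of_norm_deriv_le` on the convex set `{c ≤ Re}`, `‖1/y‖ ≤ 1/Re y ≤ 1/c`.
-/

namespace SokalAS

open Complex
open scoped ComplexConjugate

/-- a point of the segment has real part at least `c` -/
private theorem lm_re {x x' : ℂ} {c τ : ℝ} (h0 : 0 ≤ τ) (h1 : τ ≤ 1) (hx : c ≤ x.re) (hx' : c ≤ x'.re) :
    c ≤ (x' + τ * (x - x')).re := by
  have h : (x' + τ * (x - x')).re = (1 - τ) * x'.re + τ * x.re := by
    simp only [add_re, mul_re, ofReal_re, ofReal_im, sub_re, sub_im]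
    ring
  rw [h]
  have h2 : (1 - τ) * c ≤ (1 - τ) * x'.re := mul_le_mul_of_nonneg_left hx' (by linarith)
  have h3 : τ * c ≤ τ * x.re := mul_le_mul_of_nonneg_left hx h0
  linarith

/-- a point of the segment has norm at most `C` -/
private theorem lm_norm {x x' : ℂ} {C τ : ℝ} (h0 : 0 ≤ τ) (h1 : τ ≤ 1) (hx : ‖x‖ ≤ C) (hx' : ‖x'‖ ≤ C) :
    ‖x' + τ * (x - x')‖ ≤ C := by
  have h : x' + τ * (x - x') = ((1 - τ : ℝ) : ℂ) * x' + (τ : ℂ) * x := by
    push_cast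
    ring
  rw [h]
  have h2 : ‖((1 - τ : ℝ) : ℂ) * x'‖ = (1 - τ) * ‖x'‖ := by
    rw [norm_mul, norm_real, Real.norm_of_nonneg (by linarith)]
  have h3 : ‖(τ : ℂ) * x‖ = τ * ‖x‖ := by
    rw [norm_mul, norm_real, Real.norm_of_nonneg h0]
  have h4 := norm_add_le (((1 - τ : ℝ) : ℂ) * x') ((τ : ℂ) * x)
  rw [h2, h3] at h4
  have h5 : (1 - τ) * ‖x'‖ ≤ (1 - τ) * C := mul_le_mul_of_nonneg_left hx' (by linarith)
  have h6 : τ * ‖x‖ ≤ τ * C := mul_le_mul_of_nonneg_left hx h0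
  linarith

theorem log_mono {x x' : ℂ} (hx : 0 < x.re) (hx' : 0 < x'.re) : ∃ τ ∈ Set.Icc (0 : ℝ) 1,
    (conj (x - x') * (log x - log x')).re = ‖x - x'‖ ^ 2 * ((x' + τ * (x - x'))⁻¹).re := by
  have hpos : ∀ τ : ℝ, 0 ≤ τ → τ ≤ 1 → 0 < (x' + τ * (x - x')).re := by
    intro τ h0 h1
    have := lm_re (c := min x.re x'.re) h0 h1 (min_le_left _ _) (min_le_right _ _)
    exact lt_of_lt_of_le (lt_min hx hx') this
  have hd : ∀ τ : ℝ, 0 ≤ τ → τ ≤ 1 →
      HasDerivAt (fun τ : ℝ => (conj (x - x') * log (x' + τ * (x - x'))).re)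
        (‖x - x'‖ ^ 2 * ((x' + τ * (x - x'))⁻¹).re) τ := by
    intro τ h0 h1
    have hs : x' + τ * (x - x') ∈ slitPlane := Or.inl (hpos τ h0 h1)
    have hl : HasDerivAt (fun z : ℂ => x' + z * (x - x')) (x - x') (τ : ℂ) := by
      have := ((hasDerivAt_id (τ : ℂ)).mul_const (x - x')).const_add x'
      simpa using this
    have h2 : HasDerivAt (fun z : ℂ => conj (x - x') * log (x' + z * (x - x')))
        (conj (x - x') * ((x - x') / (x' + τ * (x - x')))) (τ : ℂ) :=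
      (hl.clog hs).const_mul _
    have h3 := h2.real_of_complex
    have h4 : (conj (x - x') * ((x - x') / (x' + τ * (x - x')))).re =
        ‖x - x'‖ ^ 2 * ((x' + τ * (x - x'))⁻¹).re := by
      have h5 : conj (x - x') * ((x - x') / (x' + τ * (x - x'))) =
          ((‖x - x'‖ ^ 2 : ℝ) : ℂ) * (x' + τ * (x - x'))⁻¹ := by
        rw [div_eq_mul_inv, ← mul_assoc, ← normSq_eq_conj_mul_self, normSq_eq_norm_sq]
      rw [h5, re_ofReal_mul]
    rw [h4] at h3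
    exact h3
  obtain ⟨τ, hτ, h⟩ := exists_hasDerivAt_eq_slope
    (fun τ : ℝ => (conj (x - x') * log (x' + τ * (x - x'))).re)
    (fun τ : ℝ => ‖x - x'‖ ^ 2 * ((x' + τ * (x - x'))⁻¹).re) (zero_lt_one' ℝ)
    (fun τ hτ => (hd τ hτ.1 hτ.2).continuousAt.continuousWithinAt)
    (fun τ hτ => hd τ hτ.1.le hτ.2.le)
  refine ⟨τ, ⟨hτ.1.le, hτ.2.le⟩, ?_⟩
  rw [h]
  simp only [ofReal_one, ofReal_zero, one_mul, zero_mul, add_zero, sub_zero, div_one]
  rw [add_sub_cancel, ← sub_re, mul_sub]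

theorem log_mono' {c C : ℝ} (hc : 0 < c) {x x' : ℂ} (hx : c ≤ x.re) (hx' : c ≤ x'.re)
    (hxC : ‖x‖ ≤ C) (hxC' : ‖x'‖ ≤ C) :
    c / C ^ 2 * ‖x - x'‖ ^ 2 ≤ (conj (x - x') * (log x - log x')).re := by
  obtain ⟨τ, hτ, h⟩ := log_mono (hc.trans_le hx) (hc.trans_le hx')
  rw [h, mul_comm]
  refine mul_le_mul_of_nonneg_left ?_ (sq_nonneg _)
  have h1 := lm_re hτ.1 hτ.2 hx hx'
  have h2 := lm_norm hτ.1 hτ.2 hxC hxC'
  generalize x' + τ * (x - x') = y at h1 h2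
  have hy : 0 < ‖y‖ := by
    have := re_le_norm y
    linarith
  have hC : 0 < C := hy.trans_le h2
  rw [inv_re, normSq_eq_norm_sq, div_le_div_iff₀ (by positivity) (by positivity)]
  have h3 : ‖y‖ ^ 2 ≤ C ^ 2 := pow_le_pow_left₀ hy.le h2 2
  have h4 : c * ‖y‖ ^ 2 ≤ c * C ^ 2 := mul_le_mul_of_nonneg_left h3 hc.le
  have h5 : c * C ^ 2 ≤ y.re * C ^ 2 := mul_le_mul_of_nonneg_right h1 (by positivity)
  linarith

theorem log_mono_nonneg {x x' : ℂ} (hx : 0 < x.re) (hx' : 0 < x'.re) (hne : x ≠ x') :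
    0 < (conj (x - x') * (log x - log x')).re := by
  have hc : 0 < min x.re x'.re := lt_min hx hx'
  have h := log_mono' hc (min_le_left _ _) (min_le_right _ _) (le_max_left ‖x‖ ‖x'‖) (le_max_right ‖x‖ ‖x'‖)
  refine lt_of_lt_of_le ?_ h
  have h1 : 0 < ‖x - x'‖ := norm_pos_iff.2 (sub_ne_zero.2 hne)
  have h2 : 0 < max ‖x‖ ‖x'‖ := by
    have h3 := re_le_norm x
    exact lt_of_lt_of_le (by linarith) (le_max_left _ _)
  positivity

theorem log_lip {c : ℝ} (hc : 0 < c) {x x' : ℂ} (hx : c ≤ x.re) (hx' : c ≤ x'.re) :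
    ‖log x - log x'‖ ≤ 1 / c * ‖x - x'‖ := by
  have hslit : ∀ y ∈ {z : ℂ | c ≤ z.re}, y ∈ slitPlane := fun y hy => Or.inl (hc.trans_le hy)
  refine Convex.norm_image_sub_le_of_norm_deriv_le (𝕜 := ℂ) (s := {z : ℂ | c ≤ z.re})
    (fun y hy => (hasDerivAt_log (hslit y hy)).differentiableAt) (fun y hy => ?_)
    (convex_halfSpace_re_ge c) hx' hx
  rw [(hasDerivAt_log (hslit y hy)).deriv, norm_inv, one_div]
  have h1 : c ≤ ‖y‖ := le_trans hy (re_le_norm y)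
  exact inv_anti₀ hc h1

end SokalAS
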