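import Pool.Agent.Lib_MP_af4de1_as.Basic
import Pool.Agent.Lib_MP_af4de1_as.LogMono

/-!
# Bounds for the saddle point [AS-02]

Write `w = u - i v`, `u, v ≥ 0`, `x = p + i r`, `p > 0`, `ν = arg x ∈ (-π/2, π/2)`.  Real and imaginary part of
`log x + w (x - 1) = iη`:
  (1) `log‖x‖ = u (1 - p) - v r`,      (2) `ν = η - u r + v (p - 1)`.
`mul_im_nonneg`: `log_mono` with `x' = 1`: `conj(x-1) iη = conj(x-1) log x + w ‖x-1‖²`; real part of the left side is `η r`.
`pos_bounds` (`0 ≤ η ≤ 1.54`).  If `η = 0` then `x = 1` (from the previous identity).  `r ≥ 0` (if `η > 0`), `ν ≥ 0`.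
 `p ≤ 1`: otherwise (1) gives `log‖x‖ ≤ 0`, `‖x‖ ≤ 1 < p ≤ ‖x‖`.  `ν ≤ η` by (2).
 `e^{-1} ≤ ‖x‖`: let `L = -log‖x‖` and suppose `L > 1`.  `L ≤ v r` by (1), `v (1-p) = η - ν - u r ≤ 1.54`, `r ≤ ‖x‖ < e^{-1}`,
 `1 - p ≥ 1 - e^{-1}`, so `L ≤ 1.54 e^{-1}/(1 - e^{-1}) < 1`.
`neg_bounds` (`-1.17 ≤ η ≤ 0`): `r ≤ 0`, `ν ≤ 0`.  `‖x‖ ≥ 1`: if `p > 1` clear, else (1) is `≥ 0`.
 `cos ν ≥ 1/100`: suppose not, `μ = -ν`, `r̃ = -r = ‖x‖ sin μ`.  `π/2 - μ ≤ (π/2) cos μ < .016`, `sin μ ≥ .9999`.  By (2)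
 `v (1-p) = μ + η + u r̃ ≥ 1.5549 - 1.17 = .3849`, so `p < 1`, `v ≥ .3849` and (1) gives `log‖x‖ ≥ v r̃ ≥ .38 ‖x‖`, but
 `log y ≤ y/e ≤ .3679 y`.
`bounds`: `p = ‖x‖ cos ν`.  `η ≥ 0`: `cos ν ≥ cos 1.54 > 0`, `p ≥ e^{-1} cos 1.54`, `‖x‖ ≤ 1/cos 1.54`.
 `η ≤ 0`: `p ≥ 1/100`; if `p ≤ 2` then `‖x‖ ≤ 200`; if `p > 2` then by (2) `v (p-1) ≤ 1.17` so `v ≤ 2.34/p`, and (1)
 gives `log‖x‖ ≤ v r̃ ≤ 2.34 r̃/p ≤ 2.34 ‖x‖/p ≤ 234`.
-/

namespace SokalAS

open Complex
open scoped ComplexConjugate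

private theorem sb_re {w : ℂ} {η : ℝ} {x : ℂ} (h : Sad w η x) :
    Real.log ‖x‖ = w.re * (1 - x.re) + w.im * x.im := by
  have h1 := congrArg re h.2
  simp only [add_re, mul_re, sub_re, sub_im, one_re, one_im, log_re, ofReal_re, ofReal_im, I_re,
    I_im, mul_zero, zero_mul, sub_zero] at h1
  linarith

private theorem sb_im {w : ℂ} {η : ℝ} {x : ℂ} (h : Sad w η x) :
    arg x = η - w.re * x.im - w.im * (x.re - 1) := by
  have h1 := congrArg im h.2
  simp only [add_im, mul_im, sub_re, sub_im, one_re, one_im, log_im, ofReal_re, ofReal_im, I_re,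
    I_im, mul_zero, mul_one, sub_zero, add_zero] at h1
  linarith

private theorem sb_key {w : ℂ} {η : ℝ} {x : ℂ} (h : Sad w η x) :
    ∃ s : ℝ, 0 < s ∧ η * x.im = (w.re + s) * ‖x - 1‖ ^ 2 := by
  obtain ⟨τ, hτ, h1⟩ := log_mono h.1 (show 0 < (1 : ℂ).re by simp)
  have hy : 0 < (1 + (τ : ℂ) * (x - 1)).re := by
    have h2 : (1 + (τ : ℂ) * (x - 1)).re = (1 - τ) + τ * x.re := by
      simp only [add_re, mul_re, ofReal_re, ofReal_im, sub_re, sub_im, one_re]
      ring
    rw [h2]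
    rcases eq_or_lt_of_le hτ.1 with h0 | h0
    · rw [← h0]; norm_num
    · have h3 : 0 < τ * x.re := mul_pos h0 h.1
      have h4 : 0 ≤ 1 - τ := by linarith [hτ.2]
      linarith
  have hy0 : (1 + (τ : ℂ) * (x - 1)) ≠ 0 := by
    intro h0
    rw [h0] at hy
    simp at hy
  refine ⟨((1 + (τ : ℂ) * (x - 1))⁻¹).re, ?_, ?_⟩
  · rw [inv_re]
    exact div_pos hy (normSq_pos.2 hy0)
  · have h2 : log x = η * I - w * (x - 1) := by rw [← h.2]; ring
    rw [log_one, sub_zero, h2] at h1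
    have h3 : ‖x - 1‖ ^ 2 = (x.re - 1) ^ 2 + x.im ^ 2 := by
      rw [← normSq_eq_norm_sq, normSq_apply]
      simp only [sub_re, sub_im, one_re, one_im]
      ring
    have h4 : (conj (x - 1) * (η * I - w * (x - 1))).re = η * x.im - w.re * ‖x - 1‖ ^ 2 := by
      rw [h3]
      simp only [map_sub, map_one, mul_re, sub_re, sub_im, mul_im, conj_re, conj_im, one_re,
        one_im, ofReal_re, ofReal_im, I_re, I_im]
      ring
    rw [h4] at h1
    linarith

theorem Sad.one {w : ℂ} : Sad w 0 1 := by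
  refine ⟨by simp, ?_⟩
  simp

theorem Sad.mul_im_nonneg {w : ℂ} {η : ℝ} {x : ℂ} (hw : 0 ≤ w.re) (h : Sad w η x) :
    0 ≤ η * x.im := by
  obtain ⟨s, hs, h1⟩ := sb_key h
  rw [h1]
  have : 0 ≤ w.re + s := by linarith
  positivity

theorem Sad.eq_one {w : ℂ} {x : ℂ} (hw : 0 ≤ w.re) (h : Sad w 0 x) : x = 1 := by
  obtain ⟨s, hs, h1⟩ := sb_key h
  rw [zero_mul] at h1
  have h2 : 0 < w.re + s := by linarith
  rcases mul_eq_zero.1 h1.symm with h3 | h3
  · linarith
  · have h4 : ‖x - 1‖ = 0 := by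
      rcases pow_eq_zero_iff (n := 2) (by norm_num) |>.1 h3 with h5
      exact h5
    exact sub_eq_zero.1 (norm_eq_zero.1 h4)

private theorem sb_exp : Real.exp (-1) < 0.368 := by
  have := Real.exp_neg_one_lt_d9
  norm_num at this ⊢
  linarith

theorem Sad.pos_bounds {w : ℂ} {η : ℝ} {x : ℂ} (hw : w ∈ Qd) (h0 : 0 ≤ η) (h1 : η ≤ 77 / 50)
    (h : Sad w η x) :
    0 ≤ x.im ∧ 0 ≤ arg x ∧ x.re ≤ 1 ∧ arg x ≤ η ∧ Real.exp (-1) ≤ ‖x‖ := by
  obtain ⟨hwr, hwi⟩ := hw
  rcases eq_or_lt_of_le h0 with h00 | h00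
  · rw [← h00] at h
    have hx := h.eq_one hwr
    subst hx
    refine ⟨by simp, by simp, by simp, by simpa using h0, ?_⟩
    rw [norm_one]
    exact Real.exp_le_one_iff.2 (by norm_num)
  · have hr : 0 ≤ x.im := by
      have h2 := h.mul_im_nonneg hwr
      exact nonneg_of_mul_nonneg_right h2 h00
    have harg : 0 ≤ arg x := arg_nonneg_iff.2 hr
    have hre := sb_re h
    have him := sb_im h
    have hp0 := h.1
    have hxp : 0 < ‖x‖ := norm_pos_iff.2 h.ne_zero
    have hp : x.re ≤ 1 := by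
      by_contra hp
      push Not at hp
      have h3 : Real.log ‖x‖ ≤ 0 := by
        rw [hre]
        nlinarith [mul_nonneg hwr (sub_nonneg.2 hp.le), mul_nonneg (neg_nonneg.2 hwi) hr]
      have h4 : ‖x‖ ≤ 1 := by
        rwa [Real.log_nonpos_iff hxp.le] at h3
      have h5 := re_le_norm x
      linarith
    have hνη : arg x ≤ η := by
      rw [him]
      nlinarith [mul_nonneg hwr hr, mul_nonneg (neg_nonneg.2 hwi) (sub_nonneg.2 hp)]
    refine ⟨hr, harg, hp, hνη, ?_⟩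
    by_contra hc
    push Not at hc
    have hE := sb_exp
    have h6 : Real.log ‖x‖ < -1 := by
      rw [Real.log_lt_iff_lt_exp hxp]; exact hc
    have h7 : x.re ≤ ‖x‖ := re_le_norm x
    have h8 : x.im ≤ ‖x‖ := im_le_norm x
    have h9 : (-w.im) * (1 - x.re) ≤ 77 / 50 := by
      have := mul_nonneg hwr hr
      linarith
    have h10 : 0.632 ≤ 1 - x.re := by norm_num at hE ⊢; linarith
    have h11 : x.im ≤ 0.368 := by linarith
    have hv : 0 ≤ -w.im := by linarith
    have h12 : (-w.im) * 0.632 ≤ 77 / 50 :=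
      (mul_le_mul_of_nonneg_left h10 hv).trans h9
    have h13 : (-w.im) * x.im ≤ (-w.im) * 0.368 := mul_le_mul_of_nonneg_left h11 hv
    have h14 : 0 ≤ w.re * (1 - x.re) := mul_nonneg hwr (sub_nonneg.2 hp)
    norm_num at h12 h13
    nlinarith

private theorem sb_log_le {y : ℝ} (hy : 0 < y) : Real.log y ≤ 0.368 * y := by
  have h1 : Real.log (y * Real.exp (-1)) ≤ y * Real.exp (-1) - 1 :=
    Real.log_le_sub_one_of_pos (by positivity)
  rw [Real.log_mul hy.ne' (Real.exp_pos _).ne', Real.log_exp] at h1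
  have h2 := sb_exp
  have h3 : y * Real.exp (-1) ≤ y * 0.368 := mul_le_mul_of_nonneg_left h2.le hy.le
  linarith

theorem Sad.neg_bounds {w : ℂ} {η : ℝ} {x : ℂ} (hw : w ∈ Qd) (h0 : η ≤ 0)
    (h1 : -(117 / 100) ≤ η) (h : Sad w η x) :
    x.im ≤ 0 ∧ arg x ≤ 0 ∧ 1 ≤ ‖x‖ ∧ 1 / 100 ≤ Real.cos (arg x) := by
  obtain ⟨hwr, hwi⟩ := hw
  rcases eq_or_lt_of_le h0 with h00 | h00
  · rw [h00] at h
    have hx := h.eq_one hwr
    subst hx
    refine ⟨by simp, by simp, by simp, ?_⟩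
    rw [arg_one, Real.cos_zero]
    norm_num
  · have hr : x.im ≤ 0 := by
      have h2 := h.mul_im_nonneg hwr
      by_contra hc
      push Not at hc
      have := mul_neg_of_neg_of_pos h00 hc
      linarith
    have hp0 := h.1
    have harg : arg x ≤ 0 := by
      rcases eq_or_lt_of_le hr with hr0 | hr0
      · rw [arg_eq_zero_iff.2 ⟨hp0.le, hr0⟩]
      · exact (arg_neg_iff.2 hr0).le
    have hre := sb_re h
    have him := sb_im h
    have hxp : 0 < ‖x‖ := norm_pos_iff.2 h.ne_zero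
    have hrr : 0 ≤ w.im * x.im := mul_nonneg_of_nonpos_of_nonpos hwi hr
    have hx1 : 1 ≤ ‖x‖ := by
      rcases le_or_gt x.re 1 with hp | hp
      · have h3 : 0 ≤ Real.log ‖x‖ := by
          rw [hre]
          have := mul_nonneg hwr (sub_nonneg.2 hp)
          linarith
        rwa [Real.log_nonneg_iff hxp] at h3
      · exact hp.le.trans (re_le_norm x)
    refine ⟨hr, harg, hx1, ?_⟩
    by_contra hc
    push Not at hc
    have hpi1 := Real.pi_gt_d2
    have hpi2 := Real.pi_lt_d2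
    have hargh := abs_arg_lt_pi_div_two_iff.2 (Or.inl hp0)
    have harg1 := (abs_lt.1 hargh).1
    -- `μ = -arg x`
    have hμ : Real.pi / 2 + arg x ≤ 0.0158 := by
      have h3 : 2 / Real.pi * (Real.pi / 2 + arg x) ≤ Real.sin (Real.pi / 2 + arg x) :=
        Real.mul_le_sin (by linarith) (by linarith)
      have h4 : Real.sin (Real.pi / 2 + arg x) = Real.cos (arg x) := by
        rw [add_comm, Real.sin_add_pi_div_two]
      rw [h4] at h3
      have h5 : Real.pi / 2 + arg x = Real.pi / 2 * (2 / Real.pi * (Real.pi / 2 + arg x)) := by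
        field_simp
      rw [h5]
      have h6 : Real.pi / 2 * (2 / Real.pi * (Real.pi / 2 + arg x)) ≤ Real.pi / 2 * (1 / 100) :=
        mul_le_mul_of_nonneg_left (h3.trans hc.le) (by positivity)
      norm_num at h6 hpi2 ⊢
      linarith
    have hν : arg x ≤ -1.554 := by norm_num at hμ hpi1 ⊢; linarith
    have hsin : Real.sin (arg x) ≤ -0.9999 := by
      have h3 : Real.sin (arg x) ^ 2 = 1 - Real.cos (arg x) ^ 2 := by
        have := Real.sin_sq_add_cos_sq (arg x)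
        linarith
      have h4 : 0 ≤ Real.cos (arg x) := Real.cos_nonneg_of_mem_Icc ⟨harg1.le, by linarith⟩
      have h5 : Real.sin (arg x) ≤ 0 := Real.sin_nonpos_of_nonpos_of_neg_pi_le harg (by linarith)
      by_contra h6
      push Not at h6
      norm_num at h6
      nlinarith
    have hr2 : ‖x‖ * Real.sin (arg x) = x.im := norm_mul_sin_arg x
    have hri : x.im ≤ -0.9999 * ‖x‖ := by
      rw [← hr2]
      nlinarith
    have hur : 0 ≤ w.re * (-x.im) := mul_nonneg hwr (by linarith)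
    have hv1 : 0.384 ≤ (-w.im) * (1 - x.re) := by norm_num at hν ⊢; linarith
    have hv : 0 ≤ -w.im := by linarith
    have hp1 : x.re < 1 := by
      by_contra hcp
      push Not at hcp
      have h3 := mul_nonneg hv (sub_nonneg.2 hcp)
      norm_num at hv1
      linarith
    have hv2 : 0.384 ≤ -w.im := by
      have h3 : (-w.im) * (1 - x.re) ≤ (-w.im) * 1 := mul_le_mul_of_nonneg_left (by linarith) hv
      linarith
    have hlog1 : 0.383 * ‖x‖ ≤ Real.log ‖x‖ := by
      rw [hre]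
      have h3 : 0 ≤ w.re * (1 - x.re) := mul_nonneg hwr (by linarith)
      have h4 : 0.384 * (0.9999 * ‖x‖) ≤ (-w.im) * (-x.im) :=
        mul_le_mul hv2 (by linarith) (by positivity) hv
      norm_num at h4 ⊢
      linarith
    have hlog2 := sb_log_le hxp
    norm_num at hlog1 hlog2
    linarith

theorem Sad.bounds : ∃ c C : ℝ, 0 < c ∧ c ≤ 1 ∧ 1 ≤ C ∧ ∀ (w : ℂ) (η : ℝ) (x : ℂ), w ∈ Qd → Rg η →
    Sad w η x → c ≤ x.re ∧ ‖x‖ ≤ C := by
  have hpi1 := Real.pi_gt_d2
  have hc0 : 0 < Real.cos (77 / 50) := Real.cos_pos_of_mem_Ioo ⟨by linarith, by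
    norm_num at hpi1 ⊢; linarith⟩
  have hc1 : Real.cos (77 / 50) ≤ 1 := Real.cos_le_one _
  set c0 : ℝ := Real.cos (77 / 50) with hc0d
  have hE0 := Real.exp_pos (-1)
  have hE := sb_exp
  have hE1 : Real.exp (-1) ≤ 1 := Real.exp_le_one_iff.2 (by norm_num)
  have hec : Real.exp (-1) * c0 ≤ 1 := by
    calc Real.exp (-1) * c0 ≤ 1 * 1 := mul_le_mul hE1 hc1 hc0.le (by norm_num)
      _ = 1 := by norm_num
  have hec0 : 0 < Real.exp (-1) * c0 := by positivity
  have hEE := Real.add_one_le_exp (234 : ℝ)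
  refine ⟨Real.exp (-1) * c0 / 100, 1 / c0 + Real.exp 234, by positivity, by linarith, ?_, ?_⟩
  · have : 0 < 1 / c0 := by positivity
    linarith
  · intro w η x hw hη h
    have hp0 := h.1
    have hxp : 0 < ‖x‖ := norm_pos_iff.2 h.ne_zero
    have hcos : ‖x‖ * Real.cos (arg x) = x.re := norm_mul_cos_arg x
    have hic : 0 < 1 / c0 := by positivity
    rcases le_total 0 η with h0 | h0
    · obtain ⟨hr, harg, hp, hνη, hn⟩ := h.pos_bounds hw h0 hη.2
      have hcc : c0 ≤ Real.cos (arg x) := by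
        rw [hc0d]
        exact Real.cos_le_cos_of_nonneg_of_le_pi harg (by linarith) (hνη.trans hη.2)
      constructor
      · have h3 : Real.exp (-1) * c0 ≤ x.re := by
          rw [← hcos]
          exact mul_le_mul hn hcc hc0.le hxp.le
        linarith
      · have h3 : ‖x‖ * c0 ≤ 1 := by
          calc ‖x‖ * c0 ≤ ‖x‖ * Real.cos (arg x) := mul_le_mul_of_nonneg_left hcc hxp.le
            _ = x.re := hcos
            _ ≤ 1 := hp
        have h4 : ‖x‖ ≤ 1 / c0 := by rw [le_div_iff₀ hc0]; exact h3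
        linarith
    · obtain ⟨hr, harg, hn, hcc⟩ := h.neg_bounds hw h0 hη.1
      obtain ⟨hwr, hwi⟩ := hw
      have hre := sb_re h
      have him := sb_im h
      have hp : 1 / 100 ≤ x.re := by
        rw [← hcos]
        calc (1 : ℝ) / 100 = 1 * (1 / 100) := by norm_num
          _ ≤ ‖x‖ * Real.cos (arg x) := mul_le_mul hn hcc (by norm_num) hxp.le
      constructor
      · linarith
      · have hx100 : ‖x‖ ≤ 100 * x.re := by
          rw [← hcos]
          nlinarith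
        rcases le_or_gt x.re 2 with h2 | h2
        · linarith
        · have hη1 := hη.1
          have hur : w.re * x.im ≤ 0 := mul_nonpos_of_nonneg_of_nonpos hwr hr
          have hv : 0 ≤ -w.im := by linarith
          have h3 : (-w.im) * (x.re - 1) ≤ 117 / 100 := by linarith
          have h4 : (-w.im) * (x.re / 2) ≤ (-w.im) * (x.re - 1) :=
            mul_le_mul_of_nonneg_left (by linarith) hv
          have h5 : -x.im ≤ ‖x‖ := (neg_le_abs _).trans (abs_im_le_norm x)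
          have h6 : Real.log ‖x‖ ≤ 234 := by
            rw [hre]
            have h7 : w.re * (1 - x.re) ≤ 0 := mul_nonpos_of_nonneg_of_nonpos hwr (by linarith)
            have h8 : (-w.im) * (-x.im) ≤ (-w.im) * (100 * x.re) :=
              mul_le_mul_of_nonneg_left (h5.trans hx100) hv
            linarith
          have h7 : ‖x‖ ≤ Real.exp 234 := by
            rwa [Real.log_le_iff_le_exp hxp] at h6
          linarith

end SokalAS
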