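import Pool.Agent.Lib_MP_af4de1_as.SadBounds

/-!
# Saddle points on the imaginary axis `w = -i/B` [AS-09]

`B > 0`, `w = -i/B = ((0 : ℝ) - (1/B) I)`, `a = log‖x‖`, `ν = arg x`.
`rel`: real part of the equation: `a + (1/B) Im x = 0`; imaginary part: `ν - (1/B)(Re x - 1) = η`; `Im x = e^a sin ν`,
 `Re x = e^a cos ν`; `Re Sh = p + Re(w (x²-1))/2 = p + (1/B) p r = p - p a` (`p = Re x`, `r = Im x = -B a`).
`ui_eq`: value of `ui` at the saddle: `-(a (1 + B(ν - η))) + e^a cos ν = p (1 - a)`.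
`L_le`: for `0 ≤ η ≤ 77/50`, `L = -a`: `0 ≤ L ≤ 13/20`.  `L ≥ 0` since `sin ν ≥ 0`.  From `BL = e^{-L} sin ν` and
 `B(η-ν) = 1 - e^{-L} cos ν`: `L (e^L - cos ν) = (η - ν) sin ν ≤ (η - ν) ν ≤ η²/4 ≤ .593` (`0 ≤ ν ≤ η`), so
 `L (e^L - 1) ≤ .593`, while `.65 (e^{.65} - 1) > .595`.
 `L ≤ 2.1 B`: `(1 - e^{-L}) ≤ 1 - e^{-L} cos ν = B (η-ν) ≤ 1.54 B` and `1 - e^{-L} ≥ .735 L` on `[0, .65]` (concavity;
 `1 - e^{-.65} ≥ .4779`).
`l_le`: for `-117/100 ≤ η ≤ 0`, `0 ≤ a ≤ 49/50`.  `a ≥ 0`: `‖x‖ ≥ 1`.  Let `μ = -ν`, `y = -η`: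
 `B a = e^a sin μ`, `B (y - μ) = e^a cos μ - 1`, so `a (cos μ - e^{-a}) = (y - μ) sin μ` (also if `μ = 0`).
 Suppose `a > .98`.  `a e^{-a} ≤ 1/e ≤ .36788`, `y ≤ 1.17`: `.98 cos μ - .36788 ≤ a cos μ - a e^{-a} ≤ (1.17 - μ) sin μ`.
 But `h(μ) = .98 cos μ - (1.17 - μ) sin μ - .36788 > 0` on `[0, π/2]` (minimum about `.014`, at `μ ≈ 1.12`: `h' = .02 sin μ -
 (1.17 - μ) cos μ`; e.g. `h ≥ 0` from `cos μ ≥ 1 - μ²/2 + μ⁴/24 - μ⁶/720`, `sin μ ≤ μ - μ³/6 + μ⁵/120` for `μ ≤ 1.17`,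
 and for `μ ≥ 1.17` `(μ - 1.17) sin μ + .98 cos μ` is bounded below by its value at a subdivision).
-/

namespace SokalAS

open Complex

/-! ### One-variable inequalities -/

private lemma nonneg_of_deriv {f f' : ℝ → ℝ} (hd : ∀ x, HasDerivAt f (f' x) x) (h0 : f 0 = 0)
    (hf : ∀ x, 0 ≤ x → 0 ≤ f' x) {x : ℝ} (hx : 0 ≤ x) : 0 ≤ f x := by
  have hm : MonotoneOn f (Set.Ici 0) := by
    refine monotoneOn_of_deriv_nonneg (convex_Ici 0)
      (fun y _ => (hd y).continuousAt.continuousWithinAt)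
      (fun y _ => (hd y).differentiableAt.differentiableWithinAt) ?_
    intro y hy
    rw [interior_Ici] at hy
    rw [(hd y).deriv]
    exact hf y (le_of_lt hy)
  have := hm (Set.mem_Ici.2 le_rfl) (Set.mem_Ici.2 hx) hx
  rwa [h0] at this

private lemma cos_le4 {x : ℝ} (hx : 0 ≤ x) : Real.cos x ≤ 1 - x ^ 2 / 2 + x ^ 4 / 24 := by
  have := nonneg_of_deriv (f := fun x => 1 - x ^ 2 / 2 + x ^ 4 / 24 - Real.cos x)
    (f' := fun x => Real.sin x - (x - x ^ 3 / 6)) (fun y => by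
      have h1 := ((((hasDerivAt_const y (1 : ℝ)).sub ((hasDerivAt_pow 2 y).div_const 2)).add
        ((hasDerivAt_pow 4 y).div_const 24)).sub (Real.hasDerivAt_cos y))
      exact h1.congr_deriv (by push_cast; ring)) (by simp) (fun y hy => by
      have := Real.sin_ge_sub_cube hy
      linarith) hx
  linarith

private lemma sin_le5 {x : ℝ} (hx : 0 ≤ x) : Real.sin x ≤ x - x ^ 3 / 6 + x ^ 5 / 120 := by
  have := nonneg_of_deriv (f := fun x => x - x ^ 3 / 6 + x ^ 5 / 120 - Real.sin x)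
    (f' := fun x => (1 - x ^ 2 / 2 + x ^ 4 / 24) - Real.cos x) (fun y => by
      have h1 := ((((hasDerivAt_id y).sub ((hasDerivAt_pow 3 y).div_const 6)).add
        ((hasDerivAt_pow 5 y).div_const 120)).sub (Real.hasDerivAt_sin y))
      exact h1.congr_deriv (by push_cast; ring)) (by simp) (fun y hy => by
      have := cos_le4 hy
      linarith) hx
  linarith

private lemma cos_ge6 {x : ℝ} (hx : 0 ≤ x) :
    1 - x ^ 2 / 2 + x ^ 4 / 24 - x ^ 6 / 720 ≤ Real.cos x := by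
  have := nonneg_of_deriv (f := fun x => Real.cos x - (1 - x ^ 2 / 2 + x ^ 4 / 24 - x ^ 6 / 720))
    (f' := fun x => (x - x ^ 3 / 6 + x ^ 5 / 120) - Real.sin x) (fun y => by
      have h1 := (Real.hasDerivAt_cos y).sub
        ((((hasDerivAt_const y (1 : ℝ)).sub ((hasDerivAt_pow 2 y).div_const 2)).add
        ((hasDerivAt_pow 4 y).div_const 24)).sub ((hasDerivAt_pow 6 y).div_const 720))
      exact h1.congr_deriv (by push_cast; ring)) (by simp) (fun y hy => by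
      have := sin_le5 hy
      linarith) hx
  linarith

/-- `h(μ) > 0` on `[0, π/2]` -/
private lemma h_pos {m : ℝ} (h0 : 0 ≤ m) (h1 : m ≤ Real.pi / 2) :
    36788 / 100000 < 98 / 100 * Real.cos m - (117 / 100 - m) * Real.sin m := by
  rcases le_total m (117 / 100) with h2 | h2
  · have hc := cos_ge6 h0
    have hs := sin_le5 h0
    have hs' : (117 / 100 - m) * Real.sin m ≤ (117 / 100 - m) * (m - m ^ 3 / 6 + m ^ 5 / 120) :=
      mul_le_mul_of_nonneg_left hs (by linarith)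
    have hq : 0 ≤ 469 / 1000 - 865 / 10000 * m - 1212 / 10000 * m ^ 2 := by nlinarith
    have hq' := mul_nonneg (sq_nonneg (m - 113 / 100)) hq
    have hk : 36788 / 100000 < 98 / 100 * (1 - m ^ 2 / 2 + m ^ 4 / 24 - m ^ 6 / 720) -
        (117 / 100 - m) * (m - m ^ 3 / 6 + m ^ 5 / 120) := by
      have hq'' : 0 ≤ (m - 113 / 100) ^ 2 * (m ^ 3 * (6 / 1000)) := by positivity
      have hq3 : 0 ≤ (m - 113 / 100) ^ 2 * (m ^ 4 * (6 / 1000)) := by positivity
      nlinarith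
    linarith
  · have hp := Real.pi_gt_d4
    have hp' := Real.pi_lt_d4
    obtain ⟨t, ht⟩ : ∃ t, t = Real.pi / 2 - m := ⟨_, rfl⟩
    have ht0 : 0 ≤ t := by linarith
    have hc : Real.cos m = Real.sin t := by rw [ht, Real.sin_pi_div_two_sub]
    have hs : Real.sin m = Real.cos t := by rw [ht, Real.cos_pi_div_two_sub]
    rw [hc, hs]
    have h3 := Real.sin_ge_sub_cube ht0
    have h4 : 1 - t ^ 2 / 2 ≤ Real.cos t := Real.one_sub_sq_div_two_le_cos
    have h5 : (m - 117 / 100) * (1 - t ^ 2 / 2) ≤ (m - 117 / 100) * Real.cos t :=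
      mul_le_mul_of_nonneg_left h4 (by linarith)
    have h6 : m = Real.pi / 2 - t := by linarith
    have ht1 : t ≤ 4008 / 10000 := by linarith
    have h7 : (4007 / 10000 - t) * (1 - t ^ 2 / 2) ≤ (m - 117 / 100) * (1 - t ^ 2 / 2) := by
      apply mul_le_mul_of_nonneg_right
      · linarith
      · nlinarith
    have h8 : 36788 / 100000 < 98 / 100 * (t - t ^ 3 / 6) + (4007 / 10000 - t) * (1 - t ^ 2 / 2) := by
      nlinarith [mul_nonneg ht0 ht0, mul_nonneg (mul_nonneg ht0 ht0) ht0]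
    linarith

private lemma exp65 : 19144 / 10000 ≤ Real.exp (65 / 100) := by
  have := Real.sum_le_exp_of_nonneg (show (0 : ℝ) ≤ 65 / 100 by norm_num) 5
  norm_num [Finset.sum_range_succ, Nat.factorial] at this
  linarith

private lemma one_sub_exp_neg {L : ℝ} (h0 : 0 ≤ L) (h1 : L ≤ 65 / 100) :
    11 / 15 * L ≤ 1 - Real.exp (-L) := by
  have h2 := Real.sum_le_exp_of_nonneg h0 5
  norm_num [Finset.sum_range_succ, Nat.factorial] at h2
  have h3 : Real.exp (-L) * Real.exp L = 1 := by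
    rw [← Real.exp_add, neg_add_cancel, Real.exp_zero]
  have h4 := Real.exp_pos (-L)
  have h5 : 1 ≤ (1 - 11 / 15 * L) * Real.exp L := by
    have h6 : (1 - 11 / 15 * L) * (1 + L + L ^ 2 / 2 + L ^ 3 / 6 + L ^ 4 / 24) ≤
        (1 - 11 / 15 * L) * Real.exp L := mul_le_mul_of_nonneg_left h2 (by linarith)
    refine le_trans ?_ h6
    have h7 : 0 ≤ L * ((4 / 15) - (7 / 30) * L - (1 / 5) * L ^ 2 - (29 / 360) * L ^ 3
        - (11 / 360) * L ^ 4) := by
      apply mul_nonneg h0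
      have e2 : L ^ 2 ≤ (65 / 100) ^ 2 := pow_le_pow_left₀ h0 h1 2
      have e3 : L ^ 3 ≤ (65 / 100) ^ 3 := pow_le_pow_left₀ h0 h1 3
      have e4 : L ^ 4 ≤ (65 / 100) ^ 4 := pow_le_pow_left₀ h0 h1 4
      norm_num at e2 e3 e4
      linarith
    linarith
  nlinarith

theorem rel {B η : ℝ} {x : ℂ} (hB : 0 < B) (h : Sad (-(1 / B : ℝ) * I) η x) :
    x.im = -(B * Real.log ‖x‖) ∧ x.re = 1 + B * (arg x - η) ∧
    Real.exp (Real.log ‖x‖) * Real.sin (arg x) = -(B * Real.log ‖x‖) ∧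
    Real.exp (Real.log ‖x‖) * Real.cos (arg x) = 1 + B * (arg x - η) ∧
    (Sh (-(1 / B : ℝ) * I) x).re = x.re * (1 - Real.log ‖x‖) ∧
    (Sh (-(1 / B : ℝ) * I) x).re = ui B η (Real.log ‖x‖) (arg x) := by
  have hx := h.ne_zero
  have hB' : B ≠ 0 := hB.ne'
  have h2 := h.2
  have hr := congrArg re h2
  have hi := congrArg im h2
  simp only [add_re, add_im, log_re, log_im, mul_re, mul_im, neg_re, neg_im, ofReal_re, ofReal_im, I_re, I_im,
    sub_re, sub_im, one_re, one_im] at hr hi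
  have e1 : x.im = -(B * Real.log ‖x‖) := by
    have : x.im = B * (1 / B * x.im) := by field_simp
    rw [this]
    have h3 : 1 / B * x.im = -Real.log ‖x‖ := by linarith
    rw [h3]
    ring
  have e2 : x.re = 1 + B * (arg x - η) := by
    have : x.re - 1 = B * (1 / B * (x.re - 1)) := by field_simp
    have h3 : 1 / B * (x.re - 1) = arg x - η := by linarith
    rw [h3] at this
    linarith
  have hn : Real.exp (Real.log ‖x‖) = ‖x‖ := Real.exp_log (norm_pos_iff.2 hx)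
  have e3 : Real.exp (Real.log ‖x‖) * Real.sin (arg x) = -(B * Real.log ‖x‖) := by
    rw [hn, norm_mul_sin_arg, e1]
  have e4 : Real.exp (Real.log ‖x‖) * Real.cos (arg x) = 1 + B * (arg x - η) := by
    rw [hn, norm_mul_cos_arg, e2]
  have e5 : (Sh (-(1 / B : ℝ) * I) x).re = x.re * (1 - Real.log ‖x‖) := by
    have : (Sh (-(1 / B : ℝ) * I) x).re = x.re + 1 / B * (x.re * x.im) := by
      unfold Sh
      rw [pow_two]
      have h4 : (-(1 / B : ℝ) * I) * (x * x - 1) / 2 = (((-(1 / (2 * B)) : ℝ)) : ℂ) * (I * (x * x - 1)) := by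
        push_cast
        field_simp
      rw [h4, add_re, re_ofReal_mul]
      simp only [mul_re, mul_im, I_re, I_im, sub_re, sub_im, one_re, one_im]
      field_simp
      ring
    rw [this, e1]
    field_simp
    ring
  refine ⟨e1, e2, e3, e4, e5, ?_⟩
  rw [e5]
  unfold ui
  rw [e4, ← e2]
  ring

theorem mem_Qd_im {B : ℝ} (hB : 0 < B) : (-(1 / B : ℝ) * I : ℂ) ∈ Qd := by
  have : 0 < 1 / B := by positivity
  constructor
  · simp only [mul_re, neg_re, neg_im, ofReal_re, ofReal_im, I_re, I_im]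
    linarith
  · simp only [mul_im, neg_re, neg_im, ofReal_re, ofReal_im, I_re, I_im]
    linarith

/-- The abstract relations at a saddle on the imaginary axis. -/
structure Rel (B η a ν : ℝ) : Prop where
  hB : 0 < B
  hν : |ν| < Real.pi / 2
  hs : Real.exp a * Real.sin ν = -(B * a)
  hc : Real.exp a * Real.cos ν = 1 + B * (ν - η)

theorem Rel.pos {B η a ν : ℝ} (h : Rel B η a ν) (h0 : 0 ≤ η) (h1 : η ≤ 77 / 50) (hν : 0 ≤ ν)
    (hν' : ν ≤ η) : -(13 / 20) ≤ a ∧ a ≤ 0 ∧ -a ≤ 21 / 10 * B := by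
  obtain ⟨hB, hν2, hs, hc⟩ := h
  have hpi := Real.pi_pos
  have hν3 := (abs_lt.1 hν2).2
  have hsin : 0 ≤ Real.sin ν := Real.sin_nonneg_of_nonneg_of_le_pi hν (by linarith)
  have hsin' : Real.sin ν ≤ ν := Real.sin_le hν
  have hcos : Real.cos ν ≤ 1 := Real.cos_le_one ν
  have hea := Real.exp_pos a
  have ha : a ≤ 0 := by
    by_contra hcon
    push Not at hcon
    have h2 : 0 < B * a := mul_pos hB hcon
    have h3 : 0 ≤ Real.exp a * Real.sin ν := mul_nonneg hea.le hsin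
    linarith
  obtain ⟨L, hL⟩ : ∃ L, L = -a := ⟨_, rfl⟩
  have haL : a = -L := by linarith
  subst haL
  have hL0 : 0 ≤ L := by linarith
  have hEE : Real.exp (-L) * Real.exp L = 1 := by
    rw [← Real.exp_add, neg_add_cancel, Real.exp_zero]
  have heL := Real.exp_pos L
  -- `L (e^L - cos ν) = (η - ν) sin ν`
  have key : L * (Real.exp L - Real.cos ν) = (η - ν) * Real.sin ν := by
    have h2 : B * (L * (Real.exp (-L) * (Real.exp L - Real.cos ν))) =
        B * (Real.exp (-L) * ((η - ν) * Real.sin ν)) := by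
      have h3 : Real.exp (-L) * (Real.exp L - Real.cos ν) = B * (η - ν) := by
        rw [mul_sub, hEE, hc]
        ring
      rw [h3]
      have h4 : Real.exp (-L) * ((η - ν) * Real.sin ν) = (η - ν) * (Real.exp (-L) * Real.sin ν) := by ring
      rw [h4, hs]
      ring
    have h5 := mul_left_cancel₀ hB.ne' h2
    have h6 : Real.exp (-L) * (L * (Real.exp L - Real.cos ν)) = Real.exp (-L) * ((η - ν) * Real.sin ν) := by
      rw [← h5]
      ring
    exact mul_left_cancel₀ hea.ne' h6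
  have hb : L * (Real.exp L - 1) ≤ 593 / 1000 := by
    have h2 : L * (Real.exp L - 1) ≤ L * (Real.exp L - Real.cos ν) :=
      mul_le_mul_of_nonneg_left (by linarith) hL0
    have h3 : (η - ν) * Real.sin ν ≤ (η - ν) * ν := mul_le_mul_of_nonneg_left hsin' (by linarith)
    nlinarith [sq_nonneg (η - 2 * ν), sq_nonneg η]
  have hL1 : L ≤ 65 / 100 := by
    by_contra hcon
    push Not at hcon
    have h2 : Real.exp (65 / 100) ≤ Real.exp L := Real.exp_le_exp.2 hcon.le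
    have h3 := exp65
    have h4 : (65 / 100) * (9144 / 10000) ≤ L * (Real.exp L - 1) :=
      mul_le_mul hcon.le (by linarith) (by norm_num) hL0
    norm_num at h4
    linarith
  refine ⟨by linarith, ha, ?_⟩
  have h2 := one_sub_exp_neg hL0 hL1
  have h3 : Real.exp (-L) * Real.cos ν ≤ Real.exp (-L) := by
    have := mul_le_mul_of_nonneg_left hcos hea.le
    linarith
  have h4 : B * (η - ν) ≤ B * (77 / 50) := mul_le_mul_of_nonneg_left (by linarith) hB.le
  nlinarith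

theorem Rel.neg {B η a ν : ℝ} (h : Rel B η a ν) (h0 : η ≤ 0) (h1 : -(117 / 100) ≤ η) (hν : ν ≤ 0)
    (ha : 0 ≤ a) : a ≤ 49 / 50 := by
  obtain ⟨hB, hν2, hs, hc⟩ := h
  have hν3 := (abs_lt.1 hν2).1
  obtain ⟨m, hm⟩ : ∃ m, m = -ν := ⟨_, rfl⟩
  have hνm : ν = -m := by linarith
  subst hνm
  rw [Real.sin_neg] at hs
  rw [Real.cos_neg] at hc
  have hm0 : 0 ≤ m := by linarith
  have hm1 : m ≤ Real.pi / 2 := by linarith
  have hsin : 0 ≤ Real.sin m := Real.sin_nonneg_of_nonneg_of_le_pi hm0 (by linarith [Real.pi_pos])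
  have hcos : 0 ≤ Real.cos m := Real.cos_nonneg_of_neg_pi_div_two_le_of_le (by linarith) hm1
  have hea := Real.exp_pos a
  have hEE : Real.exp a * Real.exp (-a) = 1 := by
    rw [← Real.exp_add, add_neg_cancel, Real.exp_zero]
  by_contra hcon
  push Not at hcon
  have key : a * (Real.cos m - Real.exp (-a)) = (-η - m) * Real.sin m := by
    have h2 : B * (a * (Real.exp a * (Real.cos m - Real.exp (-a)))) =
        B * (Real.exp a * ((-η - m) * Real.sin m)) := by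
      have h3 : Real.exp a * (Real.cos m - Real.exp (-a)) = B * (-η - m) := by
        rw [mul_sub, hEE, hc]
        ring
      rw [h3]
      have h4 : Real.exp a * ((-η - m) * Real.sin m) = -((-η - m) * (Real.exp a * -Real.sin m)) := by ring
      rw [h4, hs]
      ring
    have h5 := mul_left_cancel₀ hB.ne' h2
    have h6 : Real.exp a * (a * (Real.cos m - Real.exp (-a))) = Real.exp a * ((-η - m) * Real.sin m) := by
      rw [← h5]
      ring
    exact mul_left_cancel₀ hea.ne' h6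
  have h2 := h_pos hm0 hm1
  have h3 := Real.mul_exp_neg_le_exp_neg_one a
  have h4 : Real.exp (-1) ≤ 36788 / 100000 := by
    have h5 := Real.exp_one_gt_d9
    rw [Real.exp_neg, inv_le_comm₀ (Real.exp_pos 1) (by norm_num)]
    norm_num at h5 ⊢
    linarith
  have h5 : (-η - m) * Real.sin m ≤ (117 / 100 - m) * Real.sin m :=
    mul_le_mul_of_nonneg_right (by linarith) hsin
  have h6 : 98 / 100 * Real.cos m ≤ a * Real.cos m := mul_le_mul_of_nonneg_right (by linarith) hcos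
  nlinarith

/-- All relations together. -/
theorem Sad.rel_im {B η : ℝ} {x : ℂ} (hB : 0 < B) (hη : Rg η) (h : Sad (-(1 / B : ℝ) * I) η x) :
    Rel B η (Real.log ‖x‖) (arg x) ∧
    (0 ≤ η → 0 ≤ arg x ∧ arg x ≤ η ∧ -(13 / 20) ≤ Real.log ‖x‖ ∧ Real.log ‖x‖ ≤ 0 ∧
      -Real.log ‖x‖ ≤ 21 / 10 * B) ∧
    (η ≤ 0 → arg x ≤ 0 ∧ 0 ≤ Real.log ‖x‖ ∧ Real.log ‖x‖ ≤ 49 / 50) := by
  obtain ⟨e1, e2, e3, e4, e5, e6⟩ := rel hB h
  have hR : Rel B η (Real.log ‖x‖) (arg x) := ⟨hB, abs_arg_lt_pi_div_two_iff.2 (Or.inl h.1), e3, e4⟩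
  refine ⟨hR, ?_, ?_⟩
  · intro h0
    obtain ⟨a1, a2, a3, a4, a5⟩ := h.pos_bounds (mem_Qd_im hB) h0 hη.2
    exact ⟨a2, a4, hR.pos h0 hη.2 a2 a4⟩
  · intro h0
    obtain ⟨a1, a2, a3, a4⟩ := h.neg_bounds (mem_Qd_im hB) h0 hη.1
    have h5 : 0 ≤ Real.log ‖x‖ := Real.log_nonneg a3
    exact ⟨a2, h5, hR.neg h0 hη.1 a2 h5⟩

end SokalAS
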