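import Pool.Agent.Lib_MP_af4de1_as.SadBounds

/-!
# Uniqueness and distances of saddle points [AS-03]

Let `c, C` be as in `Sad.bounds` (also for `x = 1`: `c ≤ 1 ≤ C`).
`unique`: subtract the equations, multiply by `conj(x - x')` and take real parts: `log_mono_nonneg` contradicts `0 ≤ Re w`.
`lip`: `(log x - log x') + w (x - x') = i(η - η') - (w - w')(x' - 1)`; multiply by `conj(x - x')`, real part:
 `c/C² ‖x-x'‖² ≤ ‖x - x'‖ (|η - η'| + ‖w - w'‖ (C+1))`.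
`dist`: same `w`: `(x - x') D = i(η - η')`, `D = (log x - log x')/(x - x') + w` (`x ≠ x'`), `Re D ≥ c/C²`
 (`Re(conj(x-x') (log x - log x')) = ‖x-x'‖² Re((log x - log x')/(x-x'))`), `‖D - w‖ ≤ 1/c` (`log_lip`), so
 `‖D‖ ≥ Re D ≥ c/C²` and `‖D‖ ≥ ‖w‖ - 1/c` give `‖D‖ ≥ c' (1 + ‖w‖)`; `‖D‖ ≤ ‖w‖ + 1/c`.
`im_bounds`: with `x' = 1`, `η' = 0`: `x - 1 = iη/D`, `Im x = η Re D/‖D‖²`, `c/C² + Re w ≤ Re D ≤ 1/c + Re w`, and
 `vh_ge`, `vh_le`.
`one_add`: `1 + w x = x (1/x + w)`, `Re 1/x ≥ c/C²`, `‖1/x‖ ≤ 1/c`, as for `D`.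
-/

namespace SokalAS

open Complex
open scoped ComplexConjugate

private theorem conj_mul_self_re (z : ℂ) (w : ℂ) : (conj z * (w * z)).re = w.re * ‖z‖ ^ 2 := by
  rw [← normSq_eq_norm_sq, normSq_apply]
  simp only [mul_re, mul_im, conj_re, conj_im]
  ring

theorem Sad.unique {w : ℂ} {η : ℝ} {x x' : ℂ} (hw : 0 ≤ w.re) (h : Sad w η x) (h' : Sad w η x') :
    x = x' := by
  by_contra hne
  have h1 := log_mono_nonneg h.1 h'.1 hne
  have h2 : log x - log x' = -(w * (x - x')) := by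
    linear_combination h.2 - h'.2
  rw [h2, mul_neg, neg_re, conj_mul_self_re] at h1
  have h3 : 0 ≤ w.re * ‖x - x'‖ ^ 2 := by positivity
  linarith

theorem Sad.lip : ∃ C : ℝ, 0 < C ∧ ∀ (w w' : ℂ) (η η' : ℝ) (x x' : ℂ), w ∈ Qd → w' ∈ Qd → Rg η →
    Rg η' → Sad w η x → Sad w' η' x' → ‖x - x'‖ ≤ C * (|η - η'| + ‖w - w'‖) := by
  obtain ⟨c, C, hc, hc1, hC1, hb⟩ := Sad.bounds
  refine ⟨(C + 1) * C ^ 2 / c, by positivity, ?_⟩
  intro w w' η η' x x' hw hw' hη hη' h h'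
  obtain ⟨hxc, hxC⟩ := hb w η x hw hη h
  obtain ⟨hxc', hxC'⟩ := hb w' η' x' hw' hη' h'
  rcases eq_or_ne x x' with rfl | hne
  · rw [sub_self, norm_zero]
    positivity
  have hd : 0 < ‖x - x'‖ := norm_pos_iff.2 (sub_ne_zero.2 hne)
  have h1 := log_mono' hc hxc hxc' hxC hxC'
  have h2 : log x - log x' = ((η - η' : ℝ) : ℂ) * I - w * (x - x') - (w - w') * (x' - 1) := by
    push_cast
    linear_combination h.2 - h'.2
  have h3 : (conj (x - x') * (log x - log x')).re =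
      (conj (x - x') * (((η - η' : ℝ) : ℂ) * I - (w - w') * (x' - 1))).re -
        w.re * ‖x - x'‖ ^ 2 := by
    rw [← conj_mul_self_re, h2, ← sub_re]
    congr 1
    ring
  have h4 : (conj (x - x') * (((η - η' : ℝ) : ℂ) * I - (w - w') * (x' - 1))).re ≤
      ‖x - x'‖ * (|η - η'| + ‖w - w'‖ * (C + 1)) := by
    refine (re_le_norm _).trans ?_
    rw [norm_mul, norm_conj]
    refine mul_le_mul_of_nonneg_left ?_ (norm_nonneg _)
    refine (norm_sub_le _ _).trans ?_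
    refine add_le_add ?_ ?_
    · rw [norm_mul, norm_I, mul_one, norm_real, Real.norm_eq_abs]
    · rw [norm_mul]
      refine mul_le_mul_of_nonneg_left ?_ (norm_nonneg _)
      refine (norm_sub_le _ _).trans ?_
      rw [norm_one]
      linarith
  have h5 : 0 ≤ w.re * ‖x - x'‖ ^ 2 := mul_nonneg hw.1 (by positivity)
  have h6 : c / C ^ 2 * ‖x - x'‖ ^ 2 ≤ ‖x - x'‖ * (|η - η'| + ‖w - w'‖ * (C + 1)) := by
    linarith
  have h7 : c / C ^ 2 * ‖x - x'‖ ≤ |η - η'| + ‖w - w'‖ * (C + 1) := by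
    refine le_of_mul_le_mul_left ?_ hd
    calc ‖x - x'‖ * (c / C ^ 2 * ‖x - x'‖) = c / C ^ 2 * ‖x - x'‖ ^ 2 := by ring
      _ ≤ _ := h6
  have hC0 : 0 < C := by linarith
  have h8 : |η - η'| + ‖w - w'‖ * (C + 1) ≤ (C + 1) * (|η - η'| + ‖w - w'‖) := by
    nlinarith [abs_nonneg (η - η'), norm_nonneg (w - w'),
      mul_nonneg hC0.le (abs_nonneg (η - η'))]
  have h9 : c / C ^ 2 * ‖x - x'‖ ≤ (C + 1) * (|η - η'| + ‖w - w'‖) := h7.trans h8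
  have h10 : ‖x - x'‖ = C ^ 2 / c * (c / C ^ 2 * ‖x - x'‖) := by
    field_simp
  rw [h10]
  calc C ^ 2 / c * (c / C ^ 2 * ‖x - x'‖) ≤ C ^ 2 / c * ((C + 1) * (|η - η'| + ‖w - w'‖)) :=
        mul_le_mul_of_nonneg_left h9 (by positivity)
    _ = (C + 1) * C ^ 2 / c * (|η - η'| + ‖w - w'‖) := by ring

/-- A number `q` with `a ≤ Re q`, `‖q‖ ≤ b` plus `w`. -/
private theorem add_size {a b : ℝ} (ha : 0 < a) (hb : 0 < b) {q w : ℂ} (hw : 0 ≤ w.re)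
    (hq : a ≤ q.re) (hqb : ‖q‖ ≤ b) :
    a / (1 + a + b) * (1 + ‖w‖) ≤ ‖q + w‖ ∧ ‖q + w‖ ≤ (1 + b) * (1 + ‖w‖) := by
  have h1 : a ≤ ‖q + w‖ := by
    refine le_trans ?_ (re_le_norm _)
    rw [add_re]
    linarith
  have h2 : ‖w‖ - b ≤ ‖q + w‖ := by
    have h3 : ‖w‖ ≤ ‖q + w‖ + ‖q‖ := by
      calc ‖w‖ = ‖(q + w) - q‖ := by rw [add_sub_cancel_left]
        _ ≤ ‖q + w‖ + ‖q‖ := norm_sub_le _ _
    linarith
  constructor
  · rw [div_mul_eq_mul_div, div_le_iff₀ (by positivity)]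
    nlinarith [mul_le_mul_of_nonneg_left h1 (show 0 ≤ 1 + b by linarith),
      mul_le_mul_of_nonneg_left h2 ha.le]
  · have h3 := norm_add_le q w
    have h4 := norm_nonneg w
    nlinarith

/-- The difference quotient `D`. -/
private theorem quot {c C : ℝ} (hc : 0 < c) {w : ℂ} {η η' : ℝ} {x x' : ℂ}
    (h : Sad w η x) (h' : Sad w η' x') (hx : c ≤ x.re) (hx' : c ≤ x'.re)
    (hxC : ‖x‖ ≤ C) (hxC' : ‖x'‖ ≤ C) (hne : x ≠ x') :
    ∃ q : ℂ, (x - x') * (q + w) = ((η - η' : ℝ) : ℂ) * I ∧ c / C ^ 2 ≤ q.re ∧ ‖q‖ ≤ 1 / c := by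
  have hd0 : x - x' ≠ 0 := sub_ne_zero.2 hne
  have hd : 0 < ‖x - x'‖ := norm_pos_iff.2 hd0
  refine ⟨(log x - log x') / (x - x'), ?_, ?_, ?_⟩
  · rw [mul_add, mul_div_cancel₀ _ hd0]
    push_cast
    linear_combination h.2 - h'.2
  · have h1 := log_mono' hc hx hx' hxC hxC'
    have h2 : (conj (x - x') * (log x - log x')).re =
        ((log x - log x') / (x - x')).re * ‖x - x'‖ ^ 2 := by
      rw [← conj_mul_self_re, div_mul_cancel₀ _ hd0]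
    rw [h2] at h1
    exact le_of_mul_le_mul_right h1 (by positivity)
  · rw [norm_div, div_le_iff₀ hd]
    exact log_lip hc hx hx'

theorem Sad.dist : ∃ c C : ℝ, 0 < c ∧ 0 < C ∧ ∀ (w : ℂ) (η η' : ℝ) (x x' : ℂ), w ∈ Qd → Rg η →
    Rg η' → Sad w η x → Sad w η' x' →
    c * |η - η'| ≤ (1 + ‖w‖) * ‖x - x'‖ ∧ (1 + ‖w‖) * ‖x - x'‖ ≤ C * |η - η'| := by
  obtain ⟨c, C, hc, hc1, hC1, hb⟩ := Sad.bounds
  have hC0 : 0 < C := by linarith
  have ha : 0 < c / C ^ 2 := by positivity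
  have hb0 : 0 < 1 / c := by positivity
  have hb1 : 0 < 1 + 1 / c := by positivity
  have hab : 0 < 1 + c / C ^ 2 + 1 / c := by positivity
  refine ⟨(1 + 1 / c)⁻¹, (c / C ^ 2 / (1 + c / C ^ 2 + 1 / c))⁻¹, by positivity, by positivity, ?_⟩
  intro w η η' x x' hw hη hη' h h'
  rcases eq_or_ne x x' with rfl | hne
  · have h1 : ((η : ℝ) : ℂ) * I = (η' : ℂ) * I := by rw [← h.2, ← h'.2]
    have h2 : η = η' := by
      have := congrArg im h1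
      simpa using this
    subst h2
    simp
  obtain ⟨hxc, hxC⟩ := hb w η x hw hη h
  obtain ⟨hxc', hxC'⟩ := hb w η' x' hw hη' h'
  obtain ⟨q, hq, hqr, hqn⟩ := quot hc h h' hxc hxc' hxC hxC' hne
  obtain ⟨h3, h4⟩ := add_size ha hb0 hw.1 hqr hqn
  have h5 : ‖x - x'‖ * ‖q + w‖ = |η - η'| := by
    rw [← norm_mul, hq, norm_mul, norm_I, mul_one, norm_real, Real.norm_eq_abs]
  have hd := norm_nonneg (x - x')
  rw [← h5]
  constructor
  · rw [inv_mul_le_iff₀ hb1]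
    calc ‖x - x'‖ * ‖q + w‖ ≤ ‖x - x'‖ * ((1 + 1 / c) * (1 + ‖w‖)) :=
          mul_le_mul_of_nonneg_left h4 hd
      _ = (1 + 1 / c) * ((1 + ‖w‖) * ‖x - x'‖) := by ring
  · rw [← div_eq_inv_mul, le_div_iff₀ (by positivity)]
    calc (1 + ‖w‖) * ‖x - x'‖ * (c / C ^ 2 / (1 + c / C ^ 2 + 1 / c))
        = ‖x - x'‖ * (c / C ^ 2 / (1 + c / C ^ 2 + 1 / c) * (1 + ‖w‖)) := by ring
      _ ≤ ‖x - x'‖ * ‖q + w‖ := mul_le_mul_of_nonneg_left h3 hd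

theorem Sad.im_bounds : ∃ c C : ℝ, 0 < c ∧ 0 < C ∧ ∀ (w : ℂ) (η : ℝ) (x : ℂ), w ∈ Qd → Rg η →
    Sad w η x → c * |η| * vh w ≤ |x.im| ∧ |x.im| ≤ C * |η| * vh w := by
  obtain ⟨c, C, hc, hc1, hC1, hb⟩ := Sad.bounds
  have hC0 : 0 < C := by linarith
  have ha : 0 < c / C ^ 2 := by positivity
  have ha1 : c / C ^ 2 ≤ 1 := by
    rw [div_le_one (by positivity)]
    nlinarith
  have hb0 : 0 < 1 / c := by positivity
  have hb1' : 1 ≤ 1 / c := by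
    rw [le_div_iff₀ hc]
    linarith
  have hb1 : 0 < 1 + 1 / c := by positivity
  have hab : 0 < 1 + c / C ^ 2 + 1 / c := by positivity
  obtain ⟨a, hadef⟩ : ∃ a, a = c / C ^ 2 := ⟨_, rfl⟩
  obtain ⟨b, hbdef⟩ : ∃ b, b = 1 / c := ⟨_, rfl⟩
  rw [← hadef] at ha ha1 hab
  rw [← hbdef] at hb0 hb1' hb1 hab
  obtain ⟨e, hedef⟩ : ∃ e, e = a / (1 + a + b) := ⟨_, rfl⟩
  have he : 0 < e := by rw [hedef]; positivity
  refine ⟨a / (2 * (1 + b) ^ 2), b / e ^ 2, by positivity, by positivity, ?_⟩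
  intro w η x hw hη h
  have hw0 := hw.1
  have hR : Rg 0 := by constructor <;> norm_num
  have h1 : Sad w 0 1 := Sad.one
  rcases eq_or_ne x 1 with rfl | hne
  · have h2 : ((η : ℝ) : ℂ) * I = ((0 : ℝ) : ℂ) * I := by rw [← h.2, ← h1.2]
    have h3 : η = 0 := by
      have := congrArg im h2
      simpa using this
    subst h3
    simp
  obtain ⟨hxc, hxC⟩ := hb w η x hw hη h
  obtain ⟨hxc', hxC'⟩ := hb w 0 1 hw hR h1
  obtain ⟨q, hq, hqr, hqn⟩ := quot hc h h1 hxc hxc' hxC hxC' hne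
  rw [← hadef] at hqr
  rw [← hbdef] at hqn
  obtain ⟨h3, h4⟩ := add_size ha hb0 hw.1 hqr hqn
  rw [← hedef] at h3
  have hN : 0 < ‖q + w‖ := lt_of_lt_of_le (by positivity) h3
  have hD0 : q + w ≠ 0 := norm_pos_iff.1 hN
  have hx : x = 1 + (η : ℂ) * I * (q + w)⁻¹ := by
    have h5 : (x - 1) * (q + w) = (η : ℂ) * I := by simpa using hq
    rw [← h5, mul_assoc, mul_inv_cancel₀ hD0]
    ring
  have him : x.im = η * ((q + w).re / ‖q + w‖ ^ 2) := by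
    have h6 : (η : ℂ) * I * (q + w)⁻¹ = I * ((η : ℂ) * (q + w)⁻¹) := by ring
    rw [hx, h6, add_im, one_im, zero_add, I_mul_im, re_ofReal_mul, inv_re, normSq_eq_norm_sq]
  have hDr : 0 < (q + w).re := by
    rw [add_re]
    linarith
  have habs : |x.im| = |η| * ((q + w).re / ‖q + w‖ ^ 2) := by
    rw [him, abs_mul, abs_of_pos (div_pos hDr (by positivity))]
  have hv1 := vh_ge hw0
  have hv2 := vh_le hw0
  have hM : 0 < 1 + ‖w‖ := by positivity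
  have hDlo : a * (1 + w.re) ≤ (q + w).re := by
    rw [add_re]
    nlinarith
  have hDhi : (q + w).re ≤ b * (1 + w.re) := by
    have h7 := re_le_norm q
    rw [add_re]
    nlinarith
  have hlo : a / (2 * (1 + b) ^ 2) * vh w ≤ (q + w).re / ‖q + w‖ ^ 2 := by
    calc a / (2 * (1 + b) ^ 2) * vh w
        ≤ a / (2 * (1 + b) ^ 2) * (2 * ((1 + w.re) / (1 + ‖w‖) ^ 2)) :=
          mul_le_mul_of_nonneg_left hv2 (by positivity)
      _ = a * (1 + w.re) / ((1 + b) * (1 + ‖w‖)) ^ 2 := by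
          field_simp
      _ ≤ (q + w).re / ‖q + w‖ ^ 2 := by
          gcongr
  have hhi : (q + w).re / ‖q + w‖ ^ 2 ≤ b / e ^ 2 * vh w := by
    calc (q + w).re / ‖q + w‖ ^ 2 ≤ b * (1 + w.re) / (e * (1 + ‖w‖)) ^ 2 := by
          gcongr
      _ = b / e ^ 2 * ((1 + w.re) / (1 + ‖w‖) ^ 2) := by
          field_simp
      _ ≤ b / e ^ 2 * vh w := mul_le_mul_of_nonneg_left hv1 (by positivity)
  rw [habs]
  constructor
  · calc a / (2 * (1 + b) ^ 2) * |η| * vh w = |η| * (a / (2 * (1 + b) ^ 2) * vh w) := by ring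
      _ ≤ _ := mul_le_mul_of_nonneg_left hlo (abs_nonneg _)
  · calc |η| * ((q + w).re / ‖q + w‖ ^ 2) ≤ |η| * (b / e ^ 2 * vh w) :=
          mul_le_mul_of_nonneg_left hhi (abs_nonneg _)
      _ = b / e ^ 2 * |η| * vh w := by ring

theorem Sad.one_add : ∃ c C : ℝ, 0 < c ∧ 0 < C ∧ ∀ (w : ℂ) (η : ℝ) (x : ℂ), w ∈ Qd → Rg η →
    Sad w η x → c * (1 + ‖w‖) ≤ ‖1 + w * x‖ ∧ ‖1 + w * x‖ ≤ C * (1 + ‖w‖) := by
  obtain ⟨c, C, hc, hc1, hC1, hb⟩ := Sad.bounds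
  have hC0 : 0 < C := by linarith
  have ha : 0 < c / C ^ 2 := by positivity
  have hb0 : 0 < 1 / c := by positivity
  have hb1 : 0 < 1 + 1 / c := by positivity
  have hab : 0 < 1 + c / C ^ 2 + 1 / c := by positivity
  refine ⟨c * (c / C ^ 2 / (1 + c / C ^ 2 + 1 / c)), C * (1 + 1 / c), by positivity,
    by positivity, ?_⟩
  intro w η x hw hη h
  obtain ⟨hxc, hxC⟩ := hb w η x hw hη h
  have hx0 : x ≠ 0 := h.ne_zero
  have hxn : c ≤ ‖x‖ := hxc.trans (re_le_norm x)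
  have hxp : 0 < ‖x‖ := by linarith
  have hqr : c / C ^ 2 ≤ (x⁻¹).re := by
    rw [inv_re, normSq_eq_norm_sq]
    exact div_le_div₀ (hc.le.trans hxc) hxc (by positivity)
      (pow_le_pow_left₀ (norm_nonneg x) hxC 2)
  have hqn : ‖x⁻¹‖ ≤ 1 / c := by
    rw [norm_inv, one_div]
    exact inv_anti₀ hc hxn
  obtain ⟨h3, h4⟩ := add_size ha hb0 hw.1 hqr hqn
  have h5 : ‖1 + w * x‖ = ‖x‖ * ‖x⁻¹ + w‖ := by
    rw [← norm_mul, mul_add, mul_inv_cancel₀ hx0, mul_comm x w]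
  rw [h5]
  constructor
  · calc c * (c / C ^ 2 / (1 + c / C ^ 2 + 1 / c)) * (1 + ‖w‖)
        = c * (c / C ^ 2 / (1 + c / C ^ 2 + 1 / c) * (1 + ‖w‖)) := by ring
      _ ≤ ‖x‖ * ‖x⁻¹ + w‖ := by gcongr
  · calc ‖x‖ * ‖x⁻¹ + w‖ ≤ C * ((1 + 1 / c) * (1 + ‖w‖)) := by gcongr
      _ = C * (1 + 1 / c) * (1 + ‖w‖) := by ring

end SokalAS
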